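import Pool.Agent.NSK.Defs

/-!
CsdP (size 4): `SKF.csd` and `SKF.bnd_K` without the isotropy hypothesis (`Loc.iso`): for a smooth function
`W` with positive semidefinite Levi form on the open set `B`. The proofs in Pool/Agent/SKF/Csd.lean
(helper84) and Pool/Agent/SKF/Bnd.lean (helper36) use only smoothness and semipositivity: copy them and
replace `Loc` (some small lemmas of SKF.LvA / SKF.Lhs stated for `Loc`, such as `levi_conj`, `smooth_Lf`,
`levi_add_left`, `levi_cs`, have to be restated without `iso`: they follow from `levi_eq_sum`, `LM_conj`,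
`psd_of_levi`, `Psd.pos`).
-/

open scoped ContDiff ComplexConjugate Topology
open Complex

namespace Pool.Agent.NSK

open Pool.Agent.DTW Pool.Agent.SKF

section aux

variable {n : ℕ} {U : Set (E n)} {w : E n → ℝ} {z : E n}

private theorem CsdP_conj (L : IsOpen U ∧ ContDiffOn ℝ ∞ w U ∧ ∀ z ∈ U, Psd (LM w z)) (hz : z ∈ U) (a b : E n) :
    conj (levi w z a b) = levi w z b a := by
  have hw : ContDiffAt ℝ ∞ w z := L.2.1.contDiffAt (L.1.mem_nhds hz)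
  rw [levi_eq_sum hw, levi_eq_sum hw, Finset.sum_comm]
  simp only [map_sum, map_mul, Complex.conj_conj, LM_conj L.1 L.2.1 hz]
  refine Finset.sum_congr rfl fun k _ => Finset.sum_congr rfl fun l _ => ?_
  ring

private theorem CsdP_gram (L : IsOpen U ∧ ContDiffOn ℝ ∞ w U ∧ ∀ z ∈ U, Psd (LM w z)) (hz : z ∈ U) :
    ∃ (m : ℕ) (v : Fin m → Ix n → ℂ), ∀ a b : E n,
      levi w z a b = ∑ p, (∑ k, a k * v p k) * conj (∑ k, b k * v p k) := by
  have hw : ContDiffAt ℝ ∞ w z := L.2.1.contDiffAt (L.1.mem_nhds hz)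
  obtain ⟨m, v, hv⟩ := (L.2.2 z hz).gram
  refine ⟨m, v, fun a b => ?_⟩
  rw [levi_eq_sum hw]
  have h1 : ∀ p : Fin m, (∑ k, a k * v p k) * conj (∑ k, b k * v p k)
      = ∑ k, ∑ l, a k * conj (b l) * (v p k * conj (v p l)) := by
    intro p
    rw [map_sum, Finset.sum_mul_sum]
    refine Finset.sum_congr rfl fun k _ => Finset.sum_congr rfl fun l _ => ?_
    rw [map_mul]
    ring
  simp only [h1]
  symm
  rw [Finset.sum_comm]
  refine Finset.sum_congr rfl fun k _ => ?_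
  rw [Finset.sum_comm]
  refine Finset.sum_congr rfl fun l _ => ?_
  rw [hv, Finset.mul_sum]

private theorem CsdP_selfg {m : ℕ} {v : Fin m → Ix n → ℂ}
    (hv : ∀ a b : E n, levi w z a b = ∑ p, (∑ k, a k * v p k) * conj (∑ k, b k * v p k))
    (a : E n) : (levi w z a a).re = ∑ p, ‖∑ k, a k * v p k‖ ^ 2 := by
  rw [hv, Complex.re_sum]
  refine Finset.sum_congr rfl fun p _ => ?_
  rw [Complex.mul_conj, Complex.ofReal_re, Complex.normSq_eq_norm_sq]

/-- `levi w z b b` is real and nonnegative -/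
private theorem CsdP_self (L : IsOpen U ∧ ContDiffOn ℝ ∞ w U ∧ ∀ z ∈ U, Psd (LM w z)) (hz : z ∈ U) (b : E n) :
    levi w z b b = (((levi w z b b).re : ℝ) : ℂ) ∧ 0 ≤ (levi w z b b).re := by
  have hw : ContDiffAt ℝ ∞ w z := L.2.1.contDiffAt (L.1.mem_nhds hz)
  refine ⟨?_, ?_⟩
  · exact (Complex.conj_eq_iff_re.mp (CsdP_conj L hz b b)).symm
  · rw [levi_eq_sum hw]
    exact (L.2.2 z hz).pos b

/-- Cauchy-Schwarz -/
private theorem CsdP_cs (L : IsOpen U ∧ ContDiffOn ℝ ∞ w U ∧ ∀ z ∈ U, Psd (LM w z)) (hz : z ∈ U) (a b : E n) :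
    Complex.normSq (levi w z a b) ≤ (levi w z a a).re * (levi w z b b).re := by
  obtain ⟨m, v, hv⟩ := CsdP_gram L hz
  rw [CsdP_selfg hv, CsdP_selfg hv, Complex.normSq_eq_norm_sq, hv]
  have h1 : ‖∑ p, (∑ k, a k * v p k) * conj (∑ k, b k * v p k)‖ ≤
      ∑ p, ‖∑ k, a k * v p k‖ * ‖∑ k, b k * v p k‖ := by
    refine (norm_sum_le _ _).trans (le_of_eq ?_)
    refine Finset.sum_congr rfl fun p _ => ?_
    rw [norm_mul, Complex.norm_conj]
  calc ‖∑ p, (∑ k, a k * v p k) * conj (∑ k, b k * v p k)‖ ^ 2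
      ≤ (∑ p, ‖∑ k, a k * v p k‖ * ‖∑ k, b k * v p k‖) ^ 2 :=
        pow_le_pow_left₀ (norm_nonneg _) h1 2
    _ ≤ _ := Finset.sum_mul_sq_le_sq_mul_sq _ _ _

/-- Taylor estimate of order two -/
private theorem CsdP_taylor (f f1 : ℝ → ℝ) (f2 M : ℝ) (hf : ∀ᶠ t in 𝓝 (0 : ℝ), HasDerivAt f (f1 t) t)
    (h0 : f 0 = 0) (h1 : f1 0 = 0) (h2 : HasDerivAt f1 f2 0) (hM : |f2| ≤ M) {η : ℝ}
    (hη : 0 < η) : ∀ᶠ t in 𝓝 (0 : ℝ), |f t| ≤ (M + η) * t ^ 2 := by
  have hlo := h2.isLittleO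
  have h3 : ∀ᶠ t in 𝓝 (0 : ℝ), |f1 t| ≤ (M + η) * |t| := by
    have h4 := hlo.bound hη
    filter_upwards [h4] with t ht
    rw [h1, sub_zero, sub_zero, smul_eq_mul, Real.norm_eq_abs, Real.norm_eq_abs] at ht
    have h5 : |f1 t| ≤ |f1 t - t * f2| + |t * f2| := by
      have := abs_add_le (f1 t - t * f2) (t * f2)
      simpa using this
    have h6 : |t * f2| ≤ |t| * M := by
      rw [abs_mul]
      exact mul_le_mul_of_nonneg_left hM (abs_nonneg t)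
    nlinarith
  obtain ⟨δ, hδ, hball⟩ := Metric.eventually_nhds_iff_ball.1 (hf.and h3)
  rw [Metric.eventually_nhds_iff_ball]
  refine ⟨δ, hδ, fun t ht => ?_⟩
  have htδ : |t| < δ := by simpa [Real.norm_eq_abs] using ht
  have hsub : ∀ s ∈ Metric.closedBall (0 : ℝ) |t|, s ∈ Metric.ball (0 : ℝ) δ := by
    intro s hs
    rw [Metric.mem_closedBall] at hs
    rw [Metric.mem_ball]
    exact lt_of_le_of_lt hs htδ
  have hmv := (convex_closedBall (0 : ℝ) |t|).norm_image_sub_le_of_norm_hasDerivWithin_le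
    (f := f) (f' := f1) (C := (M + η) * |t|) (x := 0) (y := t)
    (fun s hs => (hball s (hsub s hs)).1.hasDerivWithinAt)
    (fun s hs => by
      have h7 := (hball s (hsub s hs)).2
      rw [Metric.mem_closedBall, Real.dist_eq, sub_zero] at hs
      rw [Real.norm_eq_abs]
      have hMη : 0 ≤ M + η := by
        have := abs_nonneg f2
        linarith
      exact h7.trans (mul_le_mul_of_nonneg_left hs hMη))
    (by simp) (by simp [Real.norm_eq_abs])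
  rw [h0, sub_zero, sub_zero, Real.norm_eq_abs, Real.norm_eq_abs] at hmv
  have h8 : (M + η) * |t| * |t| = (M + η) * t ^ 2 := by
    rw [mul_assoc, ← pow_two, sq_abs]
  rw [h8] at hmv
  exact hmv

private theorem CsdP_smooth (L : IsOpen U ∧ ContDiffOn ℝ ∞ w U ∧ ∀ z ∈ U, Psd (LM w z)) (a b : E n) :
    ContDiffOn ℝ ∞ (fun y => levi w y a b) U :=
  contDiffOn_d10 L.1 (contDiffOn_d01 L.1 (contDiffOn_cx L.2.1) b) a

private theorem CsdP_line (z u : E n) (t : ℝ) :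
    HasDerivAt (fun s : ℝ => z + s • u) u t := by
  have h := ((hasDerivAt_id t).smul_const u).const_add z
  simpa using h

private theorem CsdP_real (L : IsOpen U ∧ ContDiffOn ℝ ∞ w U ∧ ∀ z ∈ U, Psd (LM w z)) (hz : z ∈ U) (K : ℝ)
    (h2 : ∀ u a : E n, |fderiv ℝ (fun y => fderiv ℝ (fun x => (levi w x a a).re) y u) z u|
      ≤ K * ‖u‖ ^ 2 * ‖a‖ ^ 2)
    (v : E n) (hv : ∀ c, levi w z v c = 0) (d u : E n) :
    ‖fderiv ℝ (fun y => levi w y v d) z u‖ ^ 2 ≤ K * ‖u‖ ^ 2 * ‖v‖ ^ 2 * (levi w z d d).re := by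
  set G : E n → ℂ := fun y => levi w y v d with hG
  set H : E n → ℝ := fun y => (levi w y v v).re with hH
  set Hd : E n → ℝ := fun y => (levi w y d d).re with hHd
  have sG : ContDiffOn ℝ ∞ G U := CsdP_smooth L v d
  have sH : ContDiffOn ℝ ∞ H U := Complex.reCLM.contDiff.comp_contDiffOn (CsdP_smooth L v v)
  have sHd : ContDiffOn ℝ ∞ Hd U := Complex.reCLM.contDiff.comp_contDiffOn (CsdP_smooth L d d)
  have hU := L.1.mem_nhds hz
  have c0 : (fun s : ℝ => z + s • u) 0 = z := by simp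
  have hcU : ∀ᶠ t in 𝓝 (0 : ℝ), z + t • u ∈ U := by
    have hc : ContinuousAt (fun s : ℝ => z + s • u) 0 := (CsdP_line z u 0).continuousAt
    apply hc.eventually
    rw [c0]
    exact L.1.eventually_mem hz
  -- derivative of `G`
  have dG : HasDerivAt (fun t : ℝ => G (z + t • u)) (fderiv ℝ G z u) 0 := by
    have h1 : HasFDerivAt G (fderiv ℝ G z) ((fun s : ℝ => z + s • u) 0) := by
      rw [c0]
      exact ((sG.contDiffAt hU).differentiableAt (by simp)).hasFDerivAt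
    exact h1.comp_hasDerivAt (0 : ℝ) (CsdP_line z u 0)
  have lG := dG.tendsto_slope_zero
  have G0 : G z = 0 := hv d
  have lG2 : Filter.Tendsto (fun t : ℝ => ‖t⁻¹ • G (z + t • u)‖ ^ 2) (𝓝[≠] 0)
      (𝓝 (‖fderiv ℝ G z u‖ ^ 2)) := by
    have h3 : (fun t : ℝ => t⁻¹ • (G (z + (0 + t) • u) - G (z + (0 : ℝ) • u))) =
        fun t : ℝ => t⁻¹ • G (z + t • u) := by
      funext t
      rw [zero_add, zero_smul, add_zero, G0, sub_zero]
    rw [h3] at lG
    exact (lG.norm).pow 2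
  -- the function `H`
  have dH : ∀ᶠ t in 𝓝 (0 : ℝ),
      HasDerivAt (fun t : ℝ => H (z + t • u)) (fderiv ℝ H (z + t • u) u) t := by
    filter_upwards [hcU] with t ht
    have h1 : HasFDerivAt H (fderiv ℝ H (z + t • u)) (z + t • u) :=
      ((sH.contDiffAt (L.1.mem_nhds ht)).differentiableAt (by simp)).hasFDerivAt
    exact h1.comp_hasDerivAt t (CsdP_line z u t)
  have H0 : H z = 0 := by simp [hH, hv v]
  have hmin : IsLocalMin H z := by
    filter_upwards [hU] with y hy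
    rw [H0]
    exact (CsdP_self L hy v).2
  have H1 : fderiv ℝ H z u = 0 := by rw [hmin.fderiv_eq_zero]; simp
  have sH1 : ContDiffOn ℝ ∞ (fun y => fderiv ℝ H y u) U := by
    have h : ContDiffOn ℝ ∞ (fderiv ℝ H) U := sH.fderiv_of_isOpen L.1 (by simp)
    exact h.clm_apply contDiffOn_const
  have dH1 : HasDerivAt (fun t : ℝ => fderiv ℝ H (z + t • u) u)
      (fderiv ℝ (fun y => fderiv ℝ H y u) z u) 0 := by
    have h1 : HasFDerivAt (fun y => fderiv ℝ H y u) (fderiv ℝ (fun y => fderiv ℝ H y u) z)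
        ((fun s : ℝ => z + s • u) 0) := by
      rw [c0]
      exact ((sH1.contDiffAt hU).differentiableAt (by simp)).hasFDerivAt
    exact h1.comp_hasDerivAt (0 : ℝ) (CsdP_line z u 0)
  have lHd : Filter.Tendsto (fun t : ℝ => Hd (z + t • u)) (𝓝[≠] 0) (𝓝 (Hd z)) := by
    have h1 : ContinuousAt Hd ((fun s : ℝ => z + s • u) 0) := by
      rw [c0]
      exact (sHd.contDiffAt hU).continuousAt
    have h3 := (ContinuousAt.comp (g := Hd) (f := fun s : ℝ => z + s • u) h1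
      (CsdP_line z u 0).continuousAt).tendsto
    have h4 : (Hd ∘ fun s : ℝ => z + s • u) 0 = Hd z := by simp
    rw [h4] at h3
    exact h3.mono_left nhdsWithin_le_nhds
  have Hd0 : 0 ≤ Hd z := (CsdP_self L hz d).2
  -- the estimate
  set M : ℝ := K * ‖u‖ ^ 2 * ‖v‖ ^ 2 with hM
  have key : ∀ η : ℝ, 0 < η → ‖fderiv ℝ G z u‖ ^ 2 ≤ (M + η) * Hd z := by
    intro η hη
    have ht := CsdP_taylor (fun t : ℝ => H (z + t • u)) (fun t : ℝ => fderiv ℝ H (z + t • u) u)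
      _ M dH (by simp [H0]) (by simpa using H1) dH1 (h2 u v) hη
    refine le_of_tendsto_of_tendsto lG2 (lHd.const_mul (M + η)) ?_
    filter_upwards [ht.filter_mono nhdsWithin_le_nhds, hcU.filter_mono nhdsWithin_le_nhds,
      self_mem_nhdsWithin] with t h3 h4 h5
    have h5' : t ≠ 0 := h5
    have h6 := CsdP_cs L h4 v d
    rw [Complex.normSq_eq_norm_sq] at h6
    have h7 : H (z + t • u) ≤ (M + η) * t ^ 2 := (le_abs_self _).trans h3
    have h8 : 0 ≤ Hd (z + t • u) := (CsdP_self L h4 d).2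
    have h9 : ‖G (z + t • u)‖ ^ 2 ≤ (M + η) * t ^ 2 * Hd (z + t • u) :=
      h6.trans (mul_le_mul_of_nonneg_right h7 h8)
    rw [norm_smul, mul_pow, norm_inv, Real.norm_eq_abs, inv_pow, sq_abs]
    have h10 : 0 < t ^ 2 := by positivity
    rw [inv_mul_le_iff₀ h10]
    linarith
  refine le_of_forall_pos_le_add fun ε hε => ?_
  have h11 := key (ε / (Hd z + 1)) (by positivity)
  have h12 : ε / (Hd z + 1) * Hd z ≤ ε := by
    rw [div_mul_eq_mul_div, div_le_iff₀ (by positivity)]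
    nlinarith
  calc ‖fderiv ℝ G z u‖ ^ 2 ≤ (M + ε / (Hd z + 1)) * Hd z := h11
    _ = M * Hd z + ε / (Hd z + 1) * Hd z := by ring
    _ ≤ M * Hd z + ε := by linarith

private theorem CsdP_real' (L : IsOpen U ∧ ContDiffOn ℝ ∞ w U ∧ ∀ z ∈ U, Psd (LM w z)) (hz : z ∈ U) (K : ℝ) (hK : 0 ≤ K)
    (h2 : ∀ u a : E n, |fderiv ℝ (fun y => fderiv ℝ (fun x => (levi w x a a).re) y u) z u|
      ≤ K * ‖u‖ ^ 2 * ‖a‖ ^ 2)
    (v : E n) (hv : ∀ c, levi w z v c = 0) (d u : E n) :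
    ‖fderiv ℝ (fun y => levi w y v d) z u‖ ≤ √K * ‖v‖ * ‖u‖ * √(levi w z d d).re := by
  have h1 := CsdP_real L hz K h2 v hv d u
  have h0 : 0 ≤ (levi w z d d).re := (CsdP_self L hz d).2
  have h3 := Real.le_sqrt_of_sq_le h1
  refine h3.trans (le_of_eq ?_)
  rw [Real.sqrt_mul (by positivity), Real.sqrt_mul (by positivity), Real.sqrt_mul hK,
    Real.sqrt_sq (norm_nonneg _), Real.sqrt_sq (norm_nonneg _)]
  ring

private theorem CsdP_bfd {κ : Type*} [Fintype κ] (c : κ → ℂ) (g : κ → E n → ℂ) {y : E n}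
    (hg : ∀ i, DifferentiableAt ℝ (g i) y) (v : E n) :
    fderiv ℝ (fun x => (∑ i, c i * g i x).re) y v = (∑ i, c i * fderiv ℝ (g i) y v).re := by
  have h1 : HasFDerivAt (fun x => ∑ i, c i * g i x) (∑ i, c i • fderiv ℝ (g i) y) y :=
    HasFDerivAt.fun_sum fun i _ => (hg i).hasFDerivAt.const_mul (c i)
  have h2 := Complex.reCLM.hasFDerivAt.comp y h1
  have h3 : (fun x => (∑ i, c i * g i x).re) = (Complex.reCLM ∘ fun x => ∑ i, c i * g i x) := rfl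
  rw [h3, h2.fderiv]
  simp

private theorem CsdP_bbd {V F : Type*} [NormedAddCommGroup V] [NormedAddCommGroup F] {Q : Set V}
    {f : V → F} (hQ : IsCompact Q) (hf : ContinuousOn f Q) : ∃ C : ℝ, ∀ z ∈ Q, ‖f z‖ ≤ C :=
  hQ.exists_bound_of_continuousOn hf

private theorem CsdP_bgen {V W : Type*} [NormedAddCommGroup V] [NormedSpace ℝ V]
    [NormedAddCommGroup W] [NormedSpace ℝ W] {U Q : Set V} (hU : IsOpen U) {g : V → W}
    (hg : ContDiffOn ℝ ∞ g U) (hQ : IsCompact Q) (hQU : Q ⊆ U) :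
    ∃ C : ℝ, 0 ≤ C ∧ ∀ z ∈ Q, ∀ u : V,
      ‖fderiv ℝ (fun y => fderiv ℝ g y u) z u‖ ≤ C * ‖u‖ ^ 2 := by
  have h1 : ContDiffOn ℝ ∞ (fderiv ℝ g) U := hg.fderiv_of_isOpen hU (by simp)
  have h2 : ContDiffOn ℝ ∞ (fderiv ℝ (fderiv ℝ g)) U := h1.fderiv_of_isOpen hU (by simp)
  have h9 := h2.continuousOn.mono hQU
  obtain ⟨C, hC⟩ := CsdP_bbd hQ h9
  refine ⟨max C 0, le_max_right _ _, fun z hz u => ?_⟩
  have h3 : DifferentiableAt ℝ (fderiv ℝ g) z :=
    (h1.contDiffAt (hU.mem_nhds (hQU hz))).differentiableAt (by simp)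
  have h4 : fderiv ℝ (fun y => fderiv ℝ g y u) z u = fderiv ℝ (fderiv ℝ g) z u u := by
    have h5 := h3.hasFDerivAt.clm_apply (hasFDerivAt_const u z)
    rw [h5.fderiv]
    simp
  rw [h4]
  have h6 : ‖fderiv ℝ (fderiv ℝ g) z‖ ≤ max C 0 := (hC z hz).trans (le_max_left _ _)
  calc ‖fderiv ℝ (fderiv ℝ g) z u u‖ ≤ ‖fderiv ℝ (fderiv ℝ g) z u‖ * ‖u‖ :=
        ContinuousLinearMap.le_opNorm _ _
    _ ≤ (‖fderiv ℝ (fderiv ℝ g) z‖ * ‖u‖) * ‖u‖ := by
        gcongr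
        exact ContinuousLinearMap.le_opNorm _ _
    _ ≤ (max C 0 * ‖u‖) * ‖u‖ := by gcongr
    _ = max C 0 * ‖u‖ ^ 2 := by ring

private theorem CsdP_bd2 {Q : Set (E n)} (hU : IsOpen U) {g : E n → ℂ} (hg : ContDiffOn ℝ ∞ g U)
    (hQ : IsCompact Q) (hQU : Q ⊆ U) :
    ∃ C : ℝ, 0 ≤ C ∧ ∀ z ∈ Q, ∀ u : E n,
      ‖fderiv ℝ (fun y => fderiv ℝ g y u) z u‖ ≤ C * ‖u‖ ^ 2 :=
  CsdP_bgen hU hg hQ hQU

end aux

variable {m : ℕ} {W : E m → ℝ} {B : Set (E m)} {y : E m}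

theorem csdP (hB : IsOpen B) (hW : ContDiffOn ℝ ∞ W B)
    (hp : ∀ y ∈ B, ∀ a : E m, 0 ≤ (levi W y a a).re) (hy : y ∈ B) (K : ℝ) (hK : 0 ≤ K)
    (h2 : ∀ u a : E m, |fderiv ℝ (fun y => fderiv ℝ (fun x => (levi W x a a).re) y u) y u|
      ≤ K * ‖u‖ ^ 2 * ‖a‖ ^ 2)
    (v : E m) (hv : ∀ c, levi W y v c = 0) (d s : E m) :
    ‖third W y v d s‖ ≤ √K * ‖v‖ * ‖s‖ * √(levi W y d d).re := by
  have L : IsOpen B ∧ ContDiffOn ℝ ∞ W B ∧ ∀ z ∈ B, Psd (LM W z) :=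
    ⟨hB, hW, fun z hz => psd_of_levi hB hW hz (hp z hz)⟩
  have h1 := CsdP_real' L hy K hK h2 v hv d s
  have h3 := CsdP_real' L hy K hK h2 v hv d (I • s)
  have h4 : ‖I • s‖ = ‖s‖ := by rw [norm_smul, Complex.norm_I, one_mul]
  rw [h4] at h3
  unfold third d01
  rw [norm_div]
  have h5 : ‖(2 : ℂ)‖ = 2 := by simp
  rw [h5, div_le_iff₀ (by norm_num)]
  refine (norm_add_le _ _).trans ?_
  rw [norm_mul, Complex.norm_I, one_mul]
  linarith

theorem bndKP (hB : IsOpen B) (hW : ContDiffOn ℝ ∞ W B) {Q : Set (E m)} (hQ : IsCompact Q)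
    (hQB : Q ⊆ B) :
    ∃ K : ℝ, 0 ≤ K ∧ ∀ y ∈ Q, ∀ u a : E m,
      |fderiv ℝ (fun y => fderiv ℝ (fun x => (levi W x a a).re) y u) y u|
        ≤ K * ‖u‖ ^ 2 * ‖a‖ ^ 2 := by
  classical
  have hG : ∀ i : Ix m × Ix m, ContDiffOn ℝ ∞ (fun y => LM W y i.1 i.2) B := fun i =>
    contDiffOn_pk hB (contDiffOn_pb hB (contDiffOn_cx hW) i.2) i.1
  choose C hC0 hC using fun i => CsdP_bd2 hB (hG i) hQ hQB
  refine ⟨∑ i, C i, Finset.sum_nonneg fun i _ => hC0 i, fun z hz u a => ?_⟩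
  have hzU := hQB hz
  have h1 : ∀ y ∈ B, (levi W y a a).re =
      (∑ i : Ix m × Ix m, (a i.1 * conj (a i.2)) * LM W y i.1 i.2).re := by
    intro y hy
    rw [levi_eq_sum (hW.contDiffAt (hB.mem_nhds hy)), Fintype.sum_prod_type]
  have h2 : ∀ y ∈ B, fderiv ℝ (fun x => (levi W x a a).re) y u =
      (∑ i : Ix m × Ix m, (a i.1 * conj (a i.2)) *
        fderiv ℝ (fun x => LM W x i.1 i.2) y u).re := by
    intro y hy
    rw [← CsdP_bfd (fun i : Ix m × Ix m => a i.1 * conj (a i.2)) (fun i x => LM W x i.1 i.2)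
      (fun i => diffAt_of hB (hG i) hy) u]
    have h : (fun x => (levi W x a a).re) =ᶠ[𝓝 y] fun x =>
        (∑ i : Ix m × Ix m, (a i.1 * conj (a i.2)) * LM W x i.1 i.2).re := by
      filter_upwards [hB.mem_nhds hy] with x hx
      exact h1 x hx
    rw [h.fderiv_eq]
  have hG2 : ∀ i : Ix m × Ix m,
      DifferentiableAt ℝ (fun y => fderiv ℝ (fun x => LM W x i.1 i.2) y u) z := by
    intro i
    have h : ContDiffOn ℝ ∞ (fderiv ℝ (fun x => LM W x i.1 i.2)) B :=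
      (hG i).fderiv_of_isOpen hB (by simp)
    have h' : ContDiffOn ℝ ∞ (fun y => fderiv ℝ (fun x => LM W x i.1 i.2) y u) B :=
      h.clm_apply contDiffOn_const
    exact (h'.contDiffAt (hB.mem_nhds hzU)).differentiableAt (by simp)
  have h3 : fderiv ℝ (fun y => fderiv ℝ (fun x => (levi W x a a).re) y u) z u =
      (∑ i : Ix m × Ix m, (a i.1 * conj (a i.2)) *
        fderiv ℝ (fun y => fderiv ℝ (fun x => LM W x i.1 i.2) y u) z u).re := by
    rw [← CsdP_bfd (fun i : Ix m × Ix m => a i.1 * conj (a i.2))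
      (fun i y => fderiv ℝ (fun x => LM W x i.1 i.2) y u) hG2 u]
    have h : (fun y => fderiv ℝ (fun x => (levi W x a a).re) y u) =ᶠ[𝓝 z] fun y =>
        (∑ i : Ix m × Ix m, (a i.1 * conj (a i.2)) *
          fderiv ℝ (fun x => LM W x i.1 i.2) y u).re := by
      filter_upwards [hB.mem_nhds hzU] with y hy
      exact h2 y hy
    rw [h.fderiv_eq]
  rw [h3]
  refine (Complex.abs_re_le_norm _).trans ((norm_sum_le _ _).trans ?_)
  rw [Finset.sum_mul, Finset.sum_mul]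
  refine Finset.sum_le_sum fun i _ => ?_
  rw [norm_mul, norm_mul, RCLike.norm_conj]
  have h4 : ‖a i.1‖ ≤ ‖a‖ := norm_le_pi_norm a i.1
  have h5 : ‖a i.2‖ ≤ ‖a‖ := norm_le_pi_norm a i.2
  have h6 := hC i z hz u
  calc ‖a i.1‖ * ‖a i.2‖ * ‖fderiv ℝ (fun y => fderiv ℝ (fun x => LM W x i.1 i.2) y u) z u‖
      ≤ ‖a‖ * ‖a‖ * (C i * ‖u‖ ^ 2) := by gcongr
    _ = C i * ‖u‖ ^ 2 * ‖a‖ ^ 2 := by ring

theorem bndHP (hB : IsOpen B) (hW : ContDiffOn ℝ ∞ W B) {Q : Set (E m)} (hQ : IsCompact Q)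
    (hQB : Q ⊆ B) :
    ∃ H : ℝ, 0 ≤ H ∧ ∀ y ∈ Q, ∀ a : E m, (levi W y a a).re ≤ H * ‖a‖ ^ 2 := by
  classical
  have h1 : ∀ i : Ix m × Ix m, ∃ C : ℝ, ∀ z ∈ Q, ‖LM W z i.1 i.2‖ ≤ C := by
    intro i
    have hG : ContDiffOn ℝ ∞ (fun y => LM W y i.1 i.2) B :=
      contDiffOn_pk hB (contDiffOn_pb hB (contDiffOn_cx hW) i.2) i.1
    exact hQ.exists_bound_of_continuousOn (hG.continuousOn.mono hQB)
  choose C hC using h1
  refine ⟨∑ i, |C i|, Finset.sum_nonneg fun _ _ => abs_nonneg _, fun z hz a => ?_⟩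
  rw [levi_eq_sum (hW.contDiffAt (hB.mem_nhds (hQB hz))), ← Fintype.sum_prod_type']
  refine (Complex.re_le_norm _).trans ((norm_sum_le _ _).trans ?_)
  rw [Finset.sum_mul]
  refine Finset.sum_le_sum fun i _ => ?_
  rw [norm_mul, norm_mul, RCLike.norm_conj]
  have h4 : ‖a i.1‖ ≤ ‖a‖ := norm_le_pi_norm a i.1
  have h5 : ‖a i.2‖ ≤ ‖a‖ := norm_le_pi_norm a i.2
  have h6 : ‖LM W z i.1 i.2‖ ≤ |C i| := (hC i z hz).trans (le_abs_self _)
  calc ‖a i.1‖ * ‖a i.2‖ * ‖LM W z i.1 i.2‖ ≤ ‖a‖ * ‖a‖ * |C i| := by gcongr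
    _ = |C i| * ‖a‖ ^ 2 := by ring

end Pool.Agent.NSK
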