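import Pool.Agent.NSK.CmpN
import Pool.Agent.NSK.CsdP

/-!
BndN (size 4): pointwise bounds with ambient constants.
* `bndX`: norms are sup norms. `(DZ (XX w z b))_I = - levi w z (hv (e I) Z z) b` (`levi_hv` with `u = e I`), and
  `|levi w z h b|² ≤ (levi w z h h).re (levi w z b b).re` (`levi_cs`) with `h = hv (e I) Z z`,
  `levi w z h h = levi W (Z z) (DZ h) (DZ h) ≤ H ‖DZ h‖² ≤ H (2 m P)²` (`compat`, `norm_fderiv_hv`, `‖e I‖ ≤ 1`).
* `bndN`: apply `SKF.spc` on `E m` to `F I J = levi w z (hv (e I) Z z) (hv (e J) Z z)` and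
  `B β γ δ = Bf w (hv β Z z) (hv γ Z z) (hv δ Z z) z`, `K' = √K (2 m P)`: `F` is psd and
  `hf F β γ = levi w z (hv β Z z) (hv γ Z z)` (`hv_add`, `hv_smul`, `hv_lc`); `B` is symmetric (`Bf_symm12`, `Bf_symm23`)
  and conjugate linear; the vector `k ↦ hf F (e k) β` is `k ↦ - (DZ (XX w z (hv β Z z)))_k`, of the same norm as
  `DZ (XX w z (hv β Z z))`; and with `b = hv β Z z`, `c = hv γ Z z`, `d = hv δ Z z`:
  `Bf w b c d z = Bf w b d c z = third w z (XX w z b) d c` (`Bf_eq`) `= third W (Z z) (DZ XX) (DZ d) (DZ c)`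
  (`emb_third`, `levi_XX_left`), so by `csdP` (`emb_ker`) `‖B β γ δ‖ ≤ √K ‖DZ XX‖ ‖DZ c‖ √(levi w z d d).re`,
  `‖DZ c‖ ≤ 2 m P ‖γ‖`. Finally every `b` is `hv u Z z` (`hv_surj`).
* `bgd`: entries of the Gram matrix have norm `≤ H (2 m P)²` (`levi_cs`), `|det| ≤ r! c^r`.
-/

open scoped ContDiff ComplexConjugate Topology
open Complex

namespace Pool.Agent.NSK

open Pool.Agent.DTW Pool.Agent.SKF

variable {n m : ℕ} {w : E n → ℝ} {U : Set (E n)} {z : E n} {Z : E n → E m} {W : E m → ℝ}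
  {B : Set (E m)}

private noncomputable def BndN_hvL (hU : IsOpen U) (hZ : ContDiffOn ℂ ∞ Z U) (hz : z ∈ U) :
    E m →ₗ[ℂ] E n where
  toFun := fun u => hv u Z z
  map_add' := fun u u' => hv_add hU hZ hz u u'
  map_smul' := fun c u => hv_smul hU hZ hz c u

private theorem BndN_hv (hU : IsOpen U) (hZ : ContDiffOn ℂ ∞ Z U) (hz : z ∈ U) (β : E m) :
    hv β Z z = ∑ I, β I • hv (e I) Z z := by
  have h1 : β = ∑ I, β I • (e I : E m) := vec_eq_sum β
  have h2 := congrArg (BndN_hvL hU hZ hz) h1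
  rw [map_sum] at h2
  simp only [map_smul] at h2
  exact h2

private theorem BndN_left (b : E n) (v : Ix m → E n) (β : E m) :
    levi w z (∑ I, β I • v I) b = ∑ I, β I * levi w z (v I) b := by
  let l : E n →ₗ[ℂ] ℂ :=
    { toFun := fun a => levi w z a b
      map_add' := fun a a' => d10_add_vec _ _ _ _
      map_smul' := fun c a => d10_smul_vec _ _ _ _ }
  have h := map_sum l (fun I => β I • v I) Finset.univ
  simp only [map_smul] at h
  exact h

private theorem BndN_right (L : Loc w U) (hz : z ∈ U) (a : E n) (v : Ix m → E n) (γ : E m) :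
    levi w z a (∑ J, γ J • v J) = ∑ J, conj (γ J) * levi w z a (v J) := by
  rw [← levi_conj L hz, BndN_left, map_sum]
  refine Finset.sum_congr rfl fun J _ => ?_
  rw [map_mul, levi_conj L hz]

private theorem BndN_hf (h : Emb w U Z W B) (hz : z ∈ U) (β γ : E m) :
    hf (fun I J : Ix m => levi w z (hv (e I) Z z) (hv (e J) Z z)) β γ
      = levi w z (hv β Z z) (hv γ Z z) := by
  rw [BndN_hv h.loc.op h.hol hz β, BndN_hv h.loc.op h.hol hz γ, BndN_left]
  unfold hf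
  refine Finset.sum_congr rfl fun I _ => ?_
  rw [BndN_right h.loc hz, Finset.mul_sum]
  refine Finset.sum_congr rfl fun J _ => ?_
  ring

private theorem BndN_psd (h : Emb w U Z W B) (hz : z ∈ U) :
    Psd (fun I J : Ix m => levi w z (hv (e I) Z z) (hv (e J) Z z)) := by
  refine ⟨fun k l => levi_conj h.loc hz _ _, fun a => ?_⟩
  have h1 := BndN_hf h hz a a
  unfold hf at h1
  rw [h1]
  exact (levi_self h.loc hz _).2

private theorem BndN_e (I : Ix m) : ‖(e I : E m)‖ ≤ 1 := by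
  refine (pi_norm_le_iff_of_nonneg zero_le_one).2 fun J => ?_
  by_cases hIJ : J = I
  · subst hIJ
    simp [e]
  · simp [e, Pi.single_eq_of_ne hIJ]

private theorem BndN_comp (L : Loc w U) (hZ : ContDiffOn ℂ ∞ Z U) (hz : z ∈ U) (I : Ix m)
    (b : E n) : levi w z (hv (e I) Z z) b = -fderiv ℂ Z z (XX w z b) I := by
  rw [levi_hv L hZ hz, Finset.sum_eq_single I]
  · simp [e]
  · intro J _ hJ
    simp [e, Pi.single_eq_of_ne hJ]
  · intro h
    exact absurd (Finset.mem_univ _) h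

private theorem BndN_self (h : Emb w U Z W B) (hz : z ∈ U) {P H : ℝ} (hP : 0 ≤ P) (hH : 0 ≤ H)
    (hb : ∀ I J : Ix m, ‖bracket (fun y => Z y I) (fun y => Z y J) z‖ ≤ P)
    (hW : ∀ a : E m, (levi W (Z z) a a).re ≤ H * ‖a‖ ^ 2) (u : E m) (hu : ‖u‖ ≤ 1) :
    (levi w z (hv u Z z) (hv u Z z)).re ≤ H * (2 * m * P) ^ 2 := by
  rw [h.compat z hz]
  refine (hW _).trans ?_
  have h1 := norm_fderiv_hv h.loc.op h.hol hz hP hb u
  have h2 : 2 * m * P * ‖u‖ ≤ 2 * m * P := by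
    have h3 : 0 ≤ 2 * (m : ℝ) * P := by positivity
    calc 2 * m * P * ‖u‖ ≤ 2 * m * P * 1 := mul_le_mul_of_nonneg_left hu h3
      _ = 2 * m * P := mul_one _
  have h4 := h1.trans h2
  gcongr

theorem bndX (h : Emb w U Z W B) (hz : z ∈ U) {P H : ℝ} (hP : 0 ≤ P) (hH : 0 ≤ H)
    (hb : ∀ I J : Ix m, ‖bracket (fun y => Z y I) (fun y => Z y J) z‖ ≤ P)
    (hW : ∀ a : E m, (levi W (Z z) a a).re ≤ H * ‖a‖ ^ 2) (b : E n) :
    ‖fderiv ℂ Z z (XX w z b)‖ ^ 2 ≤ H * (2 * m * P) ^ 2 * (levi w z b b).re := by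
  have hbb := (levi_self h.loc hz b).2
  have hc : 0 ≤ H * (2 * m * P) ^ 2 * (levi w z b b).re := by positivity
  have h2 : ‖fderiv ℂ Z z (XX w z b)‖ ≤ √(H * (2 * m * P) ^ 2 * (levi w z b b).re) := by
    refine (pi_norm_le_iff_of_nonneg (Real.sqrt_nonneg _)).2 fun I => ?_
    have h3 := BndN_comp h.loc h.hol hz I b
    have h4 : ‖fderiv ℂ Z z (XX w z b) I‖ = ‖levi w z (hv (e I) Z z) b‖ := by
      rw [h3, norm_neg]
    rw [h4]
    refine Real.le_sqrt_of_sq_le ?_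
    rw [← Complex.normSq_eq_norm_sq]
    exact (levi_cs h.loc hz _ _).trans
      (mul_le_mul_of_nonneg_right (BndN_self h hz hP hH hb hW _ (BndN_e I)) hbb)
  calc ‖fderiv ℂ Z z (XX w z b)‖ ^ 2 ≤ √(H * (2 * m * P) ^ 2 * (levi w z b b).re) ^ 2 := by
        gcongr
    _ = _ := Real.sq_sqrt hc

theorem bndN (h : Emb w U Z W B) (hz : z ∈ U) {P K : ℝ} (hP : 0 ≤ P) (hK : 0 ≤ K)
    (hb : ∀ I J : Ix m, ‖bracket (fun y => Z y I) (fun y => Z y J) z‖ ≤ P)
    (h2 : ∀ u a : E m, |fderiv ℝ (fun y => fderiv ℝ (fun x => (levi W x a a).re) y u) (Z z) u|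
      ≤ K * ‖u‖ ^ 2 * ‖a‖ ^ 2)
    {Us : Ix n → E m} (hU : fz Z Us z ≠ 0) (b : E n) :
    Complex.normSq (Bf w b b b z)
      ≤ (√K * (2 * m * P)) ^ 2 * (2 * m) ^ 3 * (levi w z b b).re ^ 3 := by
  obtain ⟨β, rfl⟩ := hv_surj h.loc.op h.hol hz hU b
  have hadd := fun u u' => hv_add h.loc.op h.hol hz u u'
  have hsm := fun c u => hv_smul h.loc.op h.hol hz c u
  have hK' : 0 ≤ √K * (2 * m * P) := by positivity
  have hs := spc (BndN_psd h hz)
    (fun β γ δ : E m => Bf w (hv β Z z) (hv γ Z z) (hv δ Z z) z) (√K * (2 * m * P)) hK'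
    (fun b c d => Bf_symm12 h.loc hz _ _ _) (fun b c d => Bf_symm23 h.loc hz _ _ _)
    (fun b b' c d => by
      show Bf w (hv (b + b') Z z) (hv c Z z) (hv d Z z) z = _
      rw [hadd, Bf_add1 h.loc hz])
    (fun t b c d => by
      show Bf w (hv (t • b) Z z) (hv c Z z) (hv d Z z) z = _
      rw [hsm, Bf_smul1 h.loc hz]) ?_ β
  · rw [BndN_hf h hz] at hs
    exact hs
  · intro b c d
    rw [BndN_hf h hz]
    have h1 : ‖fun k : Ix m => hf (fun I J : Ix m => levi w z (hv (e I) Z z) (hv (e J) Z z))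
        (e k) b‖ = ‖fderiv ℂ Z z (XX w z (hv b Z z))‖ := by
      have h2 : (fun k : Ix m => hf (fun I J : Ix m => levi w z (hv (e I) Z z) (hv (e J) Z z))
          (e k) b) = -fderiv ℂ Z z (XX w z (hv b Z z)) := by
        funext k
        rw [BndN_hf h hz, BndN_comp h.loc h.hol hz]
        rfl
      rw [h2, norm_neg]
    rw [h1]
    show ‖Bf w (hv b Z z) (hv c Z z) (hv d Z z) z‖ ≤ _
    have hl : ∀ c, levi w z (XX w z (hv b Z z)) c = 0 := fun c => levi_XX_left h.loc hz _ c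
    rw [Bf_symm23 h.loc hz, Bf_eq h.loc hz, emb_third h hz hl]
    have h3 := csdP h.op h.sm h.nonneg (h.maps z hz) K hK h2
      (fderiv ℂ Z z (XX w z (hv b Z z))) (emb_ker h hz hl)
      (fderiv ℂ Z z (hv d Z z)) (fderiv ℂ Z z (hv c Z z))
    rw [← h.compat z hz] at h3
    refine h3.trans ?_
    have h4 := norm_fderiv_hv h.loc.op h.hol hz hP hb c
    calc √K * ‖fderiv ℂ Z z (XX w z (hv b Z z))‖ * ‖fderiv ℂ Z z (hv c Z z)‖
          * √(levi w z (hv d Z z) (hv d Z z)).re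
        ≤ √K * ‖fderiv ℂ Z z (XX w z (hv b Z z))‖ * (2 * m * P * ‖c‖)
          * √(levi w z (hv d Z z) (hv d Z z)).re := by gcongr
      _ = √K * (2 * m * P) * ‖fderiv ℂ Z z (XX w z (hv b Z z))‖ * ‖c‖
          * √(levi w z (hv d Z z) (hv d Z z)).re := by ring

theorem bgd (h : Emb w U Z W B) (hz : z ∈ U) {P H : ℝ} (hP : 0 ≤ P) (hH : 0 ≤ H)
    (hb : ∀ I J : Ix m, ‖bracket (fun y => Z y I) (fun y => Z y J) z‖ ≤ P)
    (hW : ∀ a : E m, (levi W (Z z) a a).re ≤ H * ‖a‖ ^ 2) {r : ℕ} (us : Fin r → E m)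
    (hu : ∀ j, ‖us j‖ ≤ 1) : gz w Z us z ≤ r.factorial * (H * (2 * m * P) ^ 2) ^ r := by
  have hc : 0 ≤ H * (2 * m * P) ^ 2 := by positivity
  have hent : ∀ i j, ‖gm w z (fun i => hv (us i) Z z) i j‖ ≤ H * (2 * m * P) ^ 2 := by
    intro i j
    have h1 := BndN_self h hz hP hH hb hW _ (hu i)
    have h2 := BndN_self h hz hP hH hb hW _ (hu j)
    have h3 := levi_cs h.loc hz (hv (us i) Z z) (hv (us j) Z z)
    rw [Complex.normSq_eq_norm_sq] at h3
    have h4 : ‖levi w z (hv (us i) Z z) (hv (us j) Z z)‖ ^ 2 ≤ (H * (2 * m * P) ^ 2) ^ 2 := by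
      refine h3.trans ?_
      rw [sq (H * (2 * m * P) ^ 2)]
      exact mul_le_mul h1 h2 (levi_self h.loc hz _).2 hc
    exact (sq_le_sq₀ (norm_nonneg _) hc).1 h4
  have hdet : ‖(gm w z (fun i => hv (us i) Z z)).det‖
      ≤ r.factorial * (H * (2 * m * P) ^ 2) ^ r := by
    have h5 := Matrix.det_le (A := gm w z (fun i => hv (us i) Z z))
      (abv := NormedField.toAbsoluteValue ℂ) (x := H * (2 * m * P) ^ 2) hent
    rw [Fintype.card_fin, nsmul_eq_mul] at h5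
    exact h5
  exact (Complex.re_le_norm _).trans hdet

end Pool.Agent.NSK
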