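import Pool.Agent.NSK.Defs

/-!
BoxE (size 4): a finite cover by boxes. For `x0 : X` let `k` with `x0 ∈ V k` (`cover`), `K` a compact
neighbourhood of `x0` contained in `V k` (`X` compact Hausdorff, hence locally compact:
`exists_compact_subset` or `local_compact_nhds`). The set `K ∖ interior K` is compact and its image under `ζ k`
is compact and does not contain `y0 = ζ k x0` (`inj`, `x0 ∈ interior K`). Let `ρ > 0` be such that
`Metric.ball y0 ρ` is disjoint from it (`IsCompact.isClosed`), `ϑ : E m → ℝ` smooth with values in `[0,1]`,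
support in `ball y0 ρ` with compact closure, `ϑ = 1` on `ball y0 (ρ/4)` (`ContDiffBump y0` with `rIn = ρ/4`,
`rOut = ρ/2`; `E m` is finite dimensional, `HasContDiffBump`). The set `{x ∈ interior K | ζ k x ∈ ball y0 (ρ/4)}` is
a neighbourhood of `x0`; by compactness finitely many cover `X` (`CompactSpace.elim_nhds_subcover`); number
them by `Fin N`.
-/

open scoped ContDiff ComplexConjugate Topology
open Complex

namespace Pool.Agent.NSK

open Pool.Agent.DTW Pool.Agent.SKF

variable {n m : ℕ} {X : Type*} [TopologicalSpace X] {ι κ : Type*}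

private theorem BoxE_one [CompactSpace X] [T2Space X] (A : Space n m X ι κ) (x0 : X) :
    ∃ b : Box A, {x | x ∈ interior b.K ∧ b.ϑ (A.ζ b.k x) = 1} ∈ 𝓝 x0 := by
  obtain ⟨k, hk⟩ := A.cover x0
  obtain ⟨K, hK, hx0, hKV⟩ := exists_compact_subset (A.isOpen k) hk
  -- the compact boundary part
  have hcB : IsCompact (K \ interior K) := hK.diff isOpen_interior
  have hcont : ContinuousOn (A.ζ k) K := (A.cont k).mono hKV
  have hcI : IsCompact (A.ζ k '' (K \ interior K)) :=
    hcB.image_of_continuousOn (hcont.mono Set.sdiff_subset)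
  have hnot : A.ζ k x0 ∉ A.ζ k '' (K \ interior K) := by
    rintro ⟨x, hx, hxe⟩
    have hxx : x = x0 := A.inj k (hKV hx.1) hk hxe
    exact hx.2 (hxx ▸ hx0)
  have hopen : IsOpen (A.ζ k '' (K \ interior K))ᶜ := hcI.isClosed.isOpen_compl
  obtain ⟨ρ, hρ, hball⟩ := Metric.isOpen_iff.1 hopen (A.ζ k x0) hnot
  let f : ContDiffBump (A.ζ k x0) :=
    { rIn := ρ / 4, rOut := ρ / 2, rIn_pos := by positivity, rIn_lt_rOut := by linarith }
  refine ⟨{ k := k, K := K, ϑ := f, comp := hK, sub := hKV, smooth := f.contDiff,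
            nonneg := fun y => f.nonneg, le_one := fun y => f.le_one,
            supp := f.hasCompactSupport, zero := ?_ }, ?_⟩
  · intro x hx hxi
    apply f.zero_of_le_dist
    by_contra hlt
    push Not at hlt
    have h1 : A.ζ k x ∈ Metric.ball (A.ζ k x0) ρ := by
      rw [Metric.mem_ball]
      have : f.rOut = ρ / 2 := rfl
      linarith
    exact hball h1 ⟨x, ⟨hx, hxi⟩, rfl⟩
  · have h1 : interior K ∈ 𝓝 x0 := isOpen_interior.mem_nhds hx0
    have hca : ContinuousAt (A.ζ k) x0 :=
      (A.cont k).continuousAt ((A.isOpen k).mem_nhds hk)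
    have h2 : A.ζ k ⁻¹' (Metric.ball (A.ζ k x0) (ρ / 4)) ∈ 𝓝 x0 :=
      hca.preimage_mem_nhds (Metric.ball_mem_nhds _ (by positivity))
    filter_upwards [h1, h2] with x hx1 hx2
    refine ⟨hx1, ?_⟩
    apply f.one_of_mem_closedBall
    exact Metric.ball_subset_closedBall hx2

theorem ex_boxes [CompactSpace X] [T2Space X] (A : Space n m X ι κ) :
    ∃ (N : ℕ) (b : Fin N → Box A), ∀ x : X, ∃ q, x ∈ interior (b q).K ∧
      (b q).ϑ (A.ζ (b q).k x) = 1 := by
  choose b hb using fun x0 => BoxE_one A x0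
  obtain ⟨t, ht⟩ := CompactSpace.elim_nhds_subcover
    (fun x0 => {x | x ∈ interior (b x0).K ∧ (b x0).ϑ (A.ζ (b x0).k x) = 1}) hb
  refine ⟨t.card, fun q => b (t.equivFin.symm q).1, ?_⟩
  intro x
  have hx : x ∈ (⊤ : Set X) := trivial
  rw [← ht] at hx
  rw [Set.mem_iUnion₂] at hx
  obtain ⟨x0, hx0, hx1⟩ := hx
  refine ⟨t.equivFin ⟨x0, hx0⟩, ?_⟩
  simpa using hx1

end Pool.Agent.NSK
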