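import Pool.Agent.NSK.Defs

/-!
EmbO (size 3): the local situations of a form on a space.
* `D_open`: `(A.c i).target` is open, `(A.c i).symm` continuous on it, `A.V k` open.
* `loc_of`: `psd` by `psd_of_levi` (DTW.Main): for `z` in the target take `k` with `(A.c i).symm z ∈ V k` (`cover`);
  `compat` and `nonneg`. `iso`: `iso_of_QQ` (DTW.Alg) and `qDens (w i) z = 0`, where
  `qDens w z = (QQ (LM w z) (LM w z)).re` (see `iso_all` in DTW.Main, `hq1`: definitional).
* `emb_of`: restrict `loc_of` to `A.D k i ⊆ (A.c i).target`; the rest are the fields of `Form`, `Space`.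
* `box_D`: points of a box.
-/

open scoped ContDiff ComplexConjugate Topology
open Complex

namespace Pool.Agent.NSK

open Pool.Agent.DTW Pool.Agent.SKF

variable {n m : ℕ} {X : Type*} [TopologicalSpace X] {ι κ : Type*} {A : Space n m X ι κ}

theorem D_open (A : Space n m X ι κ) (k : κ) (i : ι) : IsOpen (A.D k i) :=
  (A.c i).isOpen_inter_preimage_symm (A.isOpen k)

theorem loc_of (η : Form A) (i : ι) : Loc (η.w i) (A.c i).target := by
  have hpsd : ∀ z ∈ (A.c i).target, Psd (LM (η.w i) z) := by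
    intro z hz
    obtain ⟨k, hk⟩ := A.cover ((A.c i).symm z)
    refine psd_of_levi (A.c i).open_target (η.smooth i) hz fun a => ?_
    rw [η.compat k i z hz hk a a]
    exact η.nonneg k _ (η.maps k _ hk) _
  exact ⟨(A.c i).open_target, η.smooth i, hpsd,
    fun z hz => iso_of_QQ (hpsd z hz) (η.null i z hz)⟩

theorem emb_of (η : Form A) (k : κ) (i : ι) :
    Emb (η.w i) (A.D k i) (A.Z k i) (η.W k) (η.B k) := by
  have hL := loc_of η i
  refine ⟨⟨D_open A k i, hL.sm.mono fun z hz => hz.1, fun z hz => hL.psd z hz.1,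
    fun z hz => hL.iso z hz.1⟩, A.holo k i, η.open_B k, η.smooth_W k,
    fun y hy => η.maps k _ hy.2, η.nonneg k, fun z hz a b => η.compat k i z hz.1 hz.2 a b⟩

theorem box_D (b : Box A) {i : ι} {z : E n} (hz : z ∈ (A.c i).target)
    (hK : (A.c i).symm z ∈ b.K) : z ∈ A.D b.k i :=
  ⟨hz, b.sub hK⟩

end Pool.Agent.NSK
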