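import Pool.Agent.NSK.EmbO
import Pool.Agent.NSK.CsdP

/-!
Unif (size 3): uniform constants on a box. `b.K` is compact, contained in `V k`, `ζ k` is continuous on it, so
`ζ k '' b.K` is a compact subset of `B k`: `bndHP`, `bndKP`. The brackets: for every `x ∈ b.K` the field
`brackets` gives an open set `O ∋ x` and a bound; finitely many `O` cover `b.K`
(`IsCompact.elim_nhds_subcover` or induction `IsCompact.induction_on`).
-/

open scoped ContDiff ComplexConjugate Topology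
open Complex

namespace Pool.Agent.NSK

open Pool.Agent.DTW Pool.Agent.SKF

variable {n m : ℕ} {X : Type*} [TopologicalSpace X] {ι κ : Type*} {A : Space n m X ι κ}

theorem unif_P (b : Box A) : ∃ P : ℝ, 0 ≤ P ∧ ∀ i z, z ∈ (A.c i).target →
    (A.c i).symm z ∈ b.K → ∀ I J : Ix m,
      ‖bracket (fun y => A.Z b.k i y I) (fun y => A.Z b.k i y J) z‖ ≤ P := by
  refine b.comp.induction_on (p := fun s => ∃ P : ℝ, 0 ≤ P ∧ ∀ i z, z ∈ (A.c i).target →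
    (A.c i).symm z ∈ s → ∀ I J : Ix m,
      ‖bracket (fun y => A.Z b.k i y I) (fun y => A.Z b.k i y J) z‖ ≤ P) ?_ ?_ ?_ ?_
  · exact ⟨0, le_rfl, fun i z _ h => absurd h (Set.notMem_empty _)⟩
  · rintro s t hst ⟨P, hP, h⟩
    exact ⟨P, hP, fun i z hz hs => h i z hz (hst hs)⟩
  · rintro s t ⟨P, hP, h⟩ ⟨P', hP', h'⟩
    refine ⟨P + P', add_nonneg hP hP', fun i z hz hs I J => ?_⟩
    rcases hs with hs | hs
    · exact (h i z hz hs I J).trans (by linarith)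
    · exact (h' i z hz hs I J).trans (by linarith)
  · intro x hx
    obtain ⟨O, C, hO, hxO, hC⟩ := A.brackets b.k x (b.sub hx)
    refine ⟨O, mem_nhdsWithin_of_mem_nhds (hO.mem_nhds hxO), |C|, abs_nonneg _, ?_⟩
    intro i z hz hs I J
    exact (hC i z hz hs I J).trans (le_abs_self C)

private theorem Unif_cpt (η : Form A) (b : Box A) :
    IsCompact (A.ζ b.k '' b.K) ∧ A.ζ b.k '' b.K ⊆ η.B b.k := by
  refine ⟨b.comp.image_of_continuousOn ((A.cont b.k).mono b.sub), ?_⟩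
  rintro _ ⟨x, hx, rfl⟩
  exact η.maps b.k x (b.sub hx)

theorem unif_H (η : Form A) (b : Box A) : ∃ H : ℝ, 0 ≤ H ∧ ∀ x ∈ b.K, ∀ a : E m,
    (levi (η.W b.k) (A.ζ b.k x) a a).re ≤ H * ‖a‖ ^ 2 := by
  obtain ⟨h1, h2⟩ := Unif_cpt η b
  obtain ⟨H, hH, h⟩ := bndHP (η.open_B b.k) (η.smooth_W b.k) h1 h2
  exact ⟨H, hH, fun x hx a => h _ ⟨x, hx, rfl⟩ a⟩

theorem unif_K (η : Form A) (b : Box A) : ∃ K : ℝ, 0 ≤ K ∧ ∀ x ∈ b.K, ∀ u a : E m,
    |fderiv ℝ (fun y => fderiv ℝ (fun x => (levi (η.W b.k) x a a).re) y u) (A.ζ b.k x) u|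
      ≤ K * ‖u‖ ^ 2 * ‖a‖ ^ 2 := by
  obtain ⟨h1, h2⟩ := Unif_cpt η b
  obtain ⟨K, hK, h⟩ := bndKP (η.open_B b.k) (η.smooth_W b.k) h1 h2
  exact ⟨K, hK, fun x hx u a => h _ ⟨x, hx, rfl⟩ u a⟩

end Pool.Agent.NSK
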