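import Pool.Agent.NSK.InvN
import Pool.Agent.NSK.EmbO

/-!
InvG (size 4): invariance of the configurations under a change of Darboux chart.
Let `x = (A.c i).symm z ∈ (A.c j).source ∩ V b.k`, `φ = A.c j ∘ (A.c i).symm`, `z' = φ z`, and
`U = {y ∈ A.D b.k i | (A.c i).symm y ∈ (A.c j).source}`, `U' = A.D b.k j`.
* `chg_of`: `Chg (η.w i) (η.w j) U U' φ`: `lev` from `compat` for `i` and `j` with the same `k = b.k`:
  `A.Z k i = A.Z k j ∘ φ` on `U`, so `fderiv ℂ (A.Z k i) y = fderiv ℂ (A.Z k j) (φ y) ∘ fderiv ℂ φ y`.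
* `inv_wei`: `A.Z b.k i z = A.Z b.k j z'`, `chg_gz`, `chg_fz`.
* `inv_val`: `fderiv ℂ φ z (lc t fun l => hv (us l) (A.Z b.k i) z) = lc t fun l => hv (us l) (A.Z b.k j) z'` (`chg_hv`),
  `chg_Af`. `inv_cfg`: all fields.
-/

open scoped ContDiff ComplexConjugate Topology
open Complex

namespace Pool.Agent.NSK

open Pool.Agent.DTW Pool.Agent.SKF

variable {n m : ℕ} {X : Type*} [TopologicalSpace X] {ι κ : Type*} {A : Space n m X ι κ}

theorem Z_chg (A : Space n m X ι κ) (k : κ) (i j : ι) {y : E n} (hy : y ∈ A.D k i)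
    (hj : (A.c i).symm y ∈ (A.c j).source) :
    A.Z k i y = A.Z k j ((A.c j ∘ (A.c i).symm) y) := by
  change A.ζ k ((A.c i).symm y) = A.ζ k ((A.c j).symm ((A.c j) ((A.c i).symm y)))
  rw [(A.c j).left_inv hj]

private theorem InvG_open (A : Space n m X ι κ) (k : κ) (i j : ι) :
    IsOpen {y | y ∈ A.D k i ∧ (A.c i).symm y ∈ (A.c j).source} := by
  have h := (A.c i).isOpen_inter_preimage_symm ((A.isOpen k).inter (A.c j).open_source)
  have he : {y | y ∈ A.D k i ∧ (A.c i).symm y ∈ (A.c j).source} =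
      (A.c i).target ∩ (A.c i).symm ⁻¹' (A.V k ∩ (A.c j).source) := by
    ext y
    constructor
    · rintro ⟨⟨h1, h2⟩, h3⟩
      exact ⟨h1, h2, h3⟩
    · rintro ⟨h1, h2, h3⟩
      exact ⟨⟨h1, h2⟩, h3⟩
  rw [he]
  exact h

private theorem InvG_maps (A : Space n m X ι κ) (k : κ) (i j : ι) {y : E n} (hy : y ∈ A.D k i)
    (hj : (A.c i).symm y ∈ (A.c j).source) : (A.c j ∘ (A.c i).symm) y ∈ A.D k j := by
  refine ⟨(A.c j).map_source hj, ?_⟩
  change (A.c j).symm ((A.c j) ((A.c i).symm y)) ∈ A.V k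
  rw [(A.c j).left_inv hj]
  exact hy.2

theorem chg_of (η : Form A) (k : κ) (i j : ι) :
    Chg (η.w i) (η.w j) {y | y ∈ A.D k i ∧ (A.c i).symm y ∈ (A.c j).source} (A.D k j)
      (A.c j ∘ (A.c i).symm) := by
  have hl := loc_of η i
  have hop := InvG_open A k i j
  have hhol : ContDiffOn ℂ ∞ (A.c j ∘ (A.c i).symm)
      {y | y ∈ A.D k i ∧ (A.c i).symm y ∈ (A.c j).source} :=
    (A.hol i j).mono fun y hy => ⟨hy.1.1, hy.2⟩
  refine ⟨⟨hop, hl.sm.mono fun y hy => hy.1.1, fun y hy => hl.psd y hy.1.1,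
    fun y hy => hl.iso y hy.1.1⟩, (emb_of η k j).loc, hhol,
    fun y hy => InvG_maps A k i j hy.1 hy.2, fun y hy a b => A.symp i j y hy.1.1 hy.2 a b, ?_⟩
  intro y hy a b
  have hm := InvG_maps A k i j hy.1 hy.2
  have h1 := η.compat k i y hy.1.1 hy.1.2 a b
  have h2 := η.compat k j _ hm.1 hm.2 (fderiv ℂ (A.c j ∘ (A.c i).symm) y a)
    (fderiv ℂ (A.c j ∘ (A.c i).symm) y b)
  have hφ : DifferentiableAt ℂ (A.c j ∘ (A.c i).symm) y :=
    (hhol.contDiffAt (hop.mem_nhds hy)).differentiableAt (by simp)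
  have hZ : DifferentiableAt ℂ (A.ζ k ∘ (A.c j).symm) ((A.c j ∘ (A.c i).symm) y) :=
    ((A.holo k j).contDiffAt ((D_open A k j).mem_nhds hm)).differentiableAt (by simp)
  have hev : (A.ζ k ∘ (A.c i).symm) =ᶠ[𝓝 y]
      (A.ζ k ∘ (A.c j).symm) ∘ (A.c j ∘ (A.c i).symm) := by
    filter_upwards [hop.mem_nhds hy] with y' hy'
    exact Z_chg A k i j hy'.1 hy'.2
  have hfd : fderiv ℂ (A.ζ k ∘ (A.c i).symm) y =
      (fderiv ℂ (A.ζ k ∘ (A.c j).symm) ((A.c j ∘ (A.c i).symm) y)).comp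
        (fderiv ℂ (A.c j ∘ (A.c i).symm) y) := by
    rw [hev.fderiv_eq]
    exact fderiv_comp y hZ hφ
  have hpt : A.ζ k ((A.c j).symm ((A.c j ∘ (A.c i).symm) y)) = A.ζ k ((A.c i).symm y) :=
    (Z_chg A k i j hy.1 hy.2).symm
  rw [h1, h2, hpt, hfd]
  rfl

theorem inv_wei (η : Form A) (b : Box A) {i j : ι} {z : E n} (hz : z ∈ A.D b.k i)
    (hj : (A.c i).symm z ∈ (A.c j).source) {r : ℕ} (us : Fin r → E m) (Us : Ix n → E m) :
    wei η b i z us Us = wei η b j (A.c j ((A.c i).symm z)) us Us := by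
  have h := chg_of η b.k i j
  have hZ : ∀ y ∈ {y | y ∈ A.D b.k i ∧ (A.c i).symm y ∈ (A.c j).source},
      A.Z b.k i y = A.Z b.k j ((A.c j ∘ (A.c i).symm) y) := fun y hy => Z_chg A b.k i j hy.1 hy.2
  have hZ' : ContDiffOn ℂ ∞ (A.Z b.k j) (A.D b.k j) := A.holo b.k j
  have h1 := chg_gz h hZ' hZ (z := z) ⟨hz, hj⟩ us
  have h2 := chg_fz h hZ' hZ (z := z) ⟨hz, hj⟩ Us
  have h3 := Z_chg A b.k i j hz hj
  unfold wei
  rw [h1, h2, h3]
  rfl

theorem inv_val (η : Form A) (b : Box A) {i j : ι} {z : E n} (hz : z ∈ A.D b.k i)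
    (hj : (A.c i).symm z ∈ (A.c j).source) (ε : ℝ) {r : ℕ} (us : Fin r → E m)
    (Us : Ix n → E m) (t : Fin r → ℂ) :
    val η b ε i z us Us t = val η b ε j (A.c j ((A.c i).symm z)) us Us t := by
  have h := chg_of η b.k i j
  have hZ : ∀ y ∈ {y | y ∈ A.D b.k i ∧ (A.c i).symm y ∈ (A.c j).source},
      A.Z b.k i y = A.Z b.k j ((A.c j ∘ (A.c i).symm) y) := fun y hy => Z_chg A b.k i j hy.1 hy.2
  have hZ' : ContDiffOn ℂ ∞ (A.Z b.k j) (A.D b.k j) := A.holo b.k j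
  have h1 := inv_wei η b hz hj us Us
  have h2 := chg_Af h (z := z) ⟨hz, hj⟩ (lc t fun l => hv (us l) (A.Z b.k i) z)
  have h3 : fderiv ℂ (A.c j ∘ (A.c i).symm) z (lc t fun l => hv (us l) (A.Z b.k i) z) =
      lc t fun l => hv (us l) (A.Z b.k j) ((A.c j ∘ (A.c i).symm) z) := by
    unfold lc
    rw [map_sum]
    refine Finset.sum_congr rfl fun l _ => ?_
    rw [map_smul, chg_hv h hZ' hZ (z := z) ⟨hz, hj⟩ (us l)]
  unfold val
  rw [h1, h2, h3]
  rfl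

theorem inv_cfg (η : Form A) (b : Box A) {i j : ι} {z : E n} {r : ℕ} {us : Fin r → E m}
    {Us : Ix n → E m} {t : Fin r → ℂ} (h : Cfg η b i z us Us t)
    (hj : (A.c i).symm z ∈ (A.c j).source) :
    Cfg η b j (A.c j ((A.c i).symm z)) us Us t := by
  have hz : z ∈ A.D b.k i := box_D b h.mem h.memK
  refine ⟨(A.c j).map_source hj, ?_, h.us_le, h.Us_le, h.t_ne, ?_⟩
  · rw [(A.c j).left_inv hj]
    exact h.memK
  · rw [← inv_wei η b hz hj]
    exact h.pos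

end Pool.Agent.NSK
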