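import Pool.Agent.SKF.Res

/-!
Definitions: compact normal complex spaces with a holomorphic symplectic form on the regular part,
given by Darboux charts of the regular part and local embeddings into `ℂ^(2m)`, and smooth closed
semipositive (1,1)-forms `η` with `η² ∧ (σ σ̄)^(n-1) = 0`.
-/

open scoped ContDiff ComplexConjugate Topology
open Complex

namespace Pool.Agent.NSK

open Pool.Agent.DTW Pool.Agent.SKF

variable {n m : ℕ}

/-- The determinant of the differentials of the `2n` functions `f p` at `z`. -/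
noncomputable def minor (f : Ix n → E n → ℂ) (z : E n) : ℂ :=
  (Matrix.of fun p q : Ix n => d10 (f p) z (e q)).det

/-- The holomorphic Poisson bracket of `f` and `g` at `z`. -/
noncomputable def bracket (f g : E n → ℂ) (z : E n) : ℂ :=
  ∑ k : Ix n, sg k * d10 f z (e k.swap) * d10 g z (e k)

/-- A normal complex space `X` of dimension `2n` with a holomorphic symplectic form on its regular
part: holomorphic Darboux charts `c i` of the regular part, and an open cover by sets `V k` with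
local embeddings `ζ k : V k → ℂ^(2m)`. In a normal space the Poisson brackets of the coordinates
of an embedding extend to the singular points, so they are locally bounded, and the minors of the
differential of an embedding in Darboux charts tend to `0` at the singular points. -/
structure Space (n m : ℕ) (X : Type*) [TopologicalSpace X] (ι κ : Type*) where
  /-- Darboux charts of the regular part -/
  c : ι → OpenPartialHomeomorph X (E n)
  hol : ∀ i j, ContDiffOn ℂ ∞ (c j ∘ (c i).symm)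
    {z | z ∈ (c i).target ∧ (c i).symm z ∈ (c j).source}
  symp : ∀ i j z, z ∈ (c i).target → (c i).symm z ∈ (c j).source → ∀ a b : E n,
    S (fderiv ℂ (c j ∘ (c i).symm) z a) (fderiv ℂ (c j ∘ (c i).symm) z b) = S a b
  /-- open cover -/
  V : κ → Set X
  isOpen : ∀ k, IsOpen (V k)
  cover : ∀ x : X, ∃ k, x ∈ V k
  /-- local embeddings -/
  ζ : κ → X → E m
  cont : ∀ k, ContinuousOn (ζ k) (V k)
  inj : ∀ k, Set.InjOn (ζ k) (V k)
  holo : ∀ k i, ContDiffOn ℂ ∞ (ζ k ∘ (c i).symm) {z | z ∈ (c i).target ∧ (c i).symm z ∈ V k}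
  immersion : ∀ k i z, z ∈ (c i).target → (c i).symm z ∈ V k →
    ∃ J : Ix n → Ix m, minor (fun p y => ζ k ((c i).symm y) (J p)) z ≠ 0
  glue : ∀ k l x, x ∈ V k → x ∈ V l → ∃ (O : Set X) (O' : Set (E m)) (G : E m → E m), IsOpen O ∧
    x ∈ O ∧ IsOpen O' ∧ ContDiffOn ℂ ∞ G O' ∧ ∀ y ∈ O, ζ k y ∈ O' ∧ ζ l y = G (ζ k y)
  brackets : ∀ k x, x ∈ V k → ∃ (O : Set X) (C : ℝ), IsOpen O ∧ x ∈ O ∧
    ∀ i z, z ∈ (c i).target → (c i).symm z ∈ O → ∀ I J : Ix m,
      ‖bracket (fun y => ζ k ((c i).symm y) I) (fun y => ζ k ((c i).symm y) J) z‖ ≤ C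
  minors : ∀ k x, x ∈ V k → (∀ i, x ∉ (c i).source) → ∀ ε : ℝ, 0 < ε →
    ∃ O : Set X, IsOpen O ∧ x ∈ O ∧ ∀ i z, z ∈ (c i).target → (c i).symm z ∈ O →
      ∀ J : Ix n → Ix m, ‖minor (fun p y => ζ k ((c i).symm y) (J p)) z‖ ≤ ε

variable {X : Type*} [TopologicalSpace X] {ι κ : Type*}

/-- A smooth closed semipositive (1,1)-form `η` on `X` with `η² ∧ (σ σ̄)^(n-1) = 0`: `η = i∂∂̄ (w i)`
in the Darboux chart `i`, and `η = i∂∂̄ (W k ∘ ζ k)` on `V k` with a smooth plurisubharmonic
function `W k` on an open subset `B k` of `ℂ^(2m)`. -/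
structure Form (A : Space n m X ι κ) where
  /-- potentials in the Darboux charts -/
  w : ι → E n → ℝ
  smooth : ∀ i, ContDiffOn ℝ ∞ (w i) (A.c i).target
  /-- domains of the ambient potentials -/
  B : κ → Set (E m)
  /-- ambient potentials -/
  W : κ → E m → ℝ
  open_B : ∀ k, IsOpen (B k)
  maps : ∀ k, ∀ x ∈ A.V k, A.ζ k x ∈ B k
  smooth_W : ∀ k, ContDiffOn ℝ ∞ (W k) (B k)
  nonneg : ∀ k, ∀ y ∈ B k, ∀ a : E m, 0 ≤ (levi (W k) y a a).re
  compat : ∀ k i z, z ∈ (A.c i).target → (A.c i).symm z ∈ A.V k → ∀ a b : E n,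
    levi (w i) z a b = levi (W k) (A.ζ k ((A.c i).symm z))
      (fderiv ℂ (A.ζ k ∘ (A.c i).symm) z a) (fderiv ℂ (A.ζ k ∘ (A.c i).symm) z b)
  null : ∀ i, ∀ z ∈ (A.c i).target, qDens (w i) z = 0

/-! Auxiliary notions for the proof. -/

/-- the function `∑ u_I Z_I` -/
noncomputable def pu (u : E m) (Z : E n → E m) (y : E n) : ℂ := ∑ I, u I * Z y I

/-- the Hamiltonian vector field of `pu u Z` -/
noncomputable def hv (u : E m) (Z : E n → E m) (y : E n) : E n := fun p =>
  sg p * d10 (pu u Z) y (e p.swap)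

/-- Gram determinant of the Hamiltonian vector fields -/
noncomputable def gz {r : ℕ} (w : E n → ℝ) (Z : E n → E m) (us : Fin r → E m) (y : E n) : ℝ :=
  gd w y fun i => hv (us i) Z y

/-- determinant of the differentials of `2n` linear combinations of the coordinates -/
noncomputable def fz (Z : E n → E m) (Us : Ix n → E m) (y : E n) : ℂ :=
  minor (fun p => pu (Us p) Z) y

/-- the embedding `k` in the Darboux chart `i` -/
noncomputable def Space.Z (A : Space n m X ι κ) (k : κ) (i : ι) : E n → E m :=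
  A.ζ k ∘ (A.c i).symm

/-- its domain -/
def Space.D (A : Space n m X ι κ) (k : κ) (i : ι) : Set (E n) :=
  {z | z ∈ (A.c i).target ∧ (A.c i).symm z ∈ A.V k}

/-- the regular part -/
def Space.reg (A : Space n m X ι κ) : Set X := {x | ∃ i, x ∈ (A.c i).source}

/-- local situation: `w` on `U ⊆ ℂ^(2n)` is, up to pluriharmonic functions, the pull-back of the
smooth psh function `W` on `B ⊆ ℂ^(2m)` by the holomorphic map `Z` -/
structure Emb (w : E n → ℝ) (U : Set (E n)) (Z : E n → E m) (W : E m → ℝ) (B : Set (E m)) :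
    Prop where
  loc : Loc w U
  hol : ContDiffOn ℂ ∞ Z U
  op : IsOpen B
  sm : ContDiffOn ℝ ∞ W B
  maps : ∀ y ∈ U, Z y ∈ B
  nonneg : ∀ y ∈ B, ∀ a : E m, 0 ≤ (levi W y a a).re
  compat : ∀ z ∈ U, ∀ a b : E n,
    levi w z a b = levi W (Z z) (fderiv ℂ Z z a) (fderiv ℂ Z z b)

/-- a box: a compact subset `K` of `V k` and a cut-off function `ϑ ∘ ζ k` on `K` -/
structure Box (A : Space n m X ι κ) where
  k : κ
  K : Set X
  ϑ : E m → ℝ
  comp : IsCompact K
  sub : K ⊆ A.V k
  smooth : ContDiff ℝ ∞ ϑ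
  nonneg : ∀ y, 0 ≤ ϑ y
  le_one : ∀ y, ϑ y ≤ 1
  supp : HasCompactSupport ϑ
  zero : ∀ x ∈ K, x ∉ interior K → ϑ (A.ζ k x) = 0

variable {A : Space n m X ι κ}

/-- the weight of a configuration -/
noncomputable def wei (η : Form A) (b : Box A) {r : ℕ} (i : ι) (z : E n) (us : Fin r → E m)
    (Us : Ix n → E m) : ℝ :=
  b.ϑ (A.Z b.k i z) * gz (η.w i) (A.Z b.k i) us z * Complex.normSq (fz (A.Z b.k i) Us z)

/-- the value of a configuration -/
noncomputable def val (η : Form A) (b : Box A) (ε : ℝ) {r : ℕ} (i : ι) (z : E n)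
    (us : Fin r → E m) (Us : Ix n → E m) (t : Fin r → ℂ) : ℝ :=
  Af (η.w i) z (lc t fun j => hv (us j) (A.Z b.k i) z) * wei η b i z us Us ^ ε

/-- configurations: points of the box with `‖us‖, ‖Us‖ ≤ 1`, `t ≠ 0`, positive weight -/
structure Cfg (η : Form A) (b : Box A) {r : ℕ} (i : ι) (z : E n)
    (us : Fin r → E m) (Us : Ix n → E m) (t : Fin r → ℂ) : Prop where
  mem : z ∈ (A.c i).target
  memK : (A.c i).symm z ∈ b.K
  us_le : ∀ j, ‖us j‖ ≤ 1
  Us_le : ∀ p, ‖Us p‖ ≤ 1
  t_ne : t ≠ 0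
  pos : 0 < wei η b i z us Us

end Pool.Agent.NSK
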