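import Pool.Agent.NSK.FinN

/-!
Assembly.
-/

open scoped ContDiff ComplexConjugate Topology
open Complex

namespace Pool.Agent.NSK

open Pool.Agent.DTW Pool.Agent.SKF

variable {n m : ℕ} {X : Type*} [TopologicalSpace X] {ι κ : Type*} {A : Space n m X ι κ}

theorem cubicN [CompactSpace X] [T2Space X] (η : Form A) (i : ι) (z : E n)
    (hz : z ∈ (A.c i).target) (a b : E n) (hab : ∀ a', S a a' = levi (η.w i) z a' b)
    (c d : E n) : d01 (fun y => levi (η.w i) y a c) z d = 0 := by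
  have L := loc_of η i
  have hw : ContDiffAt ℝ ∞ (η.w i) z := L.sm.contDiffAt (L.op.mem_nhds hz)
  have h1 : a = XX (η.w i) z b := by
    apply S_left_inj
    intro a'
    have h2 := S_XX hw 1 b a'
    rw [one_smul, one_mul] at h2
    rw [hab, h2]
  have h3 := fin_BfN η i z hz b c d
  rw [Bf_eq L hz, ← h1] at h3
  exact h3

theorem foliationN [CompactSpace X] [T2Space X] (η : Form A) (i : ι) (z : E n)
    (hz : z ∈ (A.c i).target) (hr : Module.finrank ℂ (kerL (η.w i) z) = n) :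
    ∃ V : Set (E n), IsOpen V ∧ z ∈ V ∧ V ⊆ (A.c i).target ∧ ∃ a : Fin n → E n → E n,
      (∀ k, DifferentiableOn ℂ (a k) V) ∧ ∀ y ∈ V,
        LinearIndependent ℂ (fun k => a k y) ∧
        Submodule.span ℂ (Set.range fun k => a k y) = kerL (η.w i) y ∧
        (∀ k l, S (a k y) (a l y) = 0) ∧
        ∀ k l, fderiv ℂ (a k) y (a l y) - fderiv ℂ (a l) y (a k y) ∈ kerL (η.w i) y := by
  have L := loc_of η i
  obtain ⟨V, hV, hzV, hVU, a, ha, h⟩ := frm L (fin_BfN η i) hz hr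
  have hk : ∀ k, ∀ y ∈ V, a k y ∈ kerL (η.w i) y := by
    intro k y hy
    rw [← (h y hy).2.1]
    exact Submodule.subset_span ⟨k, rfl⟩
  refine ⟨V, hV, hzV, hVU, a, ha, fun y hy => ⟨(h y hy).1, (h y hy).2.1, fun k l => ?_,
    fun k l => ?_⟩⟩
  · exact lag L (hVU hy) (h y hy).2.2 (hk k y hy) (hk l y hy)
  · exact ivl L hV hVU (a k) (a l) (ha k) (ha l) (hk k) (hk l) hy

end Pool.Agent.NSK
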