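import Pool.Agent.NSK.Defs

/-!
HmA (size 4): the functions `pu u Z = ∑ u_I Z_I` and their Hamiltonian vector fields `hv u Z`.
`Z : E n → E m` is holomorphic on the open set `U`. Tools: `d10_of_diff` (DTW.Comm: for complex
differentiable `f`, `d10 f z a = fderiv ℂ f z a`), `S_eq`, `sg_sq`, `sg_swap`, `sum_swap` (DTW.Alg),
`XX_apply` (SKF.LvA: `XX w z b k = sg k * levi w z (e k.swap) b`), `vec_eq_sum`, `d10_eq_sum`.
* `levi_hv`: `∑_I u_I (DZ (XX w z b))_I = d10 (pu u Z) z (XX w z b) = ∑_k XX_k ∂_k (pu u Z)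
  = ∑_k sg k levi w z (e k') b ∂_k (pu u Z)`, and `hv u Z z = ∑_p sg p ∂_p' (pu u Z) e_p`; reindex `p = k'`.
* `hv_surj`: `fz Z Us z ≠ 0`: the matrix `M p q = d10 (pu (Us p) Z) z (e q)` is invertible; given `b` solve
  `∑_p c_p M p q' = sg q b_q` for all `q` and put `u = ∑_p c_p Us p`.
* `fderiv_hv`: `(DZ (hv u Z))_I = ∑_p hv_p ∂_p Z_I = ∑_J u_J bracket Z_J Z_I`.
* `hv_hol`: the partial derivatives of a holomorphic function are holomorphic
  (`ContDiffOn.fderiv_of_isOpen`, with `d10 (pu u Z) y a = fderiv ℂ (pu u Z) y a` on `U`).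
-/

open scoped ContDiff ComplexConjugate Topology
open Complex

namespace Pool.Agent.NSK

open Pool.Agent.DTW Pool.Agent.SKF

variable {n m : ℕ} {U : Set (E n)} {z : E n} {Z : E n → E m} {w : E n → ℝ}

private theorem HmA_diffZ (hU : IsOpen U) (hZ : ContDiffOn ℂ ∞ Z U) (hz : z ∈ U) :
    DifferentiableAt ℂ Z z :=
  (hZ.contDiffAt (hU.mem_nhds hz)).differentiableAt (by simp)

private theorem HmA_coord (hZ : DifferentiableAt ℂ Z z) (I : Ix m) :
    HasFDerivAt (fun y => Z y I)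
      ((ContinuousLinearMap.proj (R := ℂ) (φ := fun _ : Ix m => ℂ) I).comp (fderiv ℂ Z z)) z :=
  ((ContinuousLinearMap.proj (R := ℂ) (φ := fun _ : Ix m => ℂ) I).hasFDerivAt).comp z
    hZ.hasFDerivAt

private theorem HmA_coord_d10 (hZ : DifferentiableAt ℂ Z z) (I : Ix m) (a : E n) :
    d10 (fun y => Z y I) z a = fderiv ℂ Z z a I := by
  rw [d10_of_diff (HmA_coord hZ I).differentiableAt, (HmA_coord hZ I).fderiv]
  rfl

theorem pu_hol (hZ : ContDiffOn ℂ ∞ Z U) (u : E m) : ContDiffOn ℂ ∞ (pu u Z) U := by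
  unfold pu
  refine ContDiffOn.sum fun I _ => ?_
  exact contDiffOn_const.mul ((contDiff_apply ℂ ℂ I).comp_contDiffOn hZ)

theorem d10_pu (hU : IsOpen U) (hZ : ContDiffOn ℂ ∞ Z U) (hz : z ∈ U) (u : E m) (a : E n) :
    d10 (pu u Z) z a = ∑ I, u I * fderiv ℂ Z z a I := by
  have hd := HmA_diffZ hU hZ hz
  have h2 : DifferentiableAt ℂ (pu u Z) z :=
    ((pu_hol hZ u).contDiffAt (hU.mem_nhds hz)).differentiableAt (by simp)
  have h3 : HasFDerivAt (pu u Z) (∑ I, u I •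
      ((ContinuousLinearMap.proj (R := ℂ) (φ := fun _ : Ix m => ℂ) I).comp (fderiv ℂ Z z))) z := by
    unfold pu
    exact HasFDerivAt.fun_sum fun I _ => (HmA_coord hd I).const_mul (u I)
  rw [d10_of_diff h2, h3.fderiv]
  simp

theorem hv_hol (hU : IsOpen U) (hZ : ContDiffOn ℂ ∞ Z U) (u : E m) :
    ContDiffOn ℂ ∞ (fun y => hv u Z y) U := by
  rw [contDiffOn_pi]
  intro p
  have h1 : ContDiffOn ℂ ∞ (fderiv ℂ (pu u Z)) U :=
    (pu_hol hZ u).fderiv_of_isOpen hU (by simp)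
  have h2 : ContDiffOn ℂ ∞ (fun y => sg p * fderiv ℂ (pu u Z) y (e p.swap)) U :=
    contDiffOn_const.mul (h1.clm_apply contDiffOn_const)
  refine h2.congr fun y hy => ?_
  have h3 : DifferentiableAt ℂ (pu u Z) y :=
    ((pu_hol hZ u).contDiffAt (hU.mem_nhds hy)).differentiableAt (by simp)
  show sg p * d10 (pu u Z) y (e p.swap) = _
  rw [d10_of_diff h3]

theorem hv_smul (hU : IsOpen U) (hZ : ContDiffOn ℂ ∞ Z U) (hz : z ∈ U) (c : ℂ) (u : E m) :
    hv (c • u) Z z = c • hv u Z z := by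
  funext p
  simp only [hv, Pi.smul_apply, smul_eq_mul, d10_pu hU hZ hz, Finset.mul_sum]
  refine Finset.sum_congr rfl fun I _ => ?_
  ring

theorem hv_add (hU : IsOpen U) (hZ : ContDiffOn ℂ ∞ Z U) (hz : z ∈ U) (u u' : E m) :
    hv (u + u') Z z = hv u Z z + hv u' Z z := by
  funext p
  simp only [hv, Pi.add_apply, d10_pu hU hZ hz, Finset.mul_sum]
  rw [← Finset.sum_add_distrib]
  refine Finset.sum_congr rfl fun I _ => ?_
  ring

private theorem HmA_hv_zero (hU : IsOpen U) (hZ : ContDiffOn ℂ ∞ Z U) (hz : z ∈ U) :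
    hv (0 : E m) Z z = 0 := by
  funext p
  simp [hv, d10_pu hU hZ hz]

private theorem HmA_hv_sum (hU : IsOpen U) (hZ : ContDiffOn ℂ ∞ Z U) (hz : z ∈ U) {κ : Type*}
    (s : Finset κ) (t : κ → ℂ) (us : κ → E m) :
    ∑ i ∈ s, t i • hv (us i) Z z = hv (∑ i ∈ s, t i • us i) Z z := by
  classical
  induction s using Finset.induction_on with
  | empty => simp [HmA_hv_zero hU hZ hz]
  | insert a s ha ih =>
    rw [Finset.sum_insert ha, Finset.sum_insert ha, hv_add hU hZ hz, hv_smul hU hZ hz, ih]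

theorem hv_lc (hU : IsOpen U) (hZ : ContDiffOn ℂ ∞ Z U) (hz : z ∈ U) {r : ℕ} (t : Fin r → ℂ)
    (us : Fin r → E m) : lc t (fun i => hv (us i) Z z) = hv (∑ i, t i • us i) Z z :=
  HmA_hv_sum hU hZ hz Finset.univ t us

theorem hv_congr {m' : ℕ} {Z' : E n → E m'} {u : E m} {u' : E m'}
    (h : ∀ a, d10 (pu u Z) z a = d10 (pu u' Z') z a) : hv u Z z = hv u' Z' z := by
  funext p
  simp only [hv, h]

theorem S_hv (u : E m) (a : E n) : S (hv u Z z) a = d10 (pu u Z) z a := by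
  rw [S_eq, d10_eq_sum, ← sum_swap (fun k => a k * pk k (pu u Z) z)]
  refine Finset.sum_congr rfl fun k _ => ?_
  simp only [hv, pk]
  have h := sg_sq k
  linear_combination (d10 (pu u Z) z (e k.swap) * a k.swap) * h

theorem levi_hv (L : Loc w U) (hZ : ContDiffOn ℂ ∞ Z U) (hz : z ∈ U) (u : E m) (b : E n) :
    levi w z (hv u Z z) b = -∑ I, u I * fderiv ℂ Z z (XX w z b) I := by
  have hw : ContDiffAt ℝ ∞ w z := L.sm.contDiffAt (L.op.mem_nhds hz)
  rw [← d10_pu L.op hZ hz, d10_eq_sum]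
  have h1 : levi w z (hv u Z z) b = ∑ p, hv u Z z p * levi w z (e p) b := by
    have h2 : levi w z (hv u Z z) b = d10 (fun y => d01 (fun x => (w x : ℂ)) y b) z (hv u Z z) := rfl
    rw [h2, d10_eq_sum]
    rfl
  rw [h1, ← sum_swap (fun k => XX w z b k * pk k (pu u Z) z), ← Finset.sum_neg_distrib]
  refine Finset.sum_congr rfl fun k _ => ?_
  rw [XX_apply hw, Sum.swap_swap, sg_swap]
  simp only [hv, pk]
  ring

theorem fderiv_hv (hU : IsOpen U) (hZ : ContDiffOn ℂ ∞ Z U) (hz : z ∈ U) (u : E m) (I : Ix m) :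
    fderiv ℂ Z z (hv u Z z) I
      = ∑ J, u J * bracket (fun y => Z y J) (fun y => Z y I) z := by
  have hd := HmA_diffZ hU hZ hz
  rw [← HmA_coord_d10 hd, d10_eq_sum]
  simp only [bracket, Finset.mul_sum]
  rw [Finset.sum_comm]
  refine Finset.sum_congr rfl fun k _ => ?_
  simp only [hv, pk, d10_pu hU hZ hz, HmA_coord_d10 hd, Finset.mul_sum, Finset.sum_mul]
  refine Finset.sum_congr rfl fun J _ => ?_
  ring

theorem norm_fderiv_hv (hU : IsOpen U) (hZ : ContDiffOn ℂ ∞ Z U) (hz : z ∈ U) {P : ℝ}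
    (hP : 0 ≤ P) (hb : ∀ I J : Ix m, ‖bracket (fun y => Z y I) (fun y => Z y J) z‖ ≤ P) (u : E m) :
    ‖fderiv ℂ Z z (hv u Z z)‖ ≤ 2 * m * P * ‖u‖ := by
  have h0 : 0 ≤ 2 * (m : ℝ) * P * ‖u‖ := by positivity
  rw [pi_norm_le_iff_of_nonneg h0]
  intro I
  rw [fderiv_hv hU hZ hz]
  refine (norm_sum_le _ _).trans ?_
  have h1 : ∀ J ∈ (Finset.univ : Finset (Ix m)),
      ‖u J * bracket (fun y => Z y J) (fun y => Z y I) z‖ ≤ ‖u‖ * P := by
    intro J _
    rw [norm_mul]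
    exact mul_le_mul (norm_le_pi_norm u J) (hb J I) (norm_nonneg _) (norm_nonneg _)
  refine (Finset.sum_le_card_nsmul _ _ _ h1).trans (le_of_eq ?_)
  simp [Finset.card_univ, Fintype.card_sum]
  ring

theorem hv_surj (hU : IsOpen U) (hZ : ContDiffOn ℂ ∞ Z U) (hz : z ∈ U) {Us : Ix n → E m}
    (h : fz Z Us z ≠ 0) (b : E n) : ∃ u : E m, b = hv u Z z := by
  classical
  set M : Matrix (Ix n) (Ix n) ℂ := Matrix.of fun p q => d10 (pu (Us p) Z) z (e q) with hM
  have hdet : M.det ≠ 0 := h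
  have hu : IsUnit M.det := isUnit_iff_ne_zero.2 hdet
  set tt : Ix n → ℂ := fun q => sg q.swap * b q.swap with htt
  set c : Ix n → ℂ := Matrix.vecMul tt M⁻¹ with hc
  have h1 : Matrix.vecMul c M = tt := by
    rw [hc, Matrix.vecMul_vecMul, Matrix.nonsing_inv_mul _ hu, Matrix.vecMul_one]
  refine ⟨∑ p, c p • Us p, ?_⟩
  rw [← HmA_hv_sum hU hZ hz]
  funext q
  have h2 := congrFun h1 q.swap
  simp only [Matrix.vecMul, dotProduct, hM, Matrix.of_apply, htt, Sum.swap_swap] at h2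
  rw [Finset.sum_apply]
  simp only [Pi.smul_apply, smul_eq_mul, hv]
  have h3 : ∑ p, c p * (sg q * d10 (pu (Us p) Z) z (e q.swap))
      = sg q * ∑ p, c p * d10 (pu (Us p) Z) z (e q.swap) := by
    rw [Finset.mul_sum]
    refine Finset.sum_congr rfl fun p _ => ?_
    ring
  rw [h3, h2]
  have h4 := sg_sq q
  linear_combination (-b q) * h4

end Pool.Agent.NSK
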