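import Pool.Agent.NSK.HmA

/-!
MinA (size 4): the determinants `fz Z Us z = det (d10 (pu (Us p) Z) z (e q))`.
* `fz_eq`: coordinates: `pu (e I) Z y = Z y I`.
* `fz_le`: `d10 (pu (Us p) Z) z (e q) = ∑_I Us p I * d10 (Z_I) z (e q)`: the determinant is multilinear in the
  rows (`Matrix.detRowAlternating`, `MultilinearMap.map_sum`, `map_smul_univ`), so
  `fz = ∑_(J : Ix n → Ix m) (∏_p Us p (J p)) minor_J`, `(2m)^(2n)` terms of norm `≤ ε`.
* `fz_smul`: determinant of `c • M`. `fz_congr`: same differentials.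
* `fz_hol`: polynomial in the holomorphic functions `d10 (pu (Us p) Z) . (e q)` (as in `hv_hol`).
* `fz_sq_le`: with `M p q = d10 (pu (Us p) Z) z (e q)` and the matrix `𝕁 k l = if k = l.swap then sg l else 0`
  up to sign (`Matrix.J`, `S_J`, `J_apply` of DTW.Alg; its determinant has absolute value 1),
  `(M 𝕁 Mᵀ) p q = ± bracket (pu (Us p) Z) (pu (Us q) Z) z`, of norm `≤ (2m)² P`, so
  `|det M|² = |det (M 𝕁 Mᵀ)| ≤ (2n)! ((2m)² P)^(2n)` (`Matrix.det_le`, or the Leibniz formula).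
-/

open scoped ContDiff ComplexConjugate Topology
open Complex

namespace Pool.Agent.NSK

open Pool.Agent.DTW Pool.Agent.SKF

variable {n m : ℕ} {U : Set (E n)} {z : E n} {Z : E n → E m}

private theorem MinA_coord_d10 (hU : IsOpen U) (hZ : ContDiffOn ℂ ∞ Z U) (hz : z ∈ U) (I : Ix m)
    (a : E n) : d10 (fun y => Z y I) z a = fderiv ℂ Z z a I := by
  have h1 : (fun y => Z y I) = pu (e I) Z := by
    funext y
    unfold pu
    rw [Finset.sum_eq_single I]
    · simp [e]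
    · intro j _ hj
      simp [e, Pi.single_eq_of_ne hj]
    · intro h
      exact absurd (Finset.mem_univ _) h
  rw [h1, d10_pu hU hZ hz, Finset.sum_eq_single I]
  · simp [e]
  · intro j _ hj
    simp [e, Pi.single_eq_of_ne hj]
  · intro h
    exact absurd (Finset.mem_univ _) h

private theorem MinA_det_sum (A : Ix n → Ix m → ℂ) (N : Ix m → Ix n → ℂ) :
    (Matrix.of fun p q : Ix n => ∑ I, A p I * N I q).det
      = ∑ J : Ix n → Ix m, (∏ p, A p (J p)) * (Matrix.of fun p q : Ix n => N (J p) q).det := by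
  classical
  have h1 : (Matrix.of fun p q : Ix n => ∑ I, A p I * N I q).det
      = (Matrix.detRowAlternating (R := ℂ) (n := Ix n)).toMultilinearMap
        (fun p => ∑ I, A p I • N I) := by
    have h2 : (fun p => ∑ I, A p I • N I) = fun p q : Ix n => ∑ I, A p I * N I q := by
      funext p q
      simp [Finset.sum_apply]
    rw [h2]
    rfl
  rw [h1, MultilinearMap.map_sum]
  refine Finset.sum_congr rfl fun J _ => ?_
  rw [MultilinearMap.map_smul_univ, smul_eq_mul]
  rfl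

theorem fz_eq (Z : E n → E m) (J : Ix n → Ix m) (z : E n) :
    fz Z (fun p => e (J p)) z = minor (fun p y => Z y (J p)) z := by
  have h1 : (fun p => pu (e (J p)) Z) = fun p y => Z y (J p) := by
    funext p y
    unfold pu
    rw [Finset.sum_eq_single (J p)]
    · simp [e]
    · intro j _ hj
      simp [e, Pi.single_eq_of_ne hj]
    · intro h
      exact absurd (Finset.mem_univ _) h
  unfold fz
  rw [h1]

theorem fz_le (hU : IsOpen U) (hZ : ContDiffOn ℂ ∞ Z U) (hz : z ∈ U) {ε : ℝ} (hε : 0 ≤ ε)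
    (h : ∀ J : Ix n → Ix m, ‖minor (fun p y => Z y (J p)) z‖ ≤ ε) (Us : Ix n → E m)
    (hUs : ∀ p, ‖Us p‖ ≤ 1) : ‖fz Z Us z‖ ≤ (2 * m) ^ (2 * n) * ε := by
  classical
  have h1 : fz Z Us z = ∑ J : Ix n → Ix m, (∏ p, Us p (J p))
      * (Matrix.of fun p q : Ix n => fderiv ℂ Z z (e q) (J p)).det := by
    rw [← MinA_det_sum (fun p I => Us p I) (fun I q => fderiv ℂ Z z (e q) I)]
    unfold fz minor
    simp only [d10_pu hU hZ hz]
  have h2 : ∀ J : Ix n → Ix m, minor (fun p y => Z y (J p)) z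
      = (Matrix.of fun p q : Ix n => fderiv ℂ Z z (e q) (J p)).det := by
    intro J
    unfold minor
    simp only [MinA_coord_d10 hU hZ hz]
  rw [h1]
  refine (norm_sum_le _ _).trans ?_
  have h3 : ∀ J ∈ (Finset.univ : Finset (Ix n → Ix m)), ‖(∏ p, Us p (J p))
      * (Matrix.of fun p q : Ix n => fderiv ℂ Z z (e q) (J p)).det‖ ≤ ε := by
    intro J _
    rw [norm_mul, norm_prod, ← h2]
    have h4 : ∏ p, ‖Us p (J p)‖ ≤ 1 :=
      Finset.prod_le_one (fun p _ => norm_nonneg _)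
        fun p _ => (norm_le_pi_norm (Us p) (J p)).trans (hUs p)
    calc (∏ p, ‖Us p (J p)‖) * ‖minor (fun p y => Z y (J p)) z‖ ≤ 1 * ε :=
          mul_le_mul h4 (h J) (norm_nonneg _) zero_le_one
      _ = ε := one_mul _
  refine (Finset.sum_le_card_nsmul _ _ _ h3).trans (le_of_eq ?_)
  have h5 : ((Fintype.card (Ix n → Ix m) : ℕ) : ℝ) = (2 * m) ^ (2 * n) := by
    rw [Fintype.card_fun]
    simp only [Fintype.card_sum, Fintype.card_fin]
    push_cast
    rw [two_mul, two_mul]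
  rw [Finset.card_univ, nsmul_eq_mul, h5]

theorem fz_smul (hU : IsOpen U) (hZ : ContDiffOn ℂ ∞ Z U) (hz : z ∈ U) (c : ℂ)
    (Us : Ix n → E m) : fz Z (fun p => c • Us p) z = c ^ (2 * n) * fz Z Us z := by
  have h1 : (Matrix.of fun p q : Ix n => d10 (pu (c • Us p) Z) z (e q))
      = c • (Matrix.of fun p q : Ix n => d10 (pu (Us p) Z) z (e q)) := by
    ext p q
    simp only [Matrix.of_apply, Matrix.smul_apply, smul_eq_mul, d10_pu hU hZ hz, Pi.smul_apply,
      Finset.mul_sum]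
    refine Finset.sum_congr rfl fun I _ => ?_
    ring
  unfold fz minor
  rw [h1, Matrix.det_smul]
  simp only [Fintype.card_sum, Fintype.card_fin]
  rw [two_mul]

theorem fz_congr {m' : ℕ} {Z' : E n → E m'} {Us : Ix n → E m} {Us' : Ix n → E m'}
    (h : ∀ p a, d10 (pu (Us p) Z) z a = d10 (pu (Us' p) Z') z a) : fz Z Us z = fz Z' Us' z := by
  unfold fz minor
  simp only [h]

theorem fz_hol (hU : IsOpen U) (hZ : ContDiffOn ℂ ∞ Z U) (Us : Ix n → E m) :
    ContDiffOn ℂ ∞ (fz Z Us) U := by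
  have h0 : ∀ p q : Ix n, ContDiffOn ℂ ∞ (fun y => d10 (pu (Us p) Z) y (e q)) U := by
    intro p q
    have h1 : ContDiffOn ℂ ∞ (fderiv ℂ (pu (Us p) Z)) U :=
      (pu_hol hZ (Us p)).fderiv_of_isOpen hU (by simp)
    have h2 : ContDiffOn ℂ ∞ (fun y => fderiv ℂ (pu (Us p) Z) y (e q)) U :=
      h1.clm_apply contDiffOn_const
    refine h2.congr fun y hy => ?_
    have h3 : DifferentiableAt ℂ (pu (Us p) Z) y :=
      ((pu_hol hZ (Us p)).contDiffAt (hU.mem_nhds hy)).differentiableAt (by simp)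
    exact d10_of_diff h3 _
  have h1 : fz Z Us = fun y => ∑ σ : Equiv.Perm (Ix n),
      ((Equiv.Perm.sign σ : ℤ) : ℂ) * ∏ i, d10 (pu (Us (σ i)) Z) y (e i) := by
    funext y
    unfold fz minor
    rw [Matrix.det_apply']
    rfl
  rw [h1]
  refine ContDiffOn.sum fun σ _ => ?_
  exact contDiffOn_const.mul (contDiffOn_prod fun i _ => h0 (σ i) i)

private theorem MinA_bracket (hU : IsOpen U) (hZ : ContDiffOn ℂ ∞ Z U) (hz : z ∈ U) (u v : E m) :
    bracket (pu u Z) (pu v Z) z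
      = ∑ I, ∑ J, u I * v J * bracket (fun y => Z y I) (fun y => Z y J) z := by
  have h1 : ∀ k : Ix n, sg k * d10 (pu u Z) z (e k.swap) * d10 (pu v Z) z (e k)
      = ∑ I, ∑ J, u I * v J * (sg k * d10 (fun y => Z y I) z (e k.swap)
        * d10 (fun y => Z y J) z (e k)) := by
    intro k
    rw [d10_pu hU hZ hz, d10_pu hU hZ hz, mul_assoc, Finset.sum_mul_sum, Finset.mul_sum]
    refine Finset.sum_congr rfl fun I _ => ?_
    rw [Finset.mul_sum]
    refine Finset.sum_congr rfl fun J _ => ?_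
    rw [MinA_coord_d10 hU hZ hz, MinA_coord_d10 hU hZ hz]
    ring
  unfold bracket
  simp only [h1]
  rw [Finset.sum_comm]
  refine Finset.sum_congr rfl fun I _ => ?_
  rw [Finset.sum_comm]
  refine Finset.sum_congr rfl fun J _ => ?_
  rw [Finset.mul_sum]

private theorem MinA_bracket_le (hU : IsOpen U) (hZ : ContDiffOn ℂ ∞ Z U) (hz : z ∈ U) {P : ℝ}
    (_hP : 0 ≤ P) (hb : ∀ I J : Ix m, ‖bracket (fun y => Z y I) (fun y => Z y J) z‖ ≤ P)
    (u v : E m) (hu : ‖u‖ ≤ 1) (hv : ‖v‖ ≤ 1) :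
    ‖bracket (pu u Z) (pu v Z) z‖ ≤ (2 * m) ^ 2 * P := by
  rw [MinA_bracket hU hZ hz]
  have h1 : ∀ I J : Ix m, ‖u I * v J * bracket (fun y => Z y I) (fun y => Z y J) z‖ ≤ P := by
    intro I J
    rw [norm_mul, norm_mul]
    have h2 : ‖u I‖ ≤ 1 := (norm_le_pi_norm u I).trans hu
    have h3 : ‖v J‖ ≤ 1 := (norm_le_pi_norm v J).trans hv
    calc ‖u I‖ * ‖v J‖ * ‖bracket (fun y => Z y I) (fun y => Z y J) z‖ ≤ 1 * 1 * P :=
          mul_le_mul (mul_le_mul h2 h3 (norm_nonneg _) zero_le_one) (hb I J) (norm_nonneg _)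
            (by norm_num)
      _ = P := by ring
  refine (norm_sum_le _ _).trans ?_
  have h2 : ∀ I ∈ (Finset.univ : Finset (Ix m)),
      ‖∑ J, u I * v J * bracket (fun y => Z y I) (fun y => Z y J) z‖ ≤ (2 * m) * P := by
    intro I _
    refine (norm_sum_le _ _).trans ?_
    refine (Finset.sum_le_card_nsmul _ _ _ fun J _ => h1 I J).trans (le_of_eq ?_)
    simp only [Finset.card_univ, Fintype.card_sum, Fintype.card_fin, nsmul_eq_mul]
    push_cast
    ring
  refine (Finset.sum_le_card_nsmul _ _ _ h2).trans (le_of_eq ?_)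
  simp only [Finset.card_univ, Fintype.card_sum, Fintype.card_fin, nsmul_eq_mul]
  push_cast
  ring

theorem fz_sq_le (hU : IsOpen U) (hZ : ContDiffOn ℂ ∞ Z U) (hz : z ∈ U) {P : ℝ} (hP : 0 ≤ P)
    (hb : ∀ I J : Ix m, ‖bracket (fun y => Z y I) (fun y => Z y J) z‖ ≤ P) (Us : Ix n → E m)
    (hUs : ∀ p, ‖Us p‖ ≤ 1) :
    Complex.normSq (fz Z Us z) ≤ (2 * n).factorial * ((2 * m) ^ 2 * P) ^ (2 * n) := by
  classical
  set M : Matrix (Ix n) (Ix n) ℂ := Matrix.of fun p q => d10 (pu (Us p) Z) z (e q) with hM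
  set 𝕁 : Matrix (Ix n) (Ix n) ℂ := Matrix.J (Fin n) ℂ with hJ
  have hfz : fz Z Us z = M.det := rfl
  have h1 : ∀ p q, (M * 𝕁 * M.transpose) p q = bracket (pu (Us p) Z) (pu (Us q) Z) z := by
    intro p q
    unfold bracket
    rw [Matrix.mul_apply]
    refine Finset.sum_congr rfl fun k _ => ?_
    rw [Matrix.mul_apply, Finset.sum_eq_single k.swap]
    · rw [hJ, J_apply]
      simp only [if_true, hM, Matrix.of_apply, Matrix.transpose_apply]
      ring
    · intro j _ hj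
      rw [hJ, J_apply, if_neg hj, mul_zero]
    · intro h
      exact absurd (Finset.mem_univ _) h
  have h2 : (M * 𝕁 * M.transpose).det = M.det * M.det * 𝕁.det := by
    rw [Matrix.det_mul, Matrix.det_mul, Matrix.det_transpose]
    ring
  have hJ1 : ‖𝕁.det‖ = 1 := by
    have h3 : 𝕁.det * 𝕁.det = 1 := Matrix.J_det_mul_J_det (Fin n) ℂ
    have h4 : ‖𝕁.det‖ * ‖𝕁.det‖ = 1 := by rw [← norm_mul, h3, norm_one]
    nlinarith [norm_nonneg 𝕁.det]
  have h3 : ‖(M * 𝕁 * M.transpose).det‖ ≤ (2 * n).factorial * ((2 * m) ^ 2 * P) ^ (2 * n) := by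
    have h4 := Matrix.det_le (A := M * 𝕁 * M.transpose)
      (abv := IsAbsoluteValue.toAbsoluteValue (norm : ℂ → ℝ)) (x := (2 * (m : ℝ)) ^ 2 * P)
      (fun p q => by
        show ‖(M * 𝕁 * M.transpose) p q‖ ≤ _
        rw [h1]
        exact MinA_bracket_le hU hZ hz hP hb _ _ (hUs p) (hUs q))
    have h5 : Fintype.card (Ix n) = 2 * n := by
      simp only [Fintype.card_sum, Fintype.card_fin]
      ring
    rw [h5, nsmul_eq_mul] at h4
    exact h4
  rw [h2, norm_mul, norm_mul, hJ1, mul_one] at h3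
  rw [hfz, Complex.normSq_eq_norm_sq, sq]
  exact h3

end Pool.Agent.NSK
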