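import Pool.Agent.NSK.HmA
import Pool.Agent.NSK.EmbO

/-!
Cmb (size 4): comparison of two boxes. Let `k = b.k`, `l = b'.k`. For `x ∈ b.K ∩ b'.K` the field
`glue l k x` gives open sets `O ∋ x`, `O'` and a holomorphic `G : E m → E m` on `O'` with `ζ k y = G (ζ l y)`,
`ζ l y ∈ O'` for `y ∈ O`. The map `y ↦ ‖fderiv ℂ G (ζ l y)‖` is continuous at `x` (within `V l`), so it is bounded by
some `C_x` on a smaller open neighbourhood `O_x ⊆ O ∩ V k ∩ V l` of `x`. If `z ∈ (A.c i).target`, `(A.c i).symm z ∈ O_x`, then near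
`z`: `A.Z k i = G ∘ A.Z l i`, so `fderiv ℂ (A.Z k i) z = fderiv ℂ G (A.Z l i z) ∘ fderiv ℂ (A.Z l i) z`, and
`d10 (pu u (A.Z k i)) z a = ∑_I u_I (DG (DZ a))_I = ∑_J u'_J (DZ a)_J` (`d10_pu`) with
`u'_J = ∑_I u_I (DG (e J))_I`, `‖u'‖ ≤ 2 m C_x ‖u‖`. Finitely many `O_x` cover the compact set `b.K ∩ b'.K`
(`IsCompact.inter`, `T2Space`); take the maximum of the constants and 1.
-/

open scoped ContDiff ComplexConjugate Topology
open Complex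

namespace Pool.Agent.NSK

open Pool.Agent.DTW Pool.Agent.SKF

variable {n m : ℕ} {X : Type*} [TopologicalSpace X] {ι κ : Type*} {A : Space n m X ι κ}

private theorem Cmb_vec (G : E m →L[ℂ] E m) (u v : E m) :
    ∑ I, u I * G v I = ∑ J, (∑ I, u I * G (e J) I) * v J := by
  have h1 : ∀ I, G v I = ∑ J, v J * G (e J) I := by
    intro I
    conv_lhs => rw [vec_eq_sum v]
    rw [map_sum, Finset.sum_apply]
    refine Finset.sum_congr rfl fun J _ => ?_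
    rw [map_smul, Pi.smul_apply, smul_eq_mul]
  simp only [h1, Finset.mul_sum, Finset.sum_mul]
  rw [Finset.sum_comm]
  refine Finset.sum_congr rfl fun J _ => Finset.sum_congr rfl fun I _ => ?_
  ring

private theorem Cmb_norm (G : E m →L[ℂ] E m) (u : E m) {C : ℝ} (hC : ‖G‖ ≤ C) :
    ‖(fun J => ∑ I, u I * G (e J) I : E m)‖ ≤ 2 * m * C * ‖u‖ := by
  have hC0 : 0 ≤ C := (norm_nonneg G).trans hC
  rw [pi_norm_le_iff_of_nonneg (by positivity)]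
  intro J
  refine (norm_sum_le _ _).trans ?_
  have h1 : ∀ I ∈ (Finset.univ : Finset (Ix m)), ‖u I * G (e J) I‖ ≤ C * ‖u‖ := by
    intro I _
    rw [norm_mul]
    have h2 : ‖u I‖ ≤ ‖u‖ := norm_le_pi_norm u I
    have h3 : ‖G (e J) I‖ ≤ C := by
      refine (norm_le_pi_norm (G (e J)) I).trans ((G.le_opNorm _).trans ?_)
      have h4 : ‖(e J : E m)‖ ≤ 1 := by
        rw [pi_norm_le_iff_of_nonneg zero_le_one]
        intro K
        unfold e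
        rw [Pi.single_apply]
        split_ifs <;> simp
      calc ‖G‖ * ‖(e J : E m)‖ ≤ C * 1 := by gcongr
        _ = C := mul_one C
    calc ‖u I‖ * ‖G (e J) I‖ ≤ ‖u‖ * C := by gcongr
      _ = C * ‖u‖ := mul_comm _ _
  refine (Finset.sum_le_card_nsmul _ _ _ h1).trans (le_of_eq ?_)
  rw [Finset.card_univ, Fintype.card_sum, Fintype.card_fin, nsmul_eq_mul]
  push_cast
  ring

private theorem Cmb_loc (b b' : Box A) {x : X} (hx : x ∈ b.K) (hx' : x ∈ b'.K) :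
    ∃ O ∈ 𝓝 x, ∃ R : ℝ, 1 ≤ R ∧ ∀ i z, z ∈ (A.c i).target →
    (A.c i).symm z ∈ O → ∀ u : E m, ∃ u' : E m, ‖u'‖ ≤ R * ‖u‖ ∧
      ∀ a, d10 (pu u (A.Z b.k i)) z a = d10 (pu u' (A.Z b'.k i)) z a := by
  have hk : x ∈ A.V b.k := b.sub hx
  have hl : x ∈ A.V b'.k := b'.sub hx'
  obtain ⟨O, O', G, hO, hxO, hO', hG, hGO⟩ := A.glue b'.k b.k x hl hk
  have hcG : ContinuousOn (fun y => ‖fderiv ℂ G y‖) O' :=
    (hG.continuousOn_fderiv_of_isOpen hO' (by simp)).norm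
  have hat : ContinuousAt (fun y => ‖fderiv ℂ G (A.ζ b'.k y)‖) x := by
    have h1 : ContinuousAt (fun y => ‖fderiv ℂ G y‖) (A.ζ b'.k x) :=
      hcG.continuousAt (hO'.mem_nhds (hGO x hxO).1)
    exact ContinuousAt.comp (f := A.ζ b'.k) (g := fun y => ‖fderiv ℂ G y‖) h1
      ((A.cont b'.k).continuousAt ((A.isOpen b'.k).mem_nhds hl))
  set C : ℝ := ‖fderiv ℂ G (A.ζ b'.k x)‖ + 1 with hCdef
  have hev : ∀ᶠ y in 𝓝 x, ‖fderiv ℂ G (A.ζ b'.k y)‖ < C :=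
    hat.eventually (gt_mem_nhds (by rw [hCdef]; linarith))
  obtain ⟨W, hWsub, hWo, hxW⟩ := mem_nhds_iff.1 hev
  have hC0 : 0 ≤ C := by positivity
  refine ⟨W ∩ (O ∩ (A.V b.k ∩ A.V b'.k)),
    (hWo.inter (hO.inter ((A.isOpen b.k).inter (A.isOpen b'.k)))).mem_nhds ⟨hxW, hxO, hk, hl⟩,
    2 * m * C + 1, by linarith [show (0 : ℝ) ≤ 2 * m * C by positivity], ?_⟩
  rintro i z hz ⟨hzW, hzO, hzk, hzl⟩ u
  have hDk : z ∈ A.D b.k i := ⟨hz, hzk⟩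
  have hDl : z ∈ A.D b'.k i := ⟨hz, hzl⟩
  have hZk : ContDiffOn ℂ ∞ (A.Z b.k i) (A.D b.k i) := A.holo b.k i
  have hZl : ContDiffOn ℂ ∞ (A.Z b'.k i) (A.D b'.k i) := A.holo b'.k i
  have hdl : DifferentiableAt ℂ (A.Z b'.k i) z :=
    (hZl.contDiffAt ((D_open A b'.k i).mem_nhds hDl)).differentiableAt (by simp)
  have hGz : A.Z b'.k i z ∈ O' := (hGO _ hzO).1
  have hdG : DifferentiableAt ℂ G (A.Z b'.k i z) :=
    (hG.contDiffAt (hO'.mem_nhds hGz)).differentiableAt (by simp)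
  have hevz : A.Z b.k i =ᶠ[𝓝 z] G ∘ A.Z b'.k i := by
    have h1 : ∀ᶠ y in 𝓝 z, (A.c i).symm y ∈ O :=
      ((A.c i).continuousAt_symm hz).eventually (hO.mem_nhds hzO)
    filter_upwards [h1] with y hy
    exact (hGO _ hy).2
  have hfd : fderiv ℂ (A.Z b.k i) z
      = (fderiv ℂ G (A.Z b'.k i z)).comp (fderiv ℂ (A.Z b'.k i) z) := by
    rw [hevz.fderiv_eq]
    exact fderiv_comp z hdG hdl
  refine ⟨fun J => ∑ I, u I * fderiv ℂ G (A.Z b'.k i z) (e J) I, ?_, ?_⟩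
  · have h1 : ‖fderiv ℂ G (A.Z b'.k i z)‖ ≤ C := le_of_lt (hWsub hzW)
    refine (Cmb_norm _ u h1).trans ?_
    gcongr
    linarith
  · intro a
    rw [d10_pu (D_open A b.k i) hZk hDk, d10_pu (D_open A b'.k i) hZl hDl, hfd]
    exact Cmb_vec _ u _

theorem cmb [T2Space X] (b b' : Box A) : ∃ R : ℝ, 1 ≤ R ∧ ∀ i z, z ∈ (A.c i).target →
    (A.c i).symm z ∈ b.K → (A.c i).symm z ∈ b'.K → ∀ u : E m, ∃ u' : E m, ‖u'‖ ≤ R * ‖u‖ ∧
      ∀ a, d10 (pu u (A.Z b.k i)) z a = d10 (pu u' (A.Z b'.k i)) z a := by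
  have hcomp : IsCompact (b.K ∩ b'.K) := b.comp.inter b'.comp
  have key : ∃ R : ℝ, 1 ≤ R ∧ ∀ i z, z ∈ (A.c i).target →
      (A.c i).symm z ∈ b.K ∩ b'.K → ∀ u : E m, ∃ u' : E m, ‖u'‖ ≤ R * ‖u‖ ∧
      ∀ a, d10 (pu u (A.Z b.k i)) z a = d10 (pu u' (A.Z b'.k i)) z a := by
    refine hcomp.induction_on (p := fun s => ∃ R : ℝ, 1 ≤ R ∧ ∀ i z, z ∈ (A.c i).target →
      (A.c i).symm z ∈ s → ∀ u : E m, ∃ u' : E m, ‖u'‖ ≤ R * ‖u‖ ∧
      ∀ a, d10 (pu u (A.Z b.k i)) z a = d10 (pu u' (A.Z b'.k i)) z a) ?_ ?_ ?_ ?_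
    · exact ⟨1, le_refl _, fun i z _ h => absurd h (Set.notMem_empty _)⟩
    · rintro s t hst ⟨R, hR, h⟩
      exact ⟨R, hR, fun i z hz hs => h i z hz (hst hs)⟩
    · rintro s t ⟨R, hR, h⟩ ⟨R', hR', h'⟩
      refine ⟨max R R', hR.trans (le_max_left _ _), fun i z hz hs u => ?_⟩
      rcases hs with hs | hs
      · obtain ⟨u', h1, h2⟩ := h i z hz hs u
        exact ⟨u', h1.trans (by gcongr; exact le_max_left _ _), h2⟩
      · obtain ⟨u', h1, h2⟩ := h' i z hz hs u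
        exact ⟨u', h1.trans (by gcongr; exact le_max_right _ _), h2⟩
    · rintro x ⟨hx, hx'⟩
      obtain ⟨O, hO, R, hR, h⟩ := Cmb_loc b b' hx hx'
      exact ⟨O, mem_nhdsWithin_of_mem_nhds hO, R, hR, h⟩
  obtain ⟨R, hR, h⟩ := key
  exact ⟨R, hR, fun i z hz h1 h2 => h i z hz ⟨h1, h2⟩⟩

end Pool.Agent.NSK
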