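import Pool.Agent.NSK.HmA

/-!
CmpN (size 4): composition with a holomorphic map `Z : E n → E m`.
* `levi_cmp`: `d01 (g ∘ Z) y b = d01 g (Z y) (DZ_y b)` (`DZ_y = fderiv ℂ Z y`, the real derivative of `Z` at `y`
  is its restriction of scalars, complex linear), and `y ↦ DZ_y b` is holomorphic; differentiate
  `d01 g (Z y) (DZ_y b) = ∑_I conj ((DZ_y b)_I) pb I (cx g) (Z y)` by `∂_a`: `∂_a (conj ((DZ_y b)_I)) = 0`.
  Compare DTW.Chg / DTW.Glo (`d01_comp`, `chg_wt`), where `n = m`; the proofs there do not use it.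
* `emb_ker`: `levi W (Z z) a' a' = 0` for `a' = DZ a`, and `W` has a psd Levi form at `Z z` (`psd_of_levi`, `Psd.ker`).
* `emb_third`: on `U`: `levi w y a c = ∑_IJ (DZ_y a)_I conj ((DZ_y c)_J) LM W (Z y) I J`. Apply `∂̄_d` at `z`:
  `∂̄_d (DZ_y a)_I = 0`, `∂̄_d conj ((DZ_y c)_J) = conj (∂_d (DZ_y c)_J)`, and
  `∂̄_d (LM W (Z y) I J) = d01 (LM W . I J) (Z z) (DZ d)`; so `third w z a c d = levi W (Z z) (DZ a) (∂_d DZ c)
  + third W (Z z) (DZ a) (DZ c) (DZ d)` and the first term is 0 by `emb_ker`. (Same as `SKF.inv_Bf`, file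
  Pool/Agent/SKF/Inv.lean by helper67: private lemmas inv_third, inv_third_sum.)
-/

open scoped ContDiff ComplexConjugate Topology
open Complex

namespace Pool.Agent.NSK

open Pool.Agent.DTW Pool.Agent.SKF

variable {n m : ℕ} {w : E n → ℝ} {U : Set (E n)} {z : E n} {Z : E n → E m} {W : E m → ℝ}
  {B : Set (E m)}

private theorem CmpN_fderiv {Z : E n → E m} {G : E m → ℂ} {z : E n}
    (hZ : DifferentiableAt ℂ Z z) (hG : DifferentiableAt ℝ G (Z z))
    (v : E n) : fderiv ℝ (fun y => G (Z y)) z v = fderiv ℝ G (Z z) (fderiv ℂ Z z v) := by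
  have h : HasFDerivAt Z ((fderiv ℂ Z z).restrictScalars ℝ) z := hZ.hasFDerivAt.restrictScalars ℝ
  have h2 : HasFDerivAt (fun y => G (Z y))
      ((fderiv ℝ G (Z z)).comp ((fderiv ℂ Z z).restrictScalars ℝ)) z := hG.hasFDerivAt.comp z h
  rw [h2.fderiv]
  rfl

private theorem CmpN_d10 {Z : E n → E m} {G : E m → ℂ} {z : E n}
    (hZ : DifferentiableAt ℂ Z z) (hG : DifferentiableAt ℝ G (Z z)) (a : E n) :
    d10 (fun y => G (Z y)) z a = d10 G (Z z) (fderiv ℂ Z z a) := by
  unfold d10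
  rw [CmpN_fderiv hZ hG, CmpN_fderiv hZ hG, (fderiv ℂ Z z).map_smul]

private theorem CmpN_d01 {Z : E n → E m} {G : E m → ℂ} {z : E n}
    (hZ : DifferentiableAt ℂ Z z) (hG : DifferentiableAt ℝ G (Z z)) (a : E n) :
    d01 (fun y => G (Z y)) z a = d01 G (Z z) (fderiv ℂ Z z a) := by
  unfold d01
  rw [CmpN_fderiv hZ hG, CmpN_fderiv hZ hG, (fderiv ℂ Z z).map_smul]

private theorem CmpN_diffT {Z : E n → E m} {U : Set (E n)} {z : E n} (hU : IsOpen U)
    (hZ : ContDiffOn ℂ ∞ Z U) (hz : z ∈ U) (a : E n) (p : Ix m) :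
    DifferentiableAt ℂ (fun y => fderiv ℂ Z y a p) z := by
  have h2 : ContDiffAt ℂ ∞ (fderiv ℂ Z) z :=
    (hZ.contDiffAt (hU.mem_nhds hz)).fderiv_right (m := ∞) (by simp)
  have h3 : DifferentiableAt ℂ (fun y => fderiv ℂ Z y a) z :=
    (h2.clm_apply contDiffAt_const).differentiableAt (by simp)
  exact differentiableAt_pi.1 h3 p

theorem levi_cmp (hU : IsOpen U) (hZ : ContDiffOn ℂ ∞ Z U) (hB : IsOpen B) {g : E m → ℝ}
    (hg : ContDiffOn ℝ ∞ g B) (hm : ∀ y ∈ U, Z y ∈ B) (hz : z ∈ U) (a b : E n) :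
    levi (fun y => g (Z y)) z a b = levi g (Z z) (fderiv ℂ Z z a) (fderiv ℂ Z z b) := by
  have hW := contDiffOn_cx hg
  have dZ : ∀ y ∈ U, DifferentiableAt ℂ Z y := fun y hy =>
    (hZ.contDiffAt (hU.mem_nhds hy)).differentiableAt (by simp)
  have h1 : (fun y => d01 (fun x => ((g (Z x) : ℝ) : ℂ)) y b) =ᶠ[𝓝 z]
      fun y => ∑ q, conj (fderiv ℂ Z y b q) * pb q (cx g) (Z y) := by
    filter_upwards [hU.mem_nhds hz] with y hy
    have h2 : d01 (fun x => ((g (Z x) : ℝ) : ℂ)) y b = d01 (cx g) (Z y) (fderiv ℂ Z y b) :=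
      CmpN_d01 (G := cx g) (dZ y hy) (diffAt_of hB hW (hm y hy)) b
    rw [h2, d01_eq_sum]
  have hT : ∀ q, DifferentiableAt ℂ (fun y => fderiv ℂ Z y b q) z := fun q =>
    CmpN_diffT hU hZ hz b q
  have hTr : ∀ q, DifferentiableAt ℝ (fun y => fderiv ℂ Z y b q) z := fun q =>
    (hT q).restrictScalars ℝ
  have dZr : DifferentiableAt ℝ Z z := (dZ z hz).restrictScalars ℝ
  have dP : ∀ q, DifferentiableAt ℝ (pb q (cx g)) (Z z) := fun q =>
    diffAt_of hB (contDiffOn_pb hB hW q) (hm z hz)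
  have dPc : ∀ q, DifferentiableAt ℝ (fun y => pb q (cx g) (Z y)) z := fun q =>
    (dP q).comp z dZr
  unfold levi
  rw [d10_congr h1]
  have h2 := d10_sum (z := z) (a := a) Finset.univ
    (fun q y => conj (fderiv ℂ Z y b q) * pb q (cx g) (Z y))
    (fun q _ => (conjd (hTr q)).mul (dPc q))
  rw [h2]
  have h3 : (fun y => d01 (fun x => ((g x : ℝ) : ℂ)) y (fderiv ℂ Z z b))
      = fun y => ∑ q, conj (fderiv ℂ Z z b q) * pb q (cx g) y := by
    funext y
    exact d01_eq_sum _ _ _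
  rw [h3]
  have h4 := d10_sum (z := Z z) (a := fderiv ℂ Z z a) Finset.univ
    (fun q y => conj (fderiv ℂ Z z b q) * pb q (cx g) y)
    (fun q _ => (dP q).const_mul _)
  rw [h4]
  refine Finset.sum_congr rfl fun q _ => ?_
  have h5 := d10_mul (z := z) (a := a) (conjd (hTr q)) (dPc q)
  have h6 := d10_conj (z := z) (a := a) (hTr q)
  have h7 := d01_of_diff (hT q) a
  have h8 := CmpN_d10 (G := pb q (cx g)) (dZ z hz) (dP q) a
  have h9 := d10_const_mul (z := Z z) (a := fderiv ℂ Z z a) (dP q) (conj (fderiv ℂ Z z b q))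
  rw [h5, h6, h7, h8, h9, map_zero, zero_mul, zero_add]

theorem emb_ker (h : Emb w U Z W B) (hz : z ∈ U) {a : E n} (ha : ∀ c, levi w z a c = 0)
    (c : E m) : levi W (Z z) (fderiv ℂ Z z a) c = 0 := by
  have hzB := h.maps z hz
  have hpsd : Psd (LM W (Z z)) := psd_of_levi h.op h.sm hzB (h.nonneg (Z z) hzB)
  have hat : ContDiffAt ℝ ∞ W (Z z) := h.sm.contDiffAt (h.op.mem_nhds hzB)
  have h0 : levi W (Z z) (fderiv ℂ Z z a) (fderiv ℂ Z z a) = 0 := by
    rw [← h.compat z hz]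
    exact ha a
  rw [levi_eq_sum hat] at h0
  have h1 := hpsd.ker (fderiv ℂ Z z a) (by
    have h2 : (∑ k, ∑ l, LM W (Z z) k l * fderiv ℂ Z z a k * conj (fderiv ℂ Z z a l))
        = ∑ k, ∑ l, fderiv ℂ Z z a k * conj (fderiv ℂ Z z a l) * LM W (Z z) k l :=
      Finset.sum_congr rfl fun k _ => Finset.sum_congr rfl fun l _ => by ring
    rw [h2, h0, Complex.zero_re])
  rw [levi_eq_sum hat, Finset.sum_comm]
  apply Finset.sum_eq_zero
  intro l _
  have h3 : ∑ k, fderiv ℂ Z z a k * conj (c l) * LM W (Z z) k l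
      = conj (c l) * ∑ k, LM W (Z z) k l * fderiv ℂ Z z a k := by
    rw [Finset.mul_sum]
    exact Finset.sum_congr rfl fun k _ => by ring
  rw [h3, h1 l, mul_zero]

private theorem CmpN_third_sum {w : E m → ℝ} {U : Set (E m)} (hU : IsOpen U)
    (hw : ContDiffOn ℝ ∞ w U) {z : E m} (hz : z ∈ U) (a c d : E m) :
    third w z a c d = ∑ p, ∑ q, a p * conj (c q) * d01 (fun y => LM w y p q) z d := by
  unfold third
  have h1 : (fun y => levi w y a c) =ᶠ[𝓝 z]
      fun y => ∑ p, ∑ q, a p * conj (c q) * LM w y p q := by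
    filter_upwards [hU.mem_nhds hz] with y hy
    exact levi_eq_sum (hw.contDiffAt (hU.mem_nhds hy)) a c
  have hd : ∀ p q, DifferentiableAt ℝ (fun y => LM w y p q) z := fun p q =>
    diffAt_of hU (contDiffOn_LM hU hw p q) hz
  rw [d01_congr h1]
  have h2 := d01_sum (z := z) (a := d) Finset.univ
    (fun p y => ∑ q, a p * conj (c q) * LM w y p q)
    (fun p _ => DifferentiableAt.fun_sum fun q _ => (hd p q).const_mul _)
  rw [h2]
  refine Finset.sum_congr rfl fun p _ => ?_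
  have h3 := d01_sum (z := z) (a := d) Finset.univ
    (fun q y => a p * conj (c q) * LM w y p q)
    (fun q _ => (hd p q).const_mul _)
  rw [h3]
  refine Finset.sum_congr rfl fun q _ => ?_
  exact d01_const_mul (hd p q) _

theorem emb_third (h : Emb w U Z W B) (hz : z ∈ U) {a : E n} (ha : ∀ c, levi w z a c = 0)
    (c d : E n) :
    third w z a c d
      = third W (Z z) (fderiv ℂ Z z a) (fderiv ℂ Z z c) (fderiv ℂ Z z d) := by
  have hU : IsOpen U := h.loc.op
  have hat : ∀ y ∈ U, ContDiffAt ℝ ∞ W (Z y) := fun y hy =>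
    h.sm.contDiffAt (h.op.mem_nhds (h.maps y hy))
  have hk : levi W (Z z) (fderiv ℂ Z z a) (fun q => d10 (fun y => fderiv ℂ Z y c q) z d) = 0 :=
    emb_ker h hz ha _
  have hmain : third w z a c d
      = levi W (Z z) (fderiv ℂ Z z a) (fun q => d10 (fun y => fderiv ℂ Z y c q) z d)
        + third W (Z z) (fderiv ℂ Z z a) (fderiv ℂ Z z c) (fderiv ℂ Z z d) := by
    rw [CmpN_third_sum h.op h.sm (h.maps z hz), levi_eq_sum (hat z hz)]
    unfold third
    have h1 : (fun y => levi w y a c) =ᶠ[𝓝 z]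
        fun y => ∑ p, ∑ q, fderiv ℂ Z y a p * conj (fderiv ℂ Z y c q)
          * LM W (Z y) p q := by
      filter_upwards [hU.mem_nhds hz] with y hy
      rw [h.compat y hy, levi_eq_sum (hat y hy)]
    have hφ : DifferentiableAt ℂ Z z :=
      (h.hol.contDiffAt (hU.mem_nhds hz)).differentiableAt (by simp)
    have hL : ∀ p q, DifferentiableAt ℝ (fun y => LM W y p q) (Z z) := fun p q =>
      diffAt_of h.op (contDiffOn_LM h.op h.sm p q) (h.maps z hz)
    have hLc : ∀ p q, DifferentiableAt ℝ (fun y => LM W (Z y) p q) z := fun p q =>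
      DifferentiableAt.comp (g := fun y => LM W y p q) z (hL p q)
        (hφ.restrictScalars ℝ)
    have hTa : ∀ (v : E n) p, DifferentiableAt ℝ (fun y => fderiv ℂ Z y v p) z :=
      fun v p => (CmpN_diffT hU h.hol hz v p).restrictScalars ℝ
    have hpq : ∀ p q, DifferentiableAt ℝ (fun y => fderiv ℂ Z y a p
        * conj (fderiv ℂ Z y c q) * LM W (Z y) p q) z := fun p q =>
      ((hTa a p).mul (conjd (hTa c q))).mul (hLc p q)
    rw [d01_congr h1]
    have h2 := d01_sum (z := z) (a := d) Finset.univ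
      (fun p y => ∑ q, fderiv ℂ Z y a p * conj (fderiv ℂ Z y c q)
          * LM W (Z y) p q)
      (fun p _ => DifferentiableAt.fun_sum fun q _ => hpq p q)
    rw [h2, ← Finset.sum_add_distrib]
    refine Finset.sum_congr rfl fun p _ => ?_
    have h3 := d01_sum (z := z) (a := d) Finset.univ
      (fun q y => fderiv ℂ Z y a p * conj (fderiv ℂ Z y c q)
          * LM W (Z y) p q)
      (fun q _ => hpq p q)
    rw [h3, ← Finset.sum_add_distrib]
    refine Finset.sum_congr rfl fun q _ => ?_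
    have h4 := d01_mul (z := z) (a := d) ((hTa a p).mul (conjd (hTa c q))) (hLc p q)
    have h5 := d01_mul (z := z) (a := d) (hTa a p) (conjd (hTa c q))
    have h6 := d01_conj (z := z) (a := d) (hTa c q)
    have h7 := d01_of_diff (CmpN_diffT hU h.hol hz a p) d
    have h8 := CmpN_d01 (G := fun y => LM W y p q) hφ (hL p q) d
    have h4' : d01 (fun y => fderiv ℂ Z y a p * conj (fderiv ℂ Z y c q)
        * LM W (Z y) p q) z d
        = d01 (fun y => fderiv ℂ Z y a p * conj (fderiv ℂ Z y c q)) z d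
          * LM W (Z z) p q
          + fderiv ℂ Z z a p * conj (fderiv ℂ Z z c q)
          * d01 (fun y => LM W (Z y) p q) z d := h4
    rw [h4', h5, h6, h7, h8]
    ring
  rw [hmain, hk, zero_add]

end Pool.Agent.NSK
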