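import Pool.Agent.NSK.GrmN

/-!
LclN (size 4): the inequality at a maximum. Same proof as `SKF.lcl` (file Pool/Agent/SKF/Lcl.lean by
helper21) with two changes: the constant vectors `bs i` are replaced by holomorphic vector fields (use
`smooth_gdN`, `grmN` instead of `smooth_gd`, `grm`), `θ` is only smooth on `U`, and there is a further factor
`normSq (f y)` with `f` holomorphic, `f z0 ≠ 0`: `log (normSq f)` is smooth near `z0` with
`levi (log (normSq f)) z0 v v = 0` (`lgt`: `d01 f z v = 0` by `d01_of_diff` and `mx f z v = 0`).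
-/

open scoped ContDiff ComplexConjugate Topology
open Complex

namespace Pool.Agent.NSK

open Pool.Agent.DTW Pool.Agent.SKF

variable {n : ℕ} {w : E n → ℝ} {U : Set (E n)}

theorem lclN (L : Loc w U) {z0 : E n} (hz : z0 ∈ U) (b0 : E n) {r : ℕ} (bs : Fin r → E n → E n)
    (hb : ∀ i, ContDiffOn ℂ ∞ (bs i) U)
    (θ : E n → ℝ) (hθ : ContDiffOn ℝ ∞ θ U) (hθ0 : 0 < θ z0)
    (f : E n → ℂ) (hf : ContDiffOn ℂ ∞ f U) (hf0 : f z0 ≠ 0) (κ : ℝ) (hκ : 0 < κ)
    (hN : 0 < (levi w z0 b0 b0).re) (hΘ : Bf w b0 b0 b0 z0 ≠ 0) (hg : 0 < gd w z0 fun i => bs i z0)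
    (hs : ∀ a : E n, ∃ t : Fin r → ℂ, ∀ c, levi w z0 (a - lc t fun i => bs i z0) c = 0)
    (hmax : ∀ᶠ y in 𝓝 z0, ∀ b : E n, 0 < (levi w y b b).re →
      Af w y b * (θ y * (gd w y fun i => bs i y) * Complex.normSq (f y)) ^ κ
        ≤ Af w z0 b0 * (θ z0 * (gd w z0 fun i => bs i z0) * Complex.normSq (f z0)) ^ κ) :
    3 * (Complex.normSq (Bf w b0 b0 b0 z0) / (levi w z0 b0 b0).re ^ 2)
      ≤ -(κ * (levi (fun y => Real.log (θ y)) z0 (XX w z0 b0) (XX w z0 b0)).re) := by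
  have hv : XX w z0 b0 ≠ 0 := lcl_ne L hz b0 hΘ
  obtain ⟨β, hβ⟩ := ex_bet L hz b0 b0
  obtain ⟨γ, hγ⟩ := ex_gam L hz b0 b0
  obtain ⟨δ, hδ⟩ := ex_del L hz hβ
  obtain ⟨jn1, jn2, jn3, jn4⟩ := jn L hz b0 β γ δ hv hβ hγ hδ
  obtain ⟨jt1, jt2, jt3⟩ := jt L hz b0 β δ hv hβ hδ
  set v := XX w z0 b0 with hvdef
  set b : E n → E n := bb z0 v b0 β δ with hb'
  have hb0 : b z0 = b0 := bb_self _ _ _ _ _
  set F : E n → ℂ := fun y => levi w y (b y) (b y) with hF
  set T : E n → ℂ := fun y => Bf w (b y) (b y) (b y) y with hT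
  set N : E n → ℝ := fun y => (F y).re with hNd
  have hcN : ∀ y ∈ U, cx N y = F y := by
    intro y hy
    exact (levi_self L hy (b y)).1.symm
  have hNs : ContDiffOn ℝ ∞ N U := Complex.reCLM.contDiff.comp_contDiffOn jn1
  have hFz : F z0 = levi w z0 b0 b0 := by
    show levi w z0 (b z0) (b z0) = _
    rw [hb0]
  have hNz : N z0 = (levi w z0 b0 b0).re := by
    show (F z0).re = _
    rw [hFz]
  have hTz : T z0 = Bf w b0 b0 b0 z0 := by
    show Bf w (b z0) (b z0) (b z0) z0 = _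
    rw [hb0]
  have hgs : ContDiffOn ℝ ∞ (fun y => gd w y fun i => bs i y) U := smooth_gdN L bs hb
  have hfr : ContDiffOn ℝ ∞ f U := hf.restrict_scalars ℝ
  -- the open neighbourhood
  set U1 : Set (E n) := (((U ∩ N ⁻¹' Set.Ioi 0) ∩ T ⁻¹' {0}ᶜ) ∩ θ ⁻¹' Set.Ioi 0) ∩
    (fun y => gd w y fun i => bs i y) ⁻¹' Set.Ioi 0 with hU1
  set U' : Set (E n) := U1 ∩ f ⁻¹' {0}ᶜ with hU'
  have hsub1 : U1 ⊆ U := fun y hy => hy.1.1.1.1
  have hsub : U' ⊆ U := fun y hy => hsub1 hy.1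
  have o1 : IsOpen (U ∩ N ⁻¹' Set.Ioi 0) := hNs.continuousOn.isOpen_inter_preimage L.op isOpen_Ioi
  have o2 : IsOpen ((U ∩ N ⁻¹' Set.Ioi 0) ∩ T ⁻¹' {0}ᶜ) :=
    (jt1.continuousOn.mono Set.inter_subset_left).isOpen_inter_preimage o1 isOpen_compl_singleton
  have o3 : IsOpen (((U ∩ N ⁻¹' Set.Ioi 0) ∩ T ⁻¹' {0}ᶜ) ∩ θ ⁻¹' Set.Ioi 0) :=
    (hθ.continuousOn.mono (fun y hy => hy.1.1)).isOpen_inter_preimage o2 isOpen_Ioi
  have o4' : IsOpen U1 :=
    (hgs.continuousOn.mono (fun y hy => hy.1.1.1)).isOpen_inter_preimage o3 isOpen_Ioi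
  have o4 : IsOpen U' :=
    (hfr.continuousOn.mono hsub1).isOpen_inter_preimage o4' isOpen_compl_singleton
  have hzU' : z0 ∈ U' := by
    refine ⟨⟨⟨⟨⟨hz, ?_⟩, ?_⟩, ?_⟩, ?_⟩, ?_⟩
    · show 0 < N z0
      rw [hNz]; exact hN
    · show T z0 ∈ ({0}ᶜ : Set ℂ)
      rw [hTz]; exact hΘ
    · exact hθ0
    · exact hg
    · exact hf0
  have pN : ∀ y ∈ U', 0 < N y := fun y hy => hy.1.1.1.1.2
  have pT : ∀ y ∈ U', T y ≠ 0 := fun y hy => hy.1.1.1.2
  have pθ : ∀ y ∈ U', 0 < θ y := fun y hy => hy.1.1.2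
  have pg : ∀ y ∈ U', 0 < gd w y fun i => bs i y := fun y hy => hy.1.2
  have pf : ∀ y ∈ U', f y ≠ 0 := fun y hy => hy.2
  have hdf : ∀ y ∈ U, d01 f y v = 0 := fun y hy =>
    d01_of_diff ((hf.contDiffAt (L.op.mem_nhds hy)).differentiableAt (by simp)) v
  have hmf : mx f z0 v = 0 := by
    have h1 : (fun y => d01 f y v) =ᶠ[𝓝 z0] fun _ => 0 := by
      filter_upwards [L.op.mem_nhds hz] with y hy
      exact hdf y hy
    have h2 : mx f z0 v = d10 (fun y => d01 f y v) z0 v := rfl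
    rw [h2, d10_congr h1]
    exact d10_const 0
  obtain ⟨sA, lA⟩ := lgt (v := v) o4 (jt1.mono hsub) pT hzU' (jt2) (jt3)
  obtain ⟨sB, lB⟩ := lgn (v := v) o4 (hNs.mono hsub) pN hzU'
  obtain ⟨sC, lC⟩ := lgn (v := v) o4 (hθ.mono hsub) pθ hzU'
  obtain ⟨sD, lD⟩ := lgn (v := v) o4 (hgs.mono hsub) pg hzU'
  obtain ⟨sE, lE⟩ := lgt (v := v) o4 (hfr.mono hsub) pf hzU' (hdf z0 hz) hmf
  have hnU : U ∈ 𝓝 z0 := L.op.mem_nhds hz
  have hcongr : cx N =ᶠ[𝓝 z0] F := by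
    filter_upwards [hnU] with y hy
    exact hcN y hy
  have e1 : mx (cx N) z0 v = -levi w z0 γ γ := by rw [mx_congr hcongr, jn4]
  have e2 : d10 (cx N) z0 v = 0 := by rw [d10_congr hcongr, jn2]
  have e3 : d01 (cx N) z0 v = 0 := by rw [d01_congr hcongr, jn3]
  rw [e1, e2, e3, mul_zero, zero_div, sub_zero] at lB
  -- the function psi
  have sAB : ContDiffOn ℝ ∞ (fun y => 1 * Real.log (Complex.normSq (T y)) +
      (-3) * Real.log (N y)) U' :=
    (contDiffOn_const.mul sA).add (contDiffOn_const.mul sB)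
  have sCD : ContDiffOn ℝ ∞ (fun y => 1 * Real.log (θ y) +
      1 * Real.log (gd w y fun i => bs i y)) U' :=
    (contDiffOn_const.mul sC).add (contDiffOn_const.mul sD)
  have sCDE : ContDiffOn ℝ ∞ (fun y => 1 * (1 * Real.log (θ y) +
      1 * Real.log (gd w y fun i => bs i y)) + 1 * Real.log (Complex.normSq (f y))) U' :=
    (contDiffOn_const.mul sCD).add (contDiffOn_const.mul sE)
  have sψ : ContDiffOn ℝ ∞ (fun y => 1 * (1 * Real.log (Complex.normSq (T y)) +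
      (-3) * Real.log (N y)) + κ * (1 * (1 * Real.log (θ y) +
      1 * Real.log (gd w y fun i => bs i y)) + 1 * Real.log (Complex.normSq (f y)))) U' :=
    (contDiffOn_const.mul sAB).add (contDiffOn_const.mul sCDE)
  have hpsi : ∀ y ∈ U', 1 * (1 * Real.log (Complex.normSq (T y)) +
      (-3) * Real.log (N y)) + κ * (1 * (1 * Real.log (θ y) +
      1 * Real.log (gd w y fun i => bs i y)) + 1 * Real.log (Complex.normSq (f y)))
      = Real.log (Af w y (b y) * (θ y * (gd w y fun i => bs i y) * Complex.normSq (f y)) ^ κ) := by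
    intro y hy
    have q1 : 0 < N y := pN y hy
    have q2 : 0 < Complex.normSq (T y) := Complex.normSq_pos.2 (pT y hy)
    have q3 : 0 < θ y := pθ y hy
    have q4 : 0 < gd w y fun i => bs i y := pg y hy
    have q5 : 0 < Complex.normSq (f y) := Complex.normSq_pos.2 (pf y hy)
    have hA : Af w y (b y) = Complex.normSq (T y) / (N y) ^ 3 := rfl
    rw [hA, Real.log_mul (by positivity) (by positivity), Real.log_div (by positivity)
      (by positivity), Real.log_pow, Real.log_rpow (by positivity),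
      Real.log_mul (by positivity) q5.ne', Real.log_mul q3.ne' q4.ne']
    push_cast
    ring
  have hlm : IsLocalMax (fun y => 1 * (1 * Real.log (Complex.normSq (T y)) +
      (-3) * Real.log (N y)) + κ * (1 * (1 * Real.log (θ y) +
      1 * Real.log (gd w y fun i => bs i y)) + 1 * Real.log (Complex.normSq (f y)))) z0 := by
    show ∀ᶠ y in 𝓝 z0, _ ≤ _
    filter_upwards [hmax, o4.mem_nhds hzU'] with y hy hyU
    rw [hpsi y hyU, hpsi z0 hzU']
    have q1 : 0 < N y := pN y hyU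
    have q2 : 0 < Complex.normSq (T y) := Complex.normSq_pos.2 (pT y hyU)
    have q3 : 0 < θ y := pθ y hyU
    have q4 : 0 < gd w y fun i => bs i y := pg y hyU
    have q5 : 0 < Complex.normSq (f y) := Complex.normSq_pos.2 (pf y hyU)
    have hA : Af w y (b y) = Complex.normSq (T y) / (N y) ^ 3 := rfl
    apply Real.log_le_log
    · rw [hA]; positivity
    · rw [hb0]
      exact hy (b y) q1
  have hlap := lap _ z0 v (sψ.contDiffAt (o4.mem_nhds hzU')) hlm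
  rw [lgr (v := v) o4 sAB sCDE hzU' 1 κ, lgr (v := v) o4 sA sB hzU' 1 (-3),
    lgr (v := v) o4 sCD sE hzU' 1 1,
    lgr (v := v) o4 sC sD hzU' 1 1, lA, lB, lE] at hlap
  have hgrm := grmN L hz b0 bs hb hg hs
  rw [← hvdef] at hgrm
  have hNz' : ((N z0 : ℝ) : ℂ) = (((levi w z0 b0 b0).re : ℝ) : ℂ) := by rw [hNz]
  rw [hNz'] at hlap
  have hgg := levi_self L hz γ
  set G : ℝ := (levi w z0 γ γ).re with hG
  set M : ℝ := (levi w z0 b0 b0).re with hM
  rw [hgg.1] at hlap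
  have hre : ((1 : ℝ) : ℂ) * (((1 : ℝ) : ℂ) * 0 + ((-3 : ℝ) : ℂ) * (-(G : ℂ) / (M : ℂ)))
      = ((3 * G / M : ℝ) : ℂ) := by
    push_cast
    ring
  rw [hre] at hlap
  have hre2 : (((3 * G / M : ℝ) : ℂ) + (κ : ℂ) * (((1 : ℝ) : ℂ) * (((1 : ℝ) : ℂ) *
      levi (fun y => Real.log (θ y)) z0 v v + ((1 : ℝ) : ℂ) *
      levi (fun y => Real.log (gd w y fun i => bs i y)) z0 v v) + ((1 : ℝ) : ℂ) * 0)).re
      = 3 * G / M + κ * ((levi (fun y => Real.log (θ y)) z0 v v).re +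
        (levi (fun y => Real.log (gd w y fun i => bs i y)) z0 v v).re) := by
    simp
  rw [hre2] at hlap
  have hcs := levi_cs L hz γ b0
  have hBg : levi w z0 γ b0 = Bf w b0 b0 b0 z0 := by
    rw [hγ b0, hvdef, d10_XX (L.sm.contDiffAt hnU)]
    rfl
  rw [hBg] at hcs
  have hMpos : 0 < M := hN
  have h5 : Complex.normSq (Bf w b0 b0 b0 z0) / M ^ 2 ≤ G / M := by
    rw [div_le_div_iff₀ (by positivity) hMpos]
    nlinarith
  have h6 : 0 ≤ κ * (levi (fun y => Real.log (gd w y fun i => bs i y)) z0 v v).re :=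
    mul_nonneg hκ.le hgrm
  have h7 : 3 * G / M = 3 * (G / M) := by ring
  rw [h7] at hlap
  nlinarith

end Pool.Agent.NSK
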