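import Pool.Agent.NSK.EmbO
import Pool.Agent.NSK.MinA

/-!
LwbN (size 4): at a maximal configuration the cut-off function is bounded below. (Compare `SKF.lwb`, file
Pool/Agent/SKF/Lwb.lean.)
Let `x0 = (A.c i0).symm z0` and `q` with `x0 ∈ interior (b q).K`, `ϑ = 1` (`hcov`). For every `j` let `u'_j` be the vector of
`hRb q0 q i0 z0` for `us0 j`, and `U'_p` for `Us0 p`; `us j = R⁻¹ • u'_j`, `Us p = R⁻¹ • U'_p` have norm `≤ 1`. By `hv_smul`,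
`hv_congr`: `hv (us j) (A.Z (b q).k i0) z0 = R⁻¹ • hv (us0 j) (A.Z (b q0).k i0) z0`, so
`gz (η.w i0) .. us z0 = R^(-2r) gz (η.w i0) .. us0 z0` (Gram matrix times `R⁻²`; `levi` is sesquilinear), and by `fz_smul`,
`fz_congr`: `fz .. Us z0 = R^(-2n) fz .. Us0 z0`. So `wei (b q) = R^(-2r-4n) gz0 normSq fz0 > 0`, it is a configuration of the box
`q` with `Af` unchanged: `lc t0 (R⁻¹ • hv ..) = R⁻¹ • lc t0 (hv ..)`, `Af_smul`. Maximality: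
`Af (R^(-2r-4n) gz0 nf0)^κ' ≤ Af (ϑ0 gz0 nf0)^κ'` with `Af > 0`, `gz0 nf0 > 0`, so `R^(-2r-4n) ≤ ϑ0`.
-/

open scoped ContDiff ComplexConjugate Topology
open Complex

namespace Pool.Agent.NSK

open Pool.Agent.DTW Pool.Agent.SKF

variable {n m : ℕ} {X : Type*} [TopologicalSpace X] {ι κ : Type*} {A : Space n m X ι κ}

theorem lwbN (η : Form A) {N : ℕ} (b : Fin N → Box A)
    (hcov : ∀ x : X, ∃ q, x ∈ interior (b q).K ∧ (b q).ϑ (A.ζ (b q).k x) = 1) (R : ℝ)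
    (hR : 1 ≤ R) (hRb : ∀ q q' : Fin N, ∀ i z, z ∈ (A.c i).target →
      (A.c i).symm z ∈ (b q).K → (A.c i).symm z ∈ (b q').K → ∀ u : E m, ∃ u' : E m,
        ‖u'‖ ≤ R * ‖u‖ ∧ ∀ a, d10 (pu u (A.Z (b q).k i)) z a = d10 (pu u' (A.Z (b q').k i)) z a)
    (κ' : ℝ) (hκ : 0 < κ') {r : ℕ} {q0 : Fin N} {i0 : ι} {z0 : E n} {us0 : Fin r → E m}
    {Us0 : Ix n → E m} {t0 : Fin r → ℂ} (h0 : Cfg η (b q0) i0 z0 us0 Us0 t0)
    (hpos : 0 < val η (b q0) κ' i0 z0 us0 Us0 t0)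
    (hmax : ∀ (q : Fin N) (i : ι) (z : E n) (us : Fin r → E m) (Us : Ix n → E m)
      (t : Fin r → ℂ), Cfg η (b q) i z us Us t →
        val η (b q) κ' i z us Us t ≤ val η (b q0) κ' i0 z0 us0 Us0 t0) :
    (R ^ (2 * r + 4 * n))⁻¹ ≤ (b q0).ϑ (A.Z (b q0).k i0 z0) := by
  classical
  have hz0 := h0.mem
  have hK0 := h0.memK
  obtain ⟨q, hxq, hθq⟩ := hcov ((A.c i0).symm z0)
  have hKq : (A.c i0).symm z0 ∈ (b q).K := interior_subset hxq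
  have hR0 : 0 < R := lt_of_lt_of_le one_pos hR
  have hRc : ((R⁻¹ : ℝ) : ℂ) ≠ 0 := by
    rw [Ne, Complex.ofReal_eq_zero]
    exact inv_ne_zero hR0.ne'
  have L : Loc (η.w i0) (A.c i0).target := loc_of η i0
  have hDq : z0 ∈ A.D (b q).k i0 := box_D (b q) hz0 hKq
  have hOq : IsOpen (A.D (b q).k i0) := D_open A (b q).k i0
  have hZq : ContDiffOn ℂ ∞ (A.Z (b q).k i0) (A.D (b q).k i0) := (emb_of η (b q).k i0).hol
  choose us' hus' hus'd using fun j => hRb q0 q i0 z0 hz0 hK0 hKq (us0 j)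
  choose Us' hUs' hUs'd using fun p => hRb q0 q i0 z0 hz0 hK0 hKq (Us0 p)
  have hle : ∀ u' : E m, ∀ u : E m, ‖u'‖ ≤ R * ‖u‖ → ‖u‖ ≤ 1 → ‖((R⁻¹ : ℝ) : ℂ) • u'‖ ≤ 1 := by
    intro u' u h1 h2
    rw [norm_smul, Complex.norm_real, Real.norm_of_nonneg (inv_nonneg.2 hR0.le)]
    have h3 : ‖u'‖ ≤ R := h1.trans (by nlinarith [h2])
    calc R⁻¹ * ‖u'‖ ≤ R⁻¹ * R := mul_le_mul_of_nonneg_left h3 (inv_nonneg.2 hR0.le)
      _ = 1 := inv_mul_cancel₀ hR0.ne'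
  have hhv : ∀ j, hv (((R⁻¹ : ℝ) : ℂ) • us' j) (A.Z (b q).k i0) z0
      = ((R⁻¹ : ℝ) : ℂ) • hv (us0 j) (A.Z (b q0).k i0) z0 := by
    intro j
    rw [hv_smul hOq hZq hDq, hv_congr (hus'd j)]
  have hgm : gm (η.w i0) z0 (fun j => hv (((R⁻¹ : ℝ) : ℂ) • us' j) (A.Z (b q).k i0) z0)
      = (((R⁻¹) ^ 2 : ℝ) : ℂ) • gm (η.w i0) z0 (fun j => hv (us0 j) (A.Z (b q0).k i0) z0) := by
    ext i j
    simp only [gm, Matrix.of_apply, Matrix.smul_apply, smul_eq_mul, hhv]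
    rw [levi_smul_left L hz0, levi_smul_right L hz0, Complex.conj_ofReal]
    push_cast
    ring
  have hgz : gz (η.w i0) (A.Z (b q).k i0) (fun j => ((R⁻¹ : ℝ) : ℂ) • us' j) z0
      = (R ^ (2 * r))⁻¹ * gz (η.w i0) (A.Z (b q0).k i0) us0 z0 := by
    unfold gz gd
    rw [hgm, Matrix.det_smul, Fintype.card_fin, ← Complex.ofReal_pow, Complex.re_ofReal_mul]
    congr 1
    rw [pow_mul, inv_pow, inv_pow]
  have hfz : Complex.normSq (fz (A.Z (b q).k i0) (fun p => ((R⁻¹ : ℝ) : ℂ) • Us' p) z0)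
      = (R ^ (4 * n))⁻¹ * Complex.normSq (fz (A.Z (b q0).k i0) Us0 z0) := by
    rw [fz_smul hOq hZq hDq, fz_congr hUs'd, Complex.normSq_mul, map_pow, Complex.normSq_ofReal]
    congr 1
    rw [← pow_two, ← pow_mul, inv_pow]
    congr 2
    ring
  have hlc : lc t0 (fun j => hv (((R⁻¹ : ℝ) : ℂ) • us' j) (A.Z (b q).k i0) z0)
      = ((R⁻¹ : ℝ) : ℂ) • lc t0 (fun j => hv (us0 j) (A.Z (b q0).k i0) z0) := by
    unfold lc
    rw [Finset.smul_sum]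
    refine Finset.sum_congr rfl ?_
    intro i _
    show t0 i • hv (((R⁻¹ : ℝ) : ℂ) • us' i) (A.Z (b q).k i0) z0
      = ((R⁻¹ : ℝ) : ℂ) • t0 i • hv (us0 i) (A.Z (b q0).k i0) z0
    rw [hhv i, smul_comm]
  have hAf : Af (η.w i0) z0 (lc t0 (fun j => hv (((R⁻¹ : ℝ) : ℂ) • us' j) (A.Z (b q).k i0) z0))
      = Af (η.w i0) z0 (lc t0 (fun j => hv (us0 j) (A.Z (b q0).k i0) z0)) := by
    rw [hlc, Af_smul L hz0 hRc]
  have hθ1 : (b q).ϑ (A.Z (b q).k i0 z0) = 1 := hθq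
  have hw1 : wei η (b q) i0 z0 (fun j => ((R⁻¹ : ℝ) : ℂ) • us' j)
      (fun p => ((R⁻¹ : ℝ) : ℂ) • Us' p)
      = (R ^ (2 * r + 4 * n))⁻¹ * (gz (η.w i0) (A.Z (b q0).k i0) us0 z0 *
        Complex.normSq (fz (A.Z (b q0).k i0) Us0 z0)) := by
    unfold wei
    rw [hθ1, hgz, hfz, pow_add, mul_inv]
    ring
  have hw0 : wei η (b q0) i0 z0 us0 Us0 = (b q0).ϑ (A.Z (b q0).k i0 z0) *
      (gz (η.w i0) (A.Z (b q0).k i0) us0 z0 *
        Complex.normSq (fz (A.Z (b q0).k i0) Us0 z0)) := by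
    unfold wei
    rw [mul_assoc]
  have hp0 := h0.pos
  have hg0 : 0 < gz (η.w i0) (A.Z (b q0).k i0) us0 z0 *
        Complex.normSq (fz (A.Z (b q0).k i0) Us0 z0) := by
    rw [hw0] at hp0
    rcases ((b q0).nonneg (A.Z (b q0).k i0 z0)).lt_or_eq with h | h
    · exact (mul_pos_iff_of_pos_left h).1 hp0
    · rw [← h, zero_mul] at hp0
      exact absurd hp0 (lt_irrefl _)
  have hp1 : 0 < wei η (b q) i0 z0 (fun j => ((R⁻¹ : ℝ) : ℂ) • us' j)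
      (fun p => ((R⁻¹ : ℝ) : ℂ) • Us' p) := by
    rw [hw1]
    positivity
  have hcfg : Cfg η (b q) i0 z0 (fun j => ((R⁻¹ : ℝ) : ℂ) • us' j)
      (fun p => ((R⁻¹ : ℝ) : ℂ) • Us' p) t0 :=
    { mem := hz0
      memK := hKq
      us_le := fun j => hle _ _ (hus' j) (h0.us_le j)
      Us_le := fun p => hle _ _ (hUs' p) (h0.Us_le p)
      t_ne := h0.t_ne
      pos := hp1 }
  have hm := hmax q i0 z0 _ _ t0 hcfg
  have hA : 0 < Af (η.w i0) z0 (lc t0 (fun j => hv (us0 j) (A.Z (b q0).k i0) z0)) := by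
    unfold val at hpos
    exact (mul_pos_iff_of_pos_right (Real.rpow_pos_of_pos hp0 κ')).1 hpos
  unfold val at hm
  rw [hAf] at hm
  have h1 := le_of_mul_le_mul_left hm hA
  have h2 := (Real.rpow_le_rpow_iff hp1.le hp0.le hκ).1 h1
  rw [hw1, hw0] at h2
  exact le_of_mul_le_mul_right h2 hg0

end Pool.Agent.NSK
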