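import Pool.Agent.NSK.Defs

/-!
RmxN (size 2): `SKF.rmx` (file Pool/Agent/SKF/Pol.lean, helper19) for a family of local data instead of a
bundle: same proof.
-/

open scoped ContDiff ComplexConjugate Topology
open Complex

namespace Pool.Agent.NSK

open Pool.Agent.DTW Pool.Agent.SKF

variable {n : ℕ} {ι : Type*}

private theorem RmxN_levi {U : Set (E n)} {w : E n → ℝ} (L : Loc w U) {z : E n} (hz : z ∈ U)
    (a b : E n) : hf (LM w z) a b = levi w z a b := by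
  rw [levi_eq_sum (L.sm.contDiffAt (L.op.mem_nhds hz))]
  rfl

private theorem RmxN_gd {U : Set (E n)} {w : E n → ℝ} (L : Loc w U) {z : E n} (hz : z ∈ U)
    {r : ℕ} (bs : Fin r → E n) :
    (Matrix.of fun i j => hf (LM w z) (bs i) (bs j)).det.re = gd w z bs := by
  have h : (Matrix.of fun i j => hf (LM w z) (bs i) (bs j)) = gm w z bs := by
    ext i j
    exact RmxN_levi L hz _ _
  rw [h]
  rfl

theorem rmxN (w : ι → E n → ℝ) (U : ι → Set (E n)) (L : ∀ i, Loc (w i) (U i))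
    (h : ∃ i, ∃ z ∈ U i, ∃ b, Bf (w i) b b b z ≠ 0) :
    ∃ r : ℕ, (∃ i, ∃ z ∈ U i, ∃ (bs : Fin r → E n) (t : Fin r → ℂ), t ≠ 0 ∧
        0 < gd (w i) z bs ∧ Bf (w i) (lc t bs) (lc t bs) (lc t bs) z ≠ 0) ∧
      ∀ i, ∀ z ∈ U i, (∃ b, Bf (w i) b b b z ≠ 0) → ∀ bs : Fin r → E n,
        0 < gd (w i) z bs → ∀ a : E n, ∃ t : Fin r → ℂ, ∀ c, levi (w i) z (a - lc t bs) c = 0 := by
  classical
  let Good : ℕ → Prop := fun r => ∃ i, ∃ z ∈ U i, (∃ b, Bf (w i) b b b z ≠ 0) ∧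
    ∃ bs : Fin r → E n, gd (w i) z bs ≠ 0
  have hle : ∀ r, Good r → r ≤ 2 * n := by
    rintro r ⟨i, z, hz, -, bs, hbs⟩
    refine gps_card ((L i).psd z hz) bs ?_
    rw [RmxN_gd (L i) hz]
    exact hbs
  have h0 : Good 0 := by
    obtain ⟨i, z, hz, b, hb⟩ := h
    refine ⟨i, z, hz, ⟨b, hb⟩, Fin.elim0, ?_⟩
    simp [gd, gm]
  have hg : Good (Nat.findGreatest Good (2 * n)) := Nat.findGreatest_spec (Nat.zero_le _) h0
  have hmax : ∀ k, Nat.findGreatest Good (2 * n) < k → ¬ Good k := by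
    intro k hk hgk
    exact Nat.findGreatest_is_greatest hk (hle k hgk) hgk
  generalize Nat.findGreatest Good (2 * n) = r at hg hmax
  have hspan : ∀ i, ∀ z ∈ U i, (∃ b, Bf (w i) b b b z ≠ 0) → ∀ bs : Fin r → E n,
      0 < gd (w i) z bs → ∀ a : E n, ∃ t : Fin r → ℂ, ∀ c, levi (w i) z (a - lc t bs) c = 0 := by
    intro i z hz hb bs hbs a
    obtain ⟨t, ht⟩ := gex ((L i).psd z hz) bs a (by rw [RmxN_gd (L i) hz]; exact hbs.ne') (by
      rw [RmxN_gd (L i) hz (Fin.snoc (α := fun _ => E n) bs a)]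
      by_contra hne
      exact hmax (r + 1) (Nat.lt_succ_self r) ⟨i, z, hz, hb, _, hne⟩)
    exact ⟨t, fun c => by rw [← RmxN_levi (L i) hz]; exact ht c⟩
  refine ⟨r, ?_, hspan⟩
  obtain ⟨i, z, hz, ⟨b, hb⟩, bs, hbs⟩ := hg
  have hpos : 0 < gd (w i) z bs := by
    have h1 := (gps_nonneg ((L i).psd z hz) bs).1
    rw [RmxN_gd (L i) hz] at h1
    exact lt_of_le_of_ne h1 (Ne.symm hbs)
  obtain ⟨t, ht⟩ := hspan i z hz ⟨b, hb⟩ bs hpos b
  have hB := (Af_ker (L i) hz ht).2.2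
  refine ⟨i, z, hz, bs, t, ?_, hpos, ?_⟩
  · rintro rfl
    apply hb
    rw [hB]
    have h0 : lc (0 : Fin r → ℂ) bs = (0 : ℂ) • (0 : E n) := by
      simp [lc]
    rw [h0, Bf_smul1 (L i) hz]
    simp
  · rw [← hB]
    exact hb

end Pool.Agent.NSK
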