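import Pool.Agent.NSK.CmpN
import Pool.Agent.NSK.EmbO

/-!
TlbN (size 3): `SKF.tlb` (file Pool/Agent/SKF/Tlb.lean) for the function `b.ϑ` on `E m` and `levi_cmp` for
`g = log ϑ` on the open set `{y | 0 < b.ϑ y}` and the map `A.Z b.k i` on the open set
`{y ∈ A.D b.k i | 0 < b.ϑ (A.Z b.k i y)}`.
-/

open scoped ContDiff ComplexConjugate Topology
open Complex

namespace Pool.Agent.NSK

open Pool.Agent.DTW Pool.Agent.SKF

variable {n m : ℕ} {X : Type*} [TopologicalSpace X] {ι κ : Type*} {A : Space n m X ι κ}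

theorem tlbN (b : Box A) (c0 : ℝ) (h0 : 0 < c0) : ∃ C : ℝ, 0 ≤ C ∧ ∀ i, ∀ z ∈ A.D b.k i,
    c0 ≤ b.ϑ (A.Z b.k i z) → ∀ v : E n, -(C * ‖fderiv ℂ (A.Z b.k i) z v‖ ^ 2)
      ≤ (levi (fun y => Real.log (b.ϑ (A.Z b.k i y))) z v v).re := by
  obtain ⟨C, hC0, hC⟩ := tlb b.ϑ b.smooth b.supp c0 h0
  refine ⟨C, hC0, fun i z hz hc v => ?_⟩
  have hZ : ContDiffOn ℂ ∞ (A.Z b.k i) (A.D b.k i) := A.holo b.k i
  have hB : IsOpen {y : E m | 0 < b.ϑ y} := isOpen_lt continuous_const b.smooth.continuous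
  have hU : IsOpen (A.D b.k i ∩ A.Z b.k i ⁻¹' {y : E m | 0 < b.ϑ y}) :=
    hZ.continuousOn.isOpen_inter_preimage (D_open A b.k i) hB
  have hg : ContDiffOn ℝ ∞ (fun y : E m => Real.log (b.ϑ y)) {y : E m | 0 < b.ϑ y} :=
    b.smooth.contDiffOn.log fun y hy => (show 0 < b.ϑ y from hy).ne'
  have hz' : z ∈ A.D b.k i ∩ A.Z b.k i ⁻¹' {y : E m | 0 < b.ϑ y} :=
    ⟨hz, lt_of_lt_of_le h0 hc⟩
  have h1 := levi_cmp hU (hZ.mono Set.inter_subset_left) hB hg (fun y hy => hy.2) hz' v v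
  rw [h1]
  exact hC (A.Z b.k i z) _ hc

end Pool.Agent.NSK
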