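import Pool.Agent.NSK.MxG
import Pool.Agent.NSK.LwbN
import Pool.Agent.NSK.LclN
import Pool.Agent.NSK.TlbN
import Pool.Agent.NSK.RmxN
import Pool.Agent.NSK.BoxE
import Pool.Agent.NSK.Cmb

/-!
FinN (size 5): the cubic form vanishes on the regular part. (Compare `SKF.fin_Bf`, file
Pool/Agent/SKF/Fin.lean, by helper68.)
* `finC`: for a given `κ' ∈ (0, 1]` and a maximal configuration `(q0, i0, z0, us0, Us0, t0)`, with
  `b0 = lc t0 (hv (us0 j) Z z0)`, `Z = A.Z (b q0).k i0`: `Af (η.w i0) z0 b0 ≤ κ' * C2 * C1 / 3` where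
  `‖DZ (XX w z0 b0)‖² ≤ C1 (levi w z0 b0 b0).re` (`bndX`) and `C2` is the constant of `tlbN` for `c0 = (R^(2r+4n))⁻¹`.
  Proof: `lclN` on the open set `U = {y ∈ A.D k i0 | (A.c i0).symm y ∈ interior (b q0).K}` with `bs j = hv (us0 j) Z`,
  `θ = ϑ ∘ Z`, `f = fz Z Us0`. `hmax` of `lclN`: for `y` near `z0` (in `U`, `0 < wei` at `y` by continuity) and `b'` with
  `0 < levi w y b' b'`: if `Bf w b' b' b' y = 0` the left side is 0; otherwise `rmxN` gives `t` with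
  `levi w y (b' - lc t (hv (us0 j) Z y)) . = 0`, `t ≠ 0`, `Af w y b' = Af w y (lc t ..)` (`Af_ker`), a configuration.
  `hs` of `lclN` at `z0` is `rmxN`. `hN`, `hΘ`: (`hpos`) the value is positive, so `Af > 0`.
* `fin_BfN`: suppose `Bf (η.w i) b b b z ≠ 0` somewhere (otherwise `SKF.pol` gives the claim). Take `r`, `i1`, `z1`, `bs`, `t1` from
  `rmxN` for the family `η.w`, `(A.c i).target` (`loc_of`), the boxes (`ex_boxes`), `R` = maximum of the constants of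
  `cmb` for all pairs. Choose `q1` with `x1 = (A.c i1).symm z1 ∈ interior (b q1).K`, `ϑ = 1`; `J` from `immersion` and
  `Us1 p = e (J p)` (`fz_eq`, norm `≤ 1`); `bs j = hv u_j Z z1` (`hv_surj`), `us1 j = u_j / c` with `c ≥ 1`, `c ≥ ‖u_j‖`;
  `lc t1 (hv (us1 j)) = c⁻¹ • lc t1 bs` (`hv_smul`), so the configuration has `Af = A1 > 0` (`Af_smul`; `gps_pd`), `wei = W1 > 0`.
  For `κ' ∈ (0,1]`: `mxG`, `lwbN`, `finC`: `A1 W1^κ' ≤ (κ' C1 C2 / 3) G^κ' ≤ (κ' C1 C2 / 3) G` (`mxG0`, `G ≥ 1`, constants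
  independent of `κ'`, maxima over `q`). Let `κ' → 0`: `A1 ≤ 0`, contradiction (as in `SKF.fin_Bf`).
-/

open scoped ContDiff ComplexConjugate Topology
open Complex

namespace Pool.Agent.NSK

open Pool.Agent.DTW Pool.Agent.SKF

variable {n m : ℕ} {X : Type*} [TopologicalSpace X] {ι κ : Type*} {A : Space n m X ι κ}

private theorem FinN_hf {w : E n → ℝ} {U : Set (E n)} (L : Loc w U) {z : E n} (hz : z ∈ U)
    (a b : E n) : levi w z a b = hf (LM w z) a b := by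
  rw [levi_eq_sum (L.sm.contDiffAt (L.op.mem_nhds hz))]
  rfl

private theorem FinN_pd {w : E n → ℝ} {U : Set (E n)} (L : Loc w U) {z : E n} (hz : z ∈ U)
    {r : ℕ} (bs : Fin r → E n) (hg : 0 < gd w z bs) (t : Fin r → ℂ) (ht : t ≠ 0) :
    0 < (levi w z (lc t bs) (lc t bs)).re := by
  rw [FinN_hf L hz]
  apply gps_pd (L.psd z hz) bs _ t ht
  have h : (Matrix.of fun i j => hf (LM w z) (bs i) (bs j)) = gm w z bs := by
    ext i j
    simp only [gm, Matrix.of_apply]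
    rw [FinN_hf L hz]
  rw [h]
  exact hg.ne'

private theorem FinN_Af_pos {w : E n → ℝ} {U : Set (E n)} (L : Loc w U) {z : E n} (hz : z ∈ U)
    {r : ℕ} (bs : Fin r → E n) (hg : 0 < gd w z bs) (t : Fin r → ℂ) (ht : t ≠ 0)
    (hB : Bf w (lc t bs) (lc t bs) (lc t bs) z ≠ 0) : 0 < Af w z (lc t bs) := by
  unfold Af
  have h1 := FinN_pd L hz bs hg t ht
  have h2 : 0 < Complex.normSq (Bf w (lc t bs) (lc t bs) (lc t bs) z) := Complex.normSq_pos.2 hB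
  positivity

/-- the factors of a positive weight are positive -/
private theorem FinN_wei {η : Form A} {b : Box A} {r : ℕ} {i : ι} {z : E n} {us : Fin r → E m}
    {Us : Ix n → E m} (h : 0 < wei η b i z us Us) :
    0 < b.ϑ (A.Z b.k i z) ∧ 0 < gz (η.w i) (A.Z b.k i) us z ∧ fz (A.Z b.k i) Us z ≠ 0 := by
  unfold wei at h
  have h1 : 0 < b.ϑ (A.Z b.k i z) * gz (η.w i) (A.Z b.k i) us z :=
    pos_of_mul_pos_left h (Complex.normSq_nonneg _)
  have h2 : 0 < Complex.normSq (fz (A.Z b.k i) Us z) := (mul_pos_iff_of_pos_left h1).1 h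
  have h3 : 0 < gz (η.w i) (A.Z b.k i) us z := pos_of_mul_pos_right h1 (b.nonneg _)
  exact ⟨(mul_pos_iff_of_pos_right h3).1 h1, h3, Complex.normSq_pos.1 h2⟩

theorem finC (η : Form A) {N : ℕ} (b : Fin N → Box A) {κ' : ℝ} (hκ : 0 < κ') {r : ℕ}
    (hr : ∀ i, ∀ z ∈ (A.c i).target, (∃ v, Bf (η.w i) v v v z ≠ 0) → ∀ bs : Fin r → E n,
      0 < gd (η.w i) z bs → ∀ a : E n, ∃ t : Fin r → ℂ, ∀ c, levi (η.w i) z (a - lc t bs) c = 0)
    {q0 : Fin N} {i0 : ι} {z0 : E n} {us0 : Fin r → E m}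
    {Us0 : Ix n → E m} {t0 : Fin r → ℂ} (h0 : Cfg η (b q0) i0 z0 us0 Us0 t0)
    (hI : (A.c i0).symm z0 ∈ interior (b q0).K)
    (hpos : 0 < val η (b q0) κ' i0 z0 us0 Us0 t0)
    (hmax : ∀ (q : Fin N) (i : ι) (z : E n) (us : Fin r → E m) (Us : Ix n → E m)
      (t : Fin r → ℂ), Cfg η (b q) i z us Us t →
        val η (b q) κ' i z us Us t ≤ val η (b q0) κ' i0 z0 us0 Us0 t0) {C1 C2 : ℝ}
    (hC1 : ‖fderiv ℂ (A.Z (b q0).k i0) z0 (XX (η.w i0) z0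
      (lc t0 fun j => hv (us0 j) (A.Z (b q0).k i0) z0))‖ ^ 2
      ≤ C1 * (levi (η.w i0) z0 (lc t0 fun j => hv (us0 j) (A.Z (b q0).k i0) z0)
        (lc t0 fun j => hv (us0 j) (A.Z (b q0).k i0) z0)).re) (hC20 : 0 ≤ C2)
    (hC2 : ∀ v : E n, -(C2 * ‖fderiv ℂ (A.Z (b q0).k i0) z0 v‖ ^ 2)
      ≤ (levi (fun y => Real.log ((b q0).ϑ (A.Z (b q0).k i0 y))) z0 v v).re) :
    Af (η.w i0) z0 (lc t0 fun j => hv (us0 j) (A.Z (b q0).k i0) z0) ≤ κ' * C2 * C1 / 3 := by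
  have hE := emb_of η (b q0).k i0
  have hD : IsOpen (A.D (b q0).k i0) := D_open A _ _
  have hDt : A.D (b q0).k i0 ⊆ (A.c i0).target := fun y hy => hy.1
  obtain ⟨U, hUd⟩ : ∃ U : Set (E n),
    U = A.D (b q0).k i0 ∩ (A.c i0).symm ⁻¹' interior (b q0).K := ⟨_, rfl⟩
  have hUo : IsOpen U := by
    rw [hUd]
    exact ((A.c i0).continuousOn_symm.mono hDt).isOpen_inter_preimage hD isOpen_interior
  have hUD : U ⊆ A.D (b q0).k i0 := by
    rw [hUd]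
    exact Set.inter_subset_left
  have hUK : ∀ y ∈ U, (A.c i0).symm y ∈ (b q0).K := by
    intro y hy
    rw [hUd] at hy
    exact interior_subset hy.2
  have hz0U : z0 ∈ U := by
    rw [hUd]
    exact ⟨box_D (b q0) h0.mem h0.memK, hI⟩
  have L : Loc (η.w i0) U := ⟨hUo, hE.loc.sm.mono hUD, fun z hz => hE.loc.psd z (hUD hz),
    fun z hz => hE.loc.iso z (hUD hz)⟩
  have hZ : ContDiffOn ℂ ∞ (A.Z (b q0).k i0) U := hE.hol.mono hUD
  obtain ⟨hθ0, hg0, hf0⟩ := FinN_wei h0.pos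
  have hbs : ∀ j, ContDiffOn ℂ ∞ ((fun j y => hv (us0 j) (A.Z (b q0).k i0) y :
      Fin r → E n → E n) j) U := fun j => hv_hol hUo hZ (us0 j)
  have hθs : ContDiffOn ℝ ∞ (fun y => (b q0).ϑ (A.Z (b q0).k i0 y)) U :=
    (b q0).smooth.comp_contDiffOn (hZ.restrict_scalars ℝ)
  have hfs : ContDiffOn ℂ ∞ (fz (A.Z (b q0).k i0) Us0) U := fz_hol hUo hZ Us0
  have hN := FinN_pd L hz0U _ hg0 t0 h0.t_ne
  have hA0 : 0 < Af (η.w i0) z0 (lc t0 fun j => hv (us0 j) (A.Z (b q0).k i0) z0) := by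
    unfold val at hpos
    exact (mul_pos_iff_of_pos_right (Real.rpow_pos_of_pos h0.pos κ')).1 hpos
  have hΘ : Bf (η.w i0) (lc t0 fun j => hv (us0 j) (A.Z (b q0).k i0) z0)
      (lc t0 fun j => hv (us0 j) (A.Z (b q0).k i0) z0)
      (lc t0 fun j => hv (us0 j) (A.Z (b q0).k i0) z0) z0 ≠ 0 := by
    intro hB0
    simp only [Af, hB0, map_zero, zero_div] at hA0
    exact lt_irrefl _ hA0
  have hs := hr i0 z0 h0.mem ⟨_, hΘ⟩ _ hg0
  have hWc : ContinuousAt (fun y => wei η (b q0) i0 y us0 Us0) z0 := by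
    have k1 : ContinuousOn (fun y => wei η (b q0) i0 y us0 Us0) U :=
      (hθs.continuousOn.mul (smooth_gdN L _ hbs).continuousOn).mul
        (Complex.continuous_normSq.comp_continuousOn hfs.continuousOn)
    exact k1.continuousAt (hUo.mem_nhds hz0U)
  have hev : ∀ᶠ y in 𝓝 z0, ∀ b' : E n, 0 < (levi (η.w i0) y b' b').re →
      Af (η.w i0) y b' * ((b q0).ϑ (A.Z (b q0).k i0 y) *
        (gd (η.w i0) y fun j => hv (us0 j) (A.Z (b q0).k i0) y) *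
        Complex.normSq (fz (A.Z (b q0).k i0) Us0 y)) ^ κ' ≤
      Af (η.w i0) z0 (lc t0 fun j => hv (us0 j) (A.Z (b q0).k i0) z0) *
        ((b q0).ϑ (A.Z (b q0).k i0 z0) *
        (gd (η.w i0) z0 fun j => hv (us0 j) (A.Z (b q0).k i0) z0) *
        Complex.normSq (fz (A.Z (b q0).k i0) Us0 z0)) ^ κ' := by
    filter_upwards [hUo.mem_nhds hz0U, hWc.eventually (lt_mem_nhds h0.pos)] with y hy hWy b' hb'
    obtain ⟨_, hgy, _⟩ := FinN_wei hWy
    by_cases hBb : Bf (η.w i0) b' b' b' y = 0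
    · have h1 : Af (η.w i0) y b' = 0 := by
        simp only [Af, hBb, map_zero, zero_div]
      rw [h1, zero_mul]
      exact hpos.le
    · obtain ⟨t, ht⟩ := hr i0 y (hDt (hUD hy)) ⟨b', hBb⟩ _ hgy b'
      obtain ⟨k1, k2, k3⟩ := Af_ker L hy ht
      have htne : t ≠ 0 := by
        intro ht0'
        rw [k2] at hb'
        have h2 : (lc t fun j => hv (us0 j) (A.Z (b q0).k i0) y) = 0 := by
          unfold lc
          simp [ht0']
        rw [h2] at hb'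
        have h00 : levi (η.w i0) y (0 : E n) 0 = 0 := d10_zero_vec _ _
        rw [h00] at hb'
        simp at hb'
      rw [k1]
      exact hmax q0 i0 y us0 Us0 t ⟨hDt (hUD hy), hUK y hy, h0.us_le, h0.Us_le, htne, hWy⟩
  have hl := lclN L hz0U (lc t0 fun j => hv (us0 j) (A.Z (b q0).k i0) z0)
    (fun j y => hv (us0 j) (A.Z (b q0).k i0) y) hbs
    (fun y => (b q0).ϑ (A.Z (b q0).k i0 y)) hθs hθ0 (fz (A.Z (b q0).k i0) Us0) hfs hf0 κ' hκ
    hN hΘ hg0 hs hev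
  have ht := hC2 (XX (η.w i0) z0 (lc t0 fun j => hv (us0 j) (A.Z (b q0).k i0) z0))
  set N0 := (levi (η.w i0) z0 (lc t0 fun j => hv (us0 j) (A.Z (b q0).k i0) z0)
    (lc t0 fun j => hv (us0 j) (A.Z (b q0).k i0) z0)).re with hN0
  set Θ2 := Complex.normSq (Bf (η.w i0) (lc t0 fun j => hv (us0 j) (A.Z (b q0).k i0) z0)
      (lc t0 fun j => hv (us0 j) (A.Z (b q0).k i0) z0)
      (lc t0 fun j => hv (us0 j) (A.Z (b q0).k i0) z0) z0) with hΘ2
  set V := ‖fderiv ℂ (A.Z (b q0).k i0) z0 (XX (η.w i0) z0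
      (lc t0 fun j => hv (us0 j) (A.Z (b q0).k i0) z0))‖ ^ 2 with hV
  set Lv := (levi (fun y => Real.log ((b q0).ϑ (A.Z (b q0).k i0 y))) z0
    (XX (η.w i0) z0 (lc t0 fun j => hv (us0 j) (A.Z (b q0).k i0) z0))
    (XX (η.w i0) z0 (lc t0 fun j => hv (us0 j) (A.Z (b q0).k i0) z0))).re with hLv
  have s1 : C2 * V ≤ C2 * (C1 * N0) := mul_le_mul_of_nonneg_left hC1 hC20
  have s2 : 3 * (Θ2 / N0 ^ 2) ≤ κ' * (C2 * (C1 * N0)) := by
    refine hl.trans ?_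
    have u2 : -Lv ≤ C2 * (C1 * N0) := by linarith
    rw [← mul_neg]
    exact mul_le_mul_of_nonneg_left u2 hκ.le
  have e1 : Af (η.w i0) z0 (lc t0 fun j => hv (us0 j) (A.Z (b q0).k i0) z0)
      = Θ2 / N0 ^ 2 / N0 := by
    rw [div_div, ← pow_succ]
    rfl
  rw [e1, div_le_iff₀ hN]
  nlinarith [s2]

theorem fin_BfN [CompactSpace X] [T2Space X] (η : Form A) :
    ∀ i, ∀ z ∈ (A.c i).target, ∀ b c d : E n, Bf (η.w i) b c d z = 0 := by
  intro i z hz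
  by_cases h : ∃ i, ∃ z ∈ (A.c i).target, ∃ b, Bf (η.w i) b b b z ≠ 0
  swap
  · have h' : ∀ b, Bf (η.w i) b b b z = 0 := by
      intro b
      by_contra hb
      exact h ⟨i, z, hz, b, hb⟩
    exact pol (loc_of η i) hz h'
  exfalso
  obtain ⟨r, ⟨i1, z1, hz1, bs, t1, ht1, hg1, hB1⟩, hrm⟩ :=
    rmxN η.w (fun i => (A.c i).target) (loc_of η) h
  obtain ⟨N, b, hcov⟩ := ex_boxes A
  choose Rf hRf1 hRf using fun q q' : Fin N => cmb (b q) (b q')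
  obtain ⟨R, hRd⟩ : ∃ R : ℝ, R = 1 + ∑ q, ∑ q', Rf q q' := ⟨_, rfl⟩
  have hRf0 : ∀ q q', 0 ≤ Rf q q' := fun q q' => zero_le_one.trans (hRf1 q q')
  have hR1 : 1 ≤ R := by
    rw [hRd]
    have : 0 ≤ ∑ q, ∑ q', Rf q q' :=
      Finset.sum_nonneg fun q _ => Finset.sum_nonneg fun q' _ => hRf0 q q'
    linarith
  have hRle : ∀ q q', Rf q q' ≤ R := by
    intro q q'
    rw [hRd]
    have k1 : Rf q q' ≤ ∑ q', Rf q q' :=
      Finset.single_le_sum (f := fun q' => Rf q q') (fun q' _ => hRf0 q q') (Finset.mem_univ q')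
    have k2 : ∑ q', Rf q q' ≤ ∑ q, ∑ q', Rf q q' :=
      Finset.single_le_sum (f := fun q => ∑ q', Rf q q')
        (fun q _ => Finset.sum_nonneg fun q' _ => hRf0 q q') (Finset.mem_univ q)
    linarith
  have hRb : ∀ q q' : Fin N, ∀ i z, z ∈ (A.c i).target →
      (A.c i).symm z ∈ (b q).K → (A.c i).symm z ∈ (b q').K → ∀ u : E m, ∃ u' : E m,
        ‖u'‖ ≤ R * ‖u‖ ∧ ∀ a, d10 (pu u (A.Z (b q).k i)) z a
          = d10 (pu u' (A.Z (b q').k i)) z a := by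
    intro q q' i z hz hK hK' u
    obtain ⟨u', hu', he⟩ := hRf q q' i z hz hK hK' u
    exact ⟨u', hu'.trans (mul_le_mul_of_nonneg_right (hRle q q') (norm_nonneg _)), he⟩
  -- the starting configuration
  obtain ⟨q1, hx1, hθ1⟩ := hcov ((A.c i1).symm z1)
  have hK1 : (A.c i1).symm z1 ∈ (b q1).K := interior_subset hx1
  have hD1 : z1 ∈ A.D (b q1).k i1 := box_D (b q1) hz1 hK1
  have hE1 := emb_of η (b q1).k i1
  have hDo : IsOpen (A.D (b q1).k i1) := D_open A _ _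
  obtain ⟨J, hJ⟩ := A.immersion (b q1).k i1 z1 hz1 ((b q1).sub hK1)
  have hf1 : fz (A.Z (b q1).k i1) (fun p => e (J p)) z1 ≠ 0 := by
    rw [fz_eq]
    exact hJ
  choose u hu using fun j => hv_surj hDo hE1.hol hD1 hf1 (bs j)
  obtain ⟨Kc, hKc⟩ : ∃ Kc : ℝ, Kc = 1 + ∑ j, ‖u j‖ := ⟨_, rfl⟩
  have hKc0 : 0 < Kc := by
    rw [hKc]
    positivity
  have hKcc : ((Kc⁻¹ : ℝ) : ℂ) ≠ 0 := by
    rw [Ne, Complex.ofReal_eq_zero]
    exact inv_ne_zero hKc0.ne'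
  obtain ⟨us1, hus1⟩ : ∃ us1 : Fin r → E m, us1 = fun j => ((Kc⁻¹ : ℝ) : ℂ) • u j := ⟨_, rfl⟩
  have hus1le : ∀ j, ‖us1 j‖ ≤ 1 := by
    intro j
    rw [hus1]
    show ‖((Kc⁻¹ : ℝ) : ℂ) • u j‖ ≤ 1
    rw [norm_smul, Complex.norm_real, Real.norm_of_nonneg (inv_nonneg.2 hKc0.le)]
    have h1 : ‖u j‖ ≤ Kc := by
      have h2 : ‖u j‖ ≤ ∑ j, ‖u j‖ :=
        Finset.single_le_sum (f := fun j => ‖u j‖) (fun _ _ => norm_nonneg _) (Finset.mem_univ j)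
      rw [hKc]
      linarith
    calc Kc⁻¹ * ‖u j‖ ≤ Kc⁻¹ * Kc := mul_le_mul_of_nonneg_left h1 (inv_nonneg.2 hKc0.le)
      _ = 1 := inv_mul_cancel₀ hKc0.ne'
  have hhv : ∀ j, hv (us1 j) (A.Z (b q1).k i1) z1 = ((Kc⁻¹ : ℝ) : ℂ) • bs j := by
    intro j
    rw [hus1]
    show hv (((Kc⁻¹ : ℝ) : ℂ) • u j) (A.Z (b q1).k i1) z1 = _
    rw [hv_smul hDo hE1.hol hD1, ← hu j]
  have hUs1le : ∀ p, ‖(e (J p) : E m)‖ ≤ 1 := by
    intro p
    rw [pi_norm_le_iff_of_nonneg zero_le_one]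
    intro k
    unfold e
    by_cases hk : k = J p
    · subst hk
      simp
    · rw [Pi.single_eq_of_ne hk]
      simp
  have hgz1 : 0 < gz (η.w i1) (A.Z (b q1).k i1) us1 z1 := by
    unfold gz
    simp_rw [hhv]
    have e1 : gm (η.w i1) z1 (fun j => ((Kc⁻¹ : ℝ) : ℂ) • bs j)
        = (((Kc⁻¹) ^ 2 : ℝ) : ℂ) • gm (η.w i1) z1 bs := by
      ext i j
      simp only [gm, Matrix.of_apply, Matrix.smul_apply, smul_eq_mul]
      rw [levi_smul_left (loc_of η i1) hz1, levi_smul_right (loc_of η i1) hz1,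
        Complex.conj_ofReal]
      push_cast
      ring
    unfold gd at hg1 ⊢
    rw [e1, Matrix.det_smul, Fintype.card_fin, ← Complex.ofReal_pow, Complex.re_ofReal_mul]
    positivity
  have hl1 : (lc t1 fun j => hv (us1 j) (A.Z (b q1).k i1) z1)
      = ((Kc⁻¹ : ℝ) : ℂ) • lc t1 bs := by
    simp_rw [hhv]
    unfold lc
    rw [Finset.smul_sum]
    refine Finset.sum_congr rfl ?_
    intro i _
    rw [smul_comm]
  obtain ⟨A1, hA1d⟩ : ∃ A1 : ℝ, A1 = Af (η.w i1) z1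
    (lc t1 fun j => hv (us1 j) (A.Z (b q1).k i1) z1) := ⟨_, rfl⟩
  have hA1 : 0 < A1 := by
    rw [hA1d, hl1, Af_smul (loc_of η i1) hz1 hKcc]
    exact FinN_Af_pos (loc_of η i1) hz1 bs hg1 t1 ht1 hB1
  obtain ⟨W1, hW1d⟩ : ∃ W1 : ℝ, W1 = wei η (b q1) i1 z1 us1 (fun p => e (J p)) := ⟨_, rfl⟩
  have hW1 : 0 < W1 := by
    rw [hW1d]
    unfold wei
    have k1 : (b q1).ϑ (A.Z (b q1).k i1 z1) = 1 := hθ1
    rw [k1, one_mul]
    exact mul_pos hgz1 (Complex.normSq_pos.2 hf1)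
  have hcfg : Cfg η (b q1) i1 z1 us1 (fun p => e (J p)) t1 :=
    ⟨hz1, hK1, hus1le, hUs1le, ht1, by rw [← hW1d]; exact hW1⟩
  -- constants
  have hc0 : 0 < (R ^ (2 * r + 4 * n))⁻¹ := by
    have : 0 < R := lt_of_lt_of_le one_pos hR1
    positivity
  have hX : ∀ q : Fin N, ∃ C1 : ℝ, 0 ≤ C1 ∧ ∀ i z, z ∈ (A.c i).target →
      (A.c i).symm z ∈ (b q).K → ∀ v : E n,
      ‖fderiv ℂ (A.Z (b q).k i) z (XX (η.w i) z v)‖ ^ 2 ≤ C1 * (levi (η.w i) z v v).re := by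
    intro q
    obtain ⟨P, hP0, hP⟩ := unif_P (b q)
    obtain ⟨H, hH0, hH⟩ := unif_H η (b q)
    refine ⟨H * (2 * m * P) ^ 2, by positivity, fun i z hz hK v => ?_⟩
    exact bndX (emb_of η (b q).k i) (box_D (b q) hz hK) hP0 hH0 (hP i z hz hK)
      (fun a => hH _ hK a) v
  choose C1f hC10 hC1 using hX
  choose C2f hC20 hC2 using fun q : Fin N => tlbN (b q) _ hc0
  choose Gf hG1 hG using fun q : Fin N => mxG0 η (b q) r
  obtain ⟨C1, hC1d⟩ : ∃ C1 : ℝ, C1 = ∑ q, C1f q := ⟨_, rfl⟩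
  obtain ⟨C2, hC2d⟩ : ∃ C2 : ℝ, C2 = ∑ q, C2f q := ⟨_, rfl⟩
  obtain ⟨G, hGd⟩ : ∃ G : ℝ, G = 1 + ∑ q, Gf q := ⟨_, rfl⟩
  have hC1n : 0 ≤ C1 := by rw [hC1d]; exact Finset.sum_nonneg fun q _ => hC10 q
  have hC2n : 0 ≤ C2 := by rw [hC2d]; exact Finset.sum_nonneg fun q _ => hC20 q
  have hC1q : ∀ q, C1f q ≤ C1 := fun q => by
    rw [hC1d]
    exact Finset.single_le_sum (f := C1f) (fun q _ => hC10 q) (Finset.mem_univ q)
  have hC2q : ∀ q, C2f q ≤ C2 := fun q => by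
    rw [hC2d]
    exact Finset.single_le_sum (f := C2f) (fun q _ => hC20 q) (Finset.mem_univ q)
  have hGf0 : ∀ q, 0 ≤ Gf q := fun q => zero_le_one.trans (hG1 q)
  have hGn : 1 ≤ G := by
    rw [hGd]
    have := Finset.sum_nonneg (s := Finset.univ) (f := Gf) fun q _ => hGf0 q
    linarith
  have hGq : ∀ q, Gf q ≤ G := fun q => by
    rw [hGd]
    have := Finset.single_le_sum (f := Gf) (fun q _ => hGf0 q) (Finset.mem_univ q)
    linarith
  have main : ∀ κ' : ℝ, 0 < κ' → κ' ≤ 1 → A1 * min W1 1 ≤ κ' * C1 * C2 / 3 * G := by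
    intro κ' hκ hκ1
    have hpos1 : 0 < val η (b q1) κ' i1 z1 us1 (fun p => e (J p)) t1 := by
      unfold val
      rw [← hA1d, ← hW1d]
      exact mul_pos hA1 (Real.rpow_pos_of_pos hW1 κ')
    obtain ⟨q0, i0, z0, us0, Us0, t0, h0, hpos, hmax⟩ := mxG η b κ' hκ hcfg hpos1
    obtain ⟨hθ0, hg0, hf0⟩ := FinN_wei h0.pos
    have hI : (A.c i0).symm z0 ∈ interior (b q0).K := by
      by_contra hnI
      have k1 := (b q0).zero _ h0.memK hnI
      have k2 : (b q0).ϑ (A.Z (b q0).k i0 z0) = 0 := k1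
      rw [k2] at hθ0
      exact lt_irrefl _ hθ0
    have hlw := lwbN η b hcov R hR1 hRb κ' hκ h0 hpos hmax
    have hA0 : 0 < Af (η.w i0) z0 (lc t0 fun j => hv (us0 j) (A.Z (b q0).k i0) z0) := by
      unfold val at hpos
      exact (mul_pos_iff_of_pos_right (Real.rpow_pos_of_pos h0.pos κ')).1 hpos
    have hAf0 := finC η b hκ hrm h0 hI hpos hmax
      (hC1 q0 i0 z0 h0.mem h0.memK _) (hC20 q0)
      (hC2 q0 i0 z0 (box_D (b q0) h0.mem h0.memK) hlw)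
    have hAf1 : Af (η.w i0) z0 (lc t0 fun j => hv (us0 j) (A.Z (b q0).k i0) z0)
        ≤ κ' * C1 * C2 / 3 := by
      refine hAf0.trans ?_
      have k1 : C2f q0 * C1f q0 ≤ C2 * C1 := mul_le_mul (hC2q q0) (hC1q q0) (hC10 q0) hC2n
      have k2 : κ' * (C2f q0 * C1f q0) ≤ κ' * (C2 * C1) := mul_le_mul_of_nonneg_left k1 hκ.le
      nlinarith
    have hm1 := hmax q1 i1 z1 us1 (fun p => e (J p)) t1 hcfg
    have hWG := hG q0 i0 z0 h0.mem h0.memK us0 Us0 h0.us_le h0.Us_le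
    have hGκ : wei η (b q0) i0 z0 us0 Us0 ^ κ' ≤ G := by
      calc wei η (b q0) i0 z0 us0 Us0 ^ κ' ≤ G ^ κ' :=
            Real.rpow_le_rpow hWG.1 (hWG.2.trans (hGq q0)) hκ.le
        _ ≤ G ^ (1 : ℝ) := Real.rpow_le_rpow_of_exponent_le hGn hκ1
        _ = G := Real.rpow_one G
    have hW1κ : min W1 1 ≤ W1 ^ κ' := by
      by_cases h1 : 1 ≤ W1
      · exact (min_le_right _ _).trans (Real.one_le_rpow h1 hκ.le)
      · push Not at h1
        calc min W1 1 ≤ W1 := min_le_left _ _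
          _ = W1 ^ (1 : ℝ) := (Real.rpow_one W1).symm
          _ ≤ W1 ^ κ' := Real.rpow_le_rpow_of_exponent_ge hW1 h1.le hκ1
    calc A1 * min W1 1 ≤ A1 * W1 ^ κ' := mul_le_mul_of_nonneg_left hW1κ hA1.le
      _ = val η (b q1) κ' i1 z1 us1 (fun p => e (J p)) t1 := by
          unfold val
          rw [← hA1d, ← hW1d]
      _ ≤ val η (b q0) κ' i0 z0 us0 Us0 t0 := hm1
      _ = Af (η.w i0) z0 (lc t0 fun j => hv (us0 j) (A.Z (b q0).k i0) z0)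
          * wei η (b q0) i0 z0 us0 Us0 ^ κ' := rfl
      _ ≤ κ' * C1 * C2 / 3 * G :=
          mul_le_mul hAf1 hGκ (Real.rpow_nonneg hWG.1 κ') (by positivity)
  have hpos : 0 < A1 * min W1 1 := mul_pos hA1 (lt_min hW1 one_pos)
  obtain ⟨Y, hY⟩ : ∃ Y : ℝ, Y = C1 * C2 / 3 * G := ⟨_, rfl⟩
  have hG0 : 0 ≤ G := zero_le_one.trans hGn
  have hY0 : 0 ≤ Y := by
    rw [hY]
    positivity
  have h1 := main (min 1 (A1 * min W1 1 / (2 * (Y + 1)))) (lt_min one_pos (by positivity))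
    (min_le_left _ _)
  have h2 : min 1 (A1 * min W1 1 / (2 * (Y + 1))) * C1 * C2 / 3 * G =
      min 1 (A1 * min W1 1 / (2 * (Y + 1))) * Y := by
    rw [hY]
    ring
  rw [h2] at h1
  have h3 : min 1 (A1 * min W1 1 / (2 * (Y + 1))) * Y ≤ A1 * min W1 1 / (2 * (Y + 1)) * Y :=
    mul_le_mul_of_nonneg_right (min_le_right _ _) hY0
  have h4 : A1 * min W1 1 / (2 * (Y + 1)) * Y < A1 * min W1 1 := by
    rw [div_mul_eq_mul_div, div_lt_iff₀ (by positivity)]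
    nlinarith
  linarith

end Pool.Agent.NSK
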