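import Pool.Agent.NSK.Defs

/-!
GrmN (size 5): the logarithm of the Gram determinant of holomorphic vector fields of maximal number is
plurisubharmonic in the directions `v = XX w z b`. Same proof as `SKF.grm` (file
Pool/Agent/SKF/Grm.lean, by helper84: `rh` applied to `Q * gm`, `Q` the inverse of the Gram matrix at `z`),
with holomorphic fields `bs i` instead of constant vectors. Let `s_i = bs i z`, `s'_i = d_v (bs i)` (the vector
`fderiv ℂ (bs i) z v`), `β_i` from `ex_bet` for `a = s_i`, `γ_i` from `ex_gam` for `a = s_i`, and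
`β̃_i = β_i - s'_i`. Since `bs i` has the jets `(s_i, s'_i, 0, 0)` (value, d10, d01, mx) componentwise and
`conj (bs j)` the jets `(conj s_j, 0, conj s'_j, 0)`, and `levi w y (bs i y) (bs j y) = ∑_kl bs_k conj bs_l LM w y k l`,
`mx_mul` and `jetA` give for `M i j (y) = levi w y (bs i y) (bs j y)`:
  `d10 M_ij = F(s'_i, s_j) + d10 (Lf w s_i s_j) = - F(β̃_i, s_j)`,
  `d01 M_ij = F(s_i, s'_j) + d01 (Lf w s_i s_j) = - F(s_i, β̃_j)`,
  `mx M_ij = F(s'_i, s'_j) + d10 (Lf w s_i s'_j) + d01 (Lf w s'_i s_j) + mx (Lf w s_i s_j)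
          = F(s'_i, s'_j) - F(β_i, s'_j) - F(s'_i, β_j) + F(β_i, β_j) + F(γ_j, γ_i) = F(β̃_i, β̃_j) + F(γ_j, γ_i)`
(`IsBet`, `conj_d10_Lf`). These are the formulas of `SKF.grm` with `β̃` instead of `β`; by the span condition
`β̃_i = ∑_j A'_ij s_j` modulo the kernel, and the rest of the proof is unchanged: the Levi form of the logarithm
is `∑ F(γ, γ) ≥ 0` in a basis with Gram matrix 1.
-/

open scoped ContDiff ComplexConjugate Topology
open Complex

namespace Pool.Agent.NSK

open Pool.Agent.DTW Pool.Agent.SKF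

variable {n : ℕ} {w : E n → ℝ} {U : Set (E n)} {z : E n}

private theorem GrmN_sLM (L : Loc w U) (k l : Ix n) : ContDiffOn ℝ ∞ (fun y => LM w y k l) U :=
  smooth_Lf L (e k) (e l)

private theorem GrmN_scomp {f : E n → E n} (hf : ContDiffOn ℂ ∞ f U) (k : Ix n) :
    ContDiffOn ℝ ∞ (fun y => f y k) U :=
  (contDiffOn_pi.1 (hf.restrict_scalars ℝ)) k

private theorem GrmN_sconj {f : E n → E n} (hf : ContDiffOn ℂ ∞ f U) (k : Ix n) :
    ContDiffOn ℝ ∞ (fun y => conj (f y k)) U :=
  Complex.conjCLE.contDiff.comp_contDiffOn (GrmN_scomp hf k)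

/-- the summands of `levi w y (f y) (g y)` -/
private noncomputable def GrmN_t (w : E n → ℝ) (f g : E n → E n) (p : Ix n × Ix n) (y : E n) :
    ℂ := f y p.1 * conj (g y p.2) * LM w y p.1 p.2

private theorem GrmN_eq (L : Loc w U) (f g : E n → E n) {y : E n} (hy : y ∈ U) :
    levi w y (f y) (g y) = ∑ p, GrmN_t w f g p y := by
  rw [levi_eq_sum (L.sm.contDiffAt (L.op.mem_nhds hy)), Fintype.sum_prod_type]
  rfl

private theorem GrmN_st (L : Loc w U) {f g : E n → E n} (hf : ContDiffOn ℂ ∞ f U)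
    (hg : ContDiffOn ℂ ∞ g U) (p : Ix n × Ix n) : ContDiffOn ℝ ∞ (GrmN_t w f g p) U :=
  ((GrmN_scomp hf p.1).mul (GrmN_sconj hg p.2)).mul (GrmN_sLM L p.1 p.2)

private theorem GrmN_sM (L : Loc w U) {f g : E n → E n} (hf : ContDiffOn ℂ ∞ f U)
    (hg : ContDiffOn ℂ ∞ g U) : ContDiffOn ℝ ∞ (fun y => levi w y (f y) (g y)) U := by
  refine (ContDiffOn.sum (s := Finset.univ) fun p _ => GrmN_st L hf hg p).congr fun y hy => ?_
  exact GrmN_eq L f g hy

private theorem GrmN_cd {f : E n → E n} (hU : IsOpen U) (hf : ContDiffOn ℂ ∞ f U) (hz : z ∈ U)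
    (k : Ix n) : DifferentiableAt ℂ (fun y => f y k) z :=
  (differentiableAt_pi.1 ((hf.contDiffAt (hU.mem_nhds hz)).differentiableAt (by simp))) k

private theorem GrmN_fd {f : E n → E n} (hU : IsOpen U) (hf : ContDiffOn ℂ ∞ f U) (hz : z ∈ U)
    (k : Ix n) (v : E n) : d10 (fun y => f y k) z v = fderiv ℂ f z v k := by
  rw [d10_of_diff (GrmN_cd hU hf hz k)]
  have h := (hf.contDiffAt (hU.mem_nhds hz)).differentiableAt (n := ∞) (by simp)
  have h2 := (hasFDerivAt_pi'.1 h.hasFDerivAt k).fderiv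
  rw [h2]
  rfl

private theorem GrmN_d01 {f : E n → E n} (hU : IsOpen U) (hf : ContDiffOn ℂ ∞ f U) (hz : z ∈ U)
    (k : Ix n) (v : E n) : d01 (fun y => f y k) z v = 0 := d01_of_diff (GrmN_cd hU hf hz k) v

private theorem GrmN_mx {f : E n → E n} (hU : IsOpen U) (hf : ContDiffOn ℂ ∞ f U) (hz : z ∈ U)
    (k : Ix n) (v : E n) : mx (fun y => f y k) z v = 0 := by
  unfold mx
  have h : (fun y => d01 (fun y => f y k) y v) =ᶠ[𝓝 z] fun _ => 0 := by
    filter_upwards [hU.mem_nhds hz] with y hy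
    exact GrmN_d01 hU hf hy k v
  rw [d10_congr h, d10_const]

private theorem GrmN_jet (L : Loc w U) (hz : z ∈ U) {f g : E n → E n} (hf : ContDiffOn ℂ ∞ f U)
    (hg : ContDiffOn ℂ ∞ g U) (v : E n) (p : Ix n × Ix n) :
    d10 (GrmN_t w f g p) z v = fderiv ℂ f z v p.1 * conj (g z p.2) * LM w z p.1 p.2
      + f z p.1 * conj (g z p.2) * d10 (fun y => LM w y p.1 p.2) z v ∧
    d01 (GrmN_t w f g p) z v = f z p.1 * conj (fderiv ℂ g z v p.2) * LM w z p.1 p.2
      + f z p.1 * conj (g z p.2) * d01 (fun y => LM w y p.1 p.2) z v ∧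
    mx (GrmN_t w f g p) z v =
      fderiv ℂ f z v p.1 * conj (fderiv ℂ g z v p.2) * LM w z p.1 p.2
      + fderiv ℂ f z v p.1 * conj (g z p.2) * d01 (fun y => LM w y p.1 p.2) z v
      + f z p.1 * conj (fderiv ℂ g z v p.2) * d10 (fun y => LM w y p.1 p.2) z v
      + f z p.1 * conj (g z p.2) * mx (fun y => LM w y p.1 p.2) z v := by
  have hU := L.op
  have s1 := GrmN_scomp hf p.1
  have s2' := GrmN_scomp hg p.2
  have s2 := GrmN_sconj hg p.2
  have s3 := GrmN_sLM L p.1 p.2
  have s12 := s1.mul s2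
  have d1 := diffAt_of hU s1 hz
  have d2 := diffAt_of hU s2 hz
  have d2' := diffAt_of hU s2' hz
  have d3 := diffAt_of hU s3 hz
  have d12 := diffAt_of hU s12 hz
  have a1 : d10 (fun y => f y p.1) z v = fderiv ℂ f z v p.1 := GrmN_fd hU hf hz p.1 v
  have a2 : d01 (fun y => f y p.1) z v = 0 := GrmN_d01 hU hf hz p.1 v
  have a3 : mx (fun y => f y p.1) z v = 0 := GrmN_mx hU hf hz p.1 v
  have b1 : d10 (fun y => conj (g y p.2)) z v = 0 := by
    rw [d10_conj d2', GrmN_d01 hU hg hz p.2 v, map_zero]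
  have b2 : d01 (fun y => conj (g y p.2)) z v = conj (fderiv ℂ g z v p.2) := by
    rw [d01_conj d2', GrmN_fd hU hg hz p.2 v]
  have b3 : mx (fun y => conj (g y p.2)) z v = 0 := by
    rw [mx_conj hU s2' hz, GrmN_mx hU hg hz p.2 v, map_zero]
  have c1 : d10 (fun y => f y p.1 * conj (g y p.2)) z v
      = fderiv ℂ f z v p.1 * conj (g z p.2) := by
    rw [d10_mul d1 d2, a1, b1]
    ring
  have c2 : d01 (fun y => f y p.1 * conj (g y p.2)) z v
      = f z p.1 * conj (fderiv ℂ g z v p.2) := by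
    rw [d01_mul d1 d2, a2, b2]
    ring
  have c3 : mx (fun y => f y p.1 * conj (g y p.2)) z v
      = fderiv ℂ f z v p.1 * conj (fderiv ℂ g z v p.2) := by
    rw [mx_mul hU s1 s2 hz, a1, a2, a3, b1, b2, b3]
    ring
  refine ⟨?_, ?_, ?_⟩
  · show d10 (fun y => (f y p.1 * conj (g y p.2)) * LM w y p.1 p.2) z v = _
    rw [d10_mul d12 d3]
    rw [show d10 (fun y => f y p.1 * conj (g y p.2)) z v = _ from c1]
  · show d01 (fun y => (f y p.1 * conj (g y p.2)) * LM w y p.1 p.2) z v = _
    rw [d01_mul d12 d3]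
    rw [show d01 (fun y => f y p.1 * conj (g y p.2)) z v = _ from c2]
  · show mx (fun y => (f y p.1 * conj (g y p.2)) * LM w y p.1 p.2) z v = _
    rw [mx_mul hU s12 s3 hz]
    rw [show d10 (fun y => f y p.1 * conj (g y p.2)) z v = _ from c1,
      show d01 (fun y => f y p.1 * conj (g y p.2)) z v = _ from c2,
      show mx (fun y => f y p.1 * conj (g y p.2)) z v = _ from c3]

private theorem GrmN_jets (L : Loc w U) (hz : z ∈ U) {f g : E n → E n}
    (hf : ContDiffOn ℂ ∞ f U) (hg : ContDiffOn ℂ ∞ g U) (v : E n) :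
    d10 (fun y => levi w y (f y) (g y)) z v
      = levi w z (fderiv ℂ f z v) (g z) + d10 (Lf w (f z) (g z)) z v ∧
    d01 (fun y => levi w y (f y) (g y)) z v
      = levi w z (f z) (fderiv ℂ g z v) + d01 (Lf w (f z) (g z)) z v ∧
    mx (fun y => levi w y (f y) (g y)) z v
      = levi w z (fderiv ℂ f z v) (fderiv ℂ g z v)
        + d01 (Lf w (fderiv ℂ f z v) (g z)) z v
        + d10 (Lf w (f z) (fderiv ℂ g z v)) z v + mx (Lf w (f z) (g z)) z v := by
  have hU := L.op
  have hev : ∀ F G : E n → E n, (fun y => levi w y (F y) (G y)) =ᶠ[𝓝 z]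
      fun y => ∑ p ∈ Finset.univ, GrmN_t w F G p y := by
    intro F G
    filter_upwards [hU.mem_nhds hz] with y hy
    exact GrmN_eq L F G hy
  have key : ∀ F G : E n → E n, ContDiffOn ℂ ∞ F U → ContDiffOn ℂ ∞ G U →
      d10 (fun y => levi w y (F y) (G y)) z v = ∑ p, d10 (GrmN_t w F G p) z v ∧
      d01 (fun y => levi w y (F y) (G y)) z v = ∑ p, d01 (GrmN_t w F G p) z v ∧
      mx (fun y => levi w y (F y) (G y)) z v = ∑ p, mx (GrmN_t w F G p) z v := by
    intro F G hF hG
    have hd : ∀ p ∈ Finset.univ, DifferentiableAt ℝ (GrmN_t w F G p) z := fun p _ =>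
      diffAt_of hU (GrmN_st L hF hG p) hz
    refine ⟨?_, ?_, ?_⟩
    · rw [d10_congr (hev F G)]
      exact d10_sum (z := z) (a := v) Finset.univ (GrmN_t w F G) hd
    · rw [d01_congr (hev F G)]
      exact d01_sum (z := z) (a := v) Finset.univ (GrmN_t w F G) hd
    · rw [mx_congr (hev F G)]
      exact mx_sum (z := z) (v := v) Finset.univ (GrmN_t w F G) hU
        (fun p _ => GrmN_st L hF hG p) hz
  have hcon : ∀ a b : E n,
      d10 (Lf w a b) z v = ∑ p : Ix n × Ix n,
        a p.1 * conj (b p.2) * d10 (fun y => LM w y p.1 p.2) z v ∧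
      d01 (Lf w a b) z v = ∑ p : Ix n × Ix n,
        a p.1 * conj (b p.2) * d01 (fun y => LM w y p.1 p.2) z v ∧
      mx (Lf w a b) z v = ∑ p : Ix n × Ix n,
        a p.1 * conj (b p.2) * mx (fun y => LM w y p.1 p.2) z v := by
    intro a b
    have ha : ContDiffOn ℂ ∞ (fun _ : E n => a) U := contDiffOn_const
    have hb : ContDiffOn ℂ ∞ (fun _ : E n => b) U := contDiffOn_const
    obtain ⟨k1, k2, k3⟩ := key _ _ ha hb
    have h0a : fderiv ℂ (fun _ : E n => a) z v = 0 := by
      rw [fderiv_fun_const]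
      rfl
    have h0b : fderiv ℂ (fun _ : E n => b) z v = 0 := by
      rw [fderiv_fun_const]
      rfl
    refine ⟨k1.trans (Finset.sum_congr rfl fun p _ => ?_),
      k2.trans (Finset.sum_congr rfl fun p _ => ?_),
      k3.trans (Finset.sum_congr rfl fun p _ => ?_)⟩
    · rw [(GrmN_jet L hz ha hb v p).1, h0a]
      simp
    · rw [(GrmN_jet L hz ha hb v p).2.1, h0b]
      simp
    · rw [(GrmN_jet L hz ha hb v p).2.2, h0a, h0b]
      simp
  have hlev : ∀ a b : E n, levi w z a b = ∑ p : Ix n × Ix n,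
      a p.1 * conj (b p.2) * LM w z p.1 p.2 := fun a b => GrmN_eq L (fun _ => a) (fun _ => b) hz
  obtain ⟨k1, k2, k3⟩ := key f g hf hg
  refine ⟨?_, ?_, ?_⟩
  · rw [k1, hlev, (hcon _ _).1, ← Finset.sum_add_distrib]
    exact Finset.sum_congr rfl fun p _ => (GrmN_jet L hz hf hg v p).1
  · rw [k2, hlev, (hcon _ _).2.1, ← Finset.sum_add_distrib]
    exact Finset.sum_congr rfl fun p _ => (GrmN_jet L hz hf hg v p).2.1
  · rw [k3, hlev, (hcon _ _).2.1, (hcon _ _).1, (hcon _ _).2.2, ← Finset.sum_add_distrib,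
      ← Finset.sum_add_distrib, ← Finset.sum_add_distrib]
    exact Finset.sum_congr rfl fun p _ => (GrmN_jet L hz hf hg v p).2.2

private theorem GrmN_det (L : Loc w U) {r : ℕ} (bs : Fin r → E n → E n)
    (hb : ∀ i, ContDiffOn ℂ ∞ (bs i) U) :
    ContDiffOn ℝ ∞ (fun y => (gm w y fun i => bs i y).det) U := by
  simp only [Matrix.det_apply']
  refine ContDiffOn.sum fun σ _ => ?_
  refine contDiffOn_const.mul ?_
  refine contDiffOn_prod fun i _ => ?_
  exact GrmN_sM L (hb _) (hb _)

theorem smooth_gdN (L : Loc w U) {r : ℕ} (bs : Fin r → E n → E n)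
    (hb : ∀ i, ContDiffOn ℂ ∞ (bs i) U) :
    ContDiffOn ℝ ∞ (fun y => gd w y fun i => bs i y) U :=
  Complex.reCLM.contDiff.comp_contDiffOn (GrmN_det L bs hb)

private theorem GrmN_left (L : Loc w U) (hz : z ∈ U) {r : ℕ} (s : Fin r → ℂ) (g : Fin r → E n)
    (c : E n) : levi w z (lc s g) c = ∑ k, s k * levi w z (g k) c := by
  unfold lc
  have h : ∀ S : Finset (Fin r), levi w z (∑ i ∈ S, s i • g i) c =
      ∑ k ∈ S, s k * levi w z (g k) c := by
    intro S
    induction S using Finset.induction_on with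
    | empty =>
      have h0 : levi w z 0 c = 0 := d10_zero_vec _ _
      rw [Finset.sum_empty, Finset.sum_empty]
      exact h0
    | insert a S ha ih =>
      rw [Finset.sum_insert ha, Finset.sum_insert ha, levi_add_left L hz, levi_smul_left L hz, ih]
  exact h Finset.univ

private theorem GrmN_right (L : Loc w U) (hz : z ∈ U) {r : ℕ} (s : Fin r → ℂ)
    (g : Fin r → E n) (c : E n) :
    levi w z c (lc s g) = ∑ k, conj (s k) * levi w z c (g k) := by
  rw [← levi_conj L hz, GrmN_left L hz, map_sum]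
  refine Finset.sum_congr rfl fun k _ => ?_
  rw [map_mul, levi_conj L hz]

open scoped ComplexOrder in
private theorem GrmN_psd (L : Loc w U) (hz : z ∈ U) {r : ℕ} (bs : Fin r → E n) :
    (gm w z bs).PosSemidef := by
  refine Matrix.PosSemidef.of_dotProduct_mulVec_nonneg ?_ fun x => ?_
  · ext i j
    rw [Matrix.conjTranspose_apply]
    exact levi_conj L hz (bs j) (bs i)
  · have h1 : star x ⬝ᵥ ((gm w z bs).mulVec x) =
        levi w z (lc (fun i => conj (x i)) bs) (lc (fun i => conj (x i)) bs) := by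
      rw [GrmN_left L hz]
      simp only [dotProduct, Matrix.mulVec, Pi.star_apply]
      refine Finset.sum_congr rfl fun i _ => ?_
      rw [GrmN_right L hz]
      have h2 : ∀ k : Fin r, conj (conj (x k)) * levi w z (bs i) (bs k) =
          gm w z bs i k * x k := by
        intro k
        rw [Complex.conj_conj, mul_comm]
        rfl
      rw [Finset.sum_congr rfl fun k _ => h2 k]
      rfl
    rw [h1, Complex.nonneg_iff]
    have h2 := levi_self L hz (lc (fun i => conj (x i)) bs)
    refine ⟨h2.2, ?_⟩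
    rw [h2.1]
    simp

open scoped ComplexOrder in
private theorem GrmN_gd (L : Loc w U) (hz : z ∈ U) {r : ℕ} (bs : Fin r → E n) :
    0 ≤ gd w z bs ∧ (gm w z bs).det = ((gd w z bs : ℝ) : ℂ) := by
  have h := (GrmN_psd L hz bs).det_nonneg
  rw [Complex.nonneg_iff] at h
  refine ⟨h.1, ?_⟩
  apply Complex.ext
  · simp [gd]
  · simp [← h.2]

open scoped ComplexOrder in
/-- the trace of a product of two positive semidefinite Gram matrices -/
private theorem GrmN_tr (L : Loc w U) (hz : z ∈ U) {r : ℕ} {Q : Matrix (Fin r) (Fin r) ℂ}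
    (hQ : Q.PosSemidef) (g : Fin r → E n) :
    0 ≤ (Q * Matrix.of (fun k j => levi w z (g j) (g k))).trace.re := by
  obtain ⟨m, v, hv⟩ := Matrix.posSemidef_iff_eq_sum_vecMulVec.1 hQ
  have h1 : (Q * Matrix.of (fun k j => levi w z (g j) (g k))).trace =
      ∑ p, levi w z (lc (v p) g) (lc (v p) g) := by
    have h2 : ∀ p, levi w z (lc (v p) g) (lc (v p) g) =
        ∑ k, ∑ j, (v p k * conj (v p j)) * levi w z (g k) (g j) := by
      intro p
      rw [GrmN_left L hz]
      refine Finset.sum_congr rfl fun k _ => ?_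
      rw [GrmN_right L hz, Finset.mul_sum]
      refine Finset.sum_congr rfl fun j _ => ?_
      ring
    rw [Finset.sum_congr rfl fun p _ => h2 p, Finset.sum_comm]
    simp only [Matrix.trace, Matrix.diag, Matrix.mul_apply, Matrix.of_apply]
    refine Finset.sum_congr rfl fun k _ => ?_
    rw [Finset.sum_comm]
    refine Finset.sum_congr rfl fun j _ => ?_
    have h3 : Q k j = ∑ p, v p k * conj (v p j) := by
      have := congrFun (congrFun hv k) j
      simpa [Matrix.sum_apply, Matrix.vecMulVec_apply] using this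
    rw [h3, Finset.sum_mul]
  rw [h1, Complex.re_sum]
  exact Finset.sum_nonneg fun p _ => (levi_self L hz _).2

open scoped ComplexOrder in
private theorem GrmN_tr' (L : Loc w U) (hz : z ∈ U) {r : ℕ} (bs g : Fin r → E n) :
    0 ≤ ((gm w z bs)⁻¹ * Matrix.of (fun k j => levi w z (g j) (g k))).trace.re :=
  GrmN_tr L hz (GrmN_psd L hz bs).inv g

theorem grmN (L : Loc w U) (hz : z ∈ U) (b : E n) {r : ℕ} (bs : Fin r → E n → E n)
    (hb : ∀ i, ContDiffOn ℂ ∞ (bs i) U) (h0 : 0 < gd w z fun i => bs i z)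
    (hs : ∀ a : E n, ∃ t : Fin r → ℂ, ∀ c, levi w z (a - lc t fun i => bs i z) c = 0) :
    0 ≤ (levi (fun y => Real.log (gd w y fun i => bs i y)) z (XX w z b) (XX w z b)).re := by
  classical
  set v : E n := XX w z b with hv
  obtain ⟨s, hsd⟩ : ∃ s : Fin r → E n, s = fun i => bs i z := ⟨_, rfl⟩
  obtain ⟨s', hs'd⟩ : ∃ s' : Fin r → E n, s' = fun i => fderiv ℂ (bs i) z v := ⟨_, rfl⟩
  have hsi : ∀ i, bs i z = s i := fun i => by rw [hsd]
  have hsi' : ∀ i, fderiv ℂ (bs i) z v = s' i := fun i => by rw [hs'd]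
  set c : ℝ := gd w z fun i => bs i z with hc
  set M0 : Matrix (Fin r) (Fin r) ℂ := gm w z fun i => bs i z with hM0
  have hcc : (c : ℂ) ≠ 0 := by exact_mod_cast h0.ne'
  have hdet0 : M0.det = (c : ℂ) := (GrmN_gd L hz fun i => bs i z).2
  have hunit : IsUnit M0.det := by rw [hdet0]; exact isUnit_iff_ne_zero.2 hcc
  set Q : Matrix (Fin r) (Fin r) ℂ := M0⁻¹ with hQ
  have hQM : Q * M0 = 1 := Matrix.nonsing_inv_mul M0 hunit
  have hMQ : M0 * Q = 1 := Matrix.mul_nonsing_inv M0 hunit
  have hQd : Q.det = (c : ℂ)⁻¹ := by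
    have h1 : Q.det * M0.det = 1 := by rw [← Matrix.det_mul, hQM, Matrix.det_one]
    rw [hdet0] at h1
    exact eq_inv_of_mul_eq_one_left h1
  -- the entries of the Gram matrix
  set F : Fin r → Fin r → E n → ℂ := fun k j y => levi w y (bs k y) (bs j y) with hF
  set A : Matrix (Fin r) (Fin r) ℂ := Matrix.of fun k j => d10 (F k j) z v with hA
  set B : Matrix (Fin r) (Fin r) ℂ := Matrix.of fun k j => d01 (F k j) z v with hB
  set C : Matrix (Fin r) (Fin r) ℂ := Matrix.of fun k j => mx (F k j) z v with hC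
  have sL : ∀ i j, ContDiffOn ℝ ∞ (F i j) U := fun i j => GrmN_sM L (hb i) (hb j)
  have dL : ∀ i j, DifferentiableAt ℝ (F i j) z := fun i j => diffAt_of L.op (sL i j) hz
  set G : Fin r → Fin r → Fin r → E n → ℂ := fun i j k y => Q i k * F k j y with hG
  have sG : ∀ i j k, ContDiffOn ℝ ∞ (G i j k) U := fun i j k => contDiffOn_const.mul (sL k j)
  have dG : ∀ i j k, DifferentiableAt ℝ (G i j k) z := fun i j k => diffAt_of L.op (sG i j k) hz
  have hMe : ∀ i j, (fun y => (Q * gm w y fun i => bs i y) i j) =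
      fun y => ∑ k ∈ Finset.univ, G i j k y := by
    intro i j
    funext y
    rw [Matrix.mul_apply]
    rfl
  have hA' : ∀ i j, d10 (fun y => (Q * gm w y fun i => bs i y) i j) z v = (Q * A) i j := by
    intro i j
    have h1 := d10_sum (z := z) (a := v) Finset.univ (G i j) (fun k _ => dG i j k)
    rw [hMe i j, h1, Matrix.mul_apply]
    exact Finset.sum_congr rfl fun k _ => d10_const_mul (dL k j) (Q i k)
  have hB' : ∀ i j, d01 (fun y => (Q * gm w y fun i => bs i y) i j) z v = (Q * B) i j := by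
    intro i j
    have h1 := d01_sum (z := z) (a := v) Finset.univ (G i j) (fun k _ => dG i j k)
    rw [hMe i j, h1, Matrix.mul_apply]
    exact Finset.sum_congr rfl fun k _ => d01_const_mul (dL k j) (Q i k)
  have hC' : ∀ i j, mx (fun y => (Q * gm w y fun i => bs i y) i j) z v = (Q * C) i j := by
    intro i j
    have h1 := mx_sum (z := z) (v := v) Finset.univ (G i j) L.op (fun k _ => sG i j k) hz
    rw [hMe i j, h1, Matrix.mul_apply]
    exact Finset.sum_congr rfl fun k _ => mx_const_mul L.op (sL k j) hz (Q i k)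
  have hrh := rh (z := z) (v := v) L.op hz (fun y => Q * gm w y fun i => bs i y) (by
      intro i j
      have h1 := hMe i j
      rw [h1]
      exact ContDiffOn.sum fun k _ => sG i j k) hQM (Q * A) (Q * B) (Q * C) hA' hB' hC'
  obtain ⟨sN, j10, j01, jmx⟩ := hrh
  set N : E n → ℂ := fun y => (Q * gm w y fun i => bs i y).det with hN
  -- `cx gd = c * N` on `U`
  have hgN : ∀ y ∈ U, cx (fun y => gd w y fun i => bs i y) y = (c : ℂ) * N y := by
    intro y hy
    have h1 := (GrmN_gd L hy fun i => bs i y).2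
    rw [hN]
    simp only [Matrix.det_mul]
    rw [hQd, h1, ← mul_assoc, mul_inv_cancel₀ hcc, one_mul]
    rfl
  have hev : cx (fun y => gd w y fun i => bs i y) =ᶠ[𝓝 z] fun y => (c : ℂ) * N y := by
    filter_upwards [L.op.mem_nhds hz] with y hy
    exact hgN y hy
  have dN : DifferentiableAt ℝ N z := diffAt_of L.op sN hz
  have g10 : d10 (cx (fun y => gd w y fun i => bs i y)) z v = (c : ℂ) * (Q * A).trace := by
    rw [d10_congr hev, d10_const_mul dN, j10]
  have g01 : d01 (cx (fun y => gd w y fun i => bs i y)) z v = (c : ℂ) * (Q * B).trace := by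
    rw [d01_congr hev, d01_const_mul dN, j01]
  have gmx : mx (cx (fun y => gd w y fun i => bs i y)) z v = (c : ℂ) * ((Q * C).trace +
      (Q * A).trace * (Q * B).trace - (Q * A * (Q * B)).trace) := by
    rw [mx_congr hev, mx_const_mul L.op sN hz, jmx]
  -- the logarithm
  have hU' : IsOpen (U ∩ (fun y => gd w y fun i => bs i y) ⁻¹' Set.Ioi 0) :=
    (smooth_gdN L bs hb).continuousOn.isOpen_inter_preimage L.op isOpen_Ioi
  have hlg := (lgn (z := z) (v := v) hU' ((smooth_gdN L bs hb).mono Set.inter_subset_left)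
    (fun y hy => hy.2) ⟨hz, h0⟩).2
  rw [gmx, g10, g01] at hlg
  have hlg2 : levi (fun y => Real.log (gd w y fun i => bs i y)) z v v =
      (Q * C).trace - (Q * A * (Q * B)).trace := by
    rw [hlg]
    have h1 : ((gd w z fun i => bs i z : ℝ) : ℂ) = (c : ℂ) := rfl
    rw [h1]
    field_simp
    ring
  -- the second jets
  have hβ := fun k : Fin r => ex_bet L hz b (s k)
  choose β hβ using hβ
  have hγ := fun k : Fin r => ex_gam L hz b (s k)
  choose γ hγ using hγ
  have ht := fun k : Fin r => hs (β k - s' k)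
  choose t ht using ht
  have hsub1 : ∀ a a' c : E n, levi w z (a - a') c = levi w z a c - levi w z a' c := by
    intro a a' c
    have h1 := levi_add_left L hz (a - a') a' c
    rw [sub_add_cancel] at h1
    rw [h1]
    ring
  have hsub2 : ∀ a a' c : E n, levi w z c (a - a') = levi w z c a - levi w z c a' := by
    intro a a' c
    rw [← levi_conj L hz, hsub1, map_sub, levi_conj L hz, levi_conj L hz]
  have hbt : ∀ k e, levi w z (β k - s' k) e = levi w z (lc (t k) fun i => bs i z) e := by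
    intro k e
    have h1 := ht k e
    rw [hsub1] at h1
    exact sub_eq_zero.1 h1
  -- first jets in terms of `β - s'`
  have hAβ : ∀ k j, A k j = -levi w z (β k - s' k) (s j) := by
    intro k j
    have h1 : A k j = levi w z (s' k) (s j) + d10 (Lf w (s k) (s j)) z v := by
      have h2 := (GrmN_jets L hz (hb k) (hb j) v).1
      rw [hsi, hsi, hsi'] at h2
      exact h2
    have h3 := hβ k (s j)
    rw [h1, hsub1, h3]
    ring
  have hBA : ∀ i j, B i j = conj (A j i) := by
    intro i j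
    have h1 : B i j = levi w z (s i) (s' j) + d01 (Lf w (s i) (s j)) z v := by
      have h2 := (GrmN_jets L hz (hb i) (hb j) v).2.1
      rw [hsi, hsi, hsi'] at h2
      exact h2
    have h3 : A j i = levi w z (s' j) (s i) + d10 (Lf w (s j) (s i)) z v := by
      have h2 := (GrmN_jets L hz (hb j) (hb i) v).1
      rw [hsi, hsi, hsi'] at h2
      exact h2
    rw [h1, h3, map_add, levi_conj L hz, conj_d10_Lf L hz]
  have hAT : A = -(Matrix.of t * M0) := by
    ext k j
    rw [hAβ k j, hbt, GrmN_left L hz, Matrix.neg_apply, Matrix.mul_apply]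
    congr 1
    refine Finset.sum_congr rfl fun i _ => ?_
    rw [← hsi j]
    rfl
  have hT : Matrix.of t = -(A * Q) := by
    rw [hAT, neg_mul, neg_neg, mul_assoc, hMQ, mul_one]
  have hCe : C = A * Q * B + Matrix.of (fun k j => levi w z (γ j) (γ k)) := by
    ext k j
    have h0 : C k j = levi w z (s' k) (s' j) + d01 (Lf w (s' k) (s j)) z v
        + d10 (Lf w (s k) (s' j)) z v + mx (Lf w (s k) (s j)) z v := by
      have h2 := (GrmN_jets L hz (hb k) (hb j) v).2.2
      rw [hsi, hsi, hsi', hsi'] at h2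
      exact h2
    have h1 : mx (Lf w (s k) (s j)) z v = levi w z (β k) (β j) + levi w z (γ j) (γ k) :=
      jetA L hz b (s k) (s j) (β k) (β j) (γ k) (γ j) (hβ k) (hβ j) (hγ k) (hγ j)
    have h5 : d10 (Lf w (s k) (s' j)) z v = -levi w z (β k) (s' j) := by
      have h6 := hβ k (s' j)
      rw [h6, neg_neg]
    have h7 : d01 (Lf w (s' k) (s j)) z v = -levi w z (s' k) (β j) := by
      have h6 : d10 (Lf w (s j) (s' k)) z v = -levi w z (β j) (s' k) := by
        have h8 := hβ j (s' k)
        rw [h8, neg_neg]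
      rw [← conj_d10_Lf L hz (s j) (s' k) v, h6, map_neg, levi_conj L hz]
    have h9 : C k j = levi w z (β k - s' k) (β j - s' j) + levi w z (γ j) (γ k) := by
      rw [h0, h1, h5, h7, hsub1, hsub2, hsub2]
      ring
    rw [h9, Matrix.add_apply, Matrix.of_apply]
    congr 1
    have h2 : A * Q = -Matrix.of t := by rw [hT, neg_neg]
    rw [h2, hbt, GrmN_left L hz, Matrix.mul_apply]
    refine Finset.sum_congr rfl fun i _ => ?_
    rw [hBA, Matrix.neg_apply, Matrix.of_apply]
    have h3 : levi w z (bs i z) (β j - s' j) = conj (levi w z (β j - s' j) (bs i z)) :=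
      (levi_conj L hz _ _).symm
    have h4 : levi w z (β j - s' j) (bs i z) = -A j i := by
      rw [hAβ j i, hsi, neg_neg]
    rw [h3, h4, map_neg]
    ring
  have hfin : levi (fun y => Real.log (gd w y fun i => bs i y)) z v v =
      (Q * Matrix.of (fun k j => levi w z (γ j) (γ k))).trace := by
    rw [hlg2, hCe, mul_add, Matrix.trace_add]
    have h1 : Q * (A * Q * B) = Q * A * (Q * B) := by simp only [mul_assoc]
    rw [h1]
    ring
  rw [hfin]
  exact GrmN_tr' L hz (fun i => bs i z) γ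

end Pool.Agent.NSK
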