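import Pool.Agent.NSK.HmA

/-!
InvN (size 5): invariance under a symplectic change of coordinates `φ : U → U'` (`T = fderiv ℂ φ z`).
* `chg_bij`: `T` is injective since `S` is nondegenerate (`S_left_inj` of SKF.Res, or `S_single`), dimension.
* `chg_XX`: `S (T XX b) (T a) = S (XX b) a = levi w z a b = levi w' (φ z) (T a) (T b) = S (XX' (T b)) (T a)`
  (`S_XX` of DTW.Main with `t = 1`), `T` surjective, `S` nondegenerate.
* `chg_Bf`: as `SKF.inv_Bf` (Pool/Agent/SKF/Inv.lean, helper67): `Bf_eq`; differentiate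
  `levi w y a c = levi w' (φ y) (T_y a) (T_y c)` by `∂̄_d`; for `a = XX w z b` the extra term
  `levi w' (φ z) (T a) (∂_d T_y c)` vanishes (`levi_XX_left`).
* `chg_hv`: `S (hv u Z z) a = d10 (pu u Z) z a` (`S_hv`) `= d10 (pu u Z') (φ z) (T a)` (chain rule, everything
  complex differentiable) `= S (hv u Z' (φ z)) (T a)`, and `S (T hv) (T a) = S hv a`.
* `chg_fz`: `d10 (pu (Us p) Z) z (e q) = ∑_l d10 (pu (Us p) Z') (φ z) (e l) (T (e q))_l`, so the determinants differ by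
  the factor `det T`, of absolute value 1 since `T` preserves `S` (`Tᵀ J T = J`: `S_J` of DTW.Alg, `det J ≠ 0`).
* `chg_gz`, `chg_Af`: from `chg_hv`, `lev`, `chg_Bf`.
-/

open scoped ContDiff ComplexConjugate Topology
open Complex

namespace Pool.Agent.NSK

open Pool.Agent.DTW Pool.Agent.SKF

variable {n m : ℕ} {w w' : E n → ℝ} {U U' : Set (E n)} {φ : E n → E n} {z : E n}

/-- symplectic change of coordinates relating `w` and `w'` -/
structure Chg (w w' : E n → ℝ) (U U' : Set (E n)) (φ : E n → E n) : Prop where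
  loc : Loc w U
  loc' : Loc w' U'
  hol : ContDiffOn ℂ ∞ φ U
  maps : ∀ y ∈ U, φ y ∈ U'
  symp : ∀ z ∈ U, ∀ a b, S (fderiv ℂ φ z a) (fderiv ℂ φ z b) = S a b
  lev : ∀ z ∈ U, ∀ a b, levi w z a b = levi w' (φ z) (fderiv ℂ φ z a) (fderiv ℂ φ z b)

private theorem inv_dφ (h : Chg w w' U U' φ) (hz : z ∈ U) : DifferentiableAt ℂ φ z :=
  (h.hol.contDiffAt (h.loc.op.mem_nhds hz)).differentiableAt (by simp)

private theorem inv_sm (h : Chg w w' U U' φ) (hz : z ∈ U) : ContDiffAt ℝ ∞ w z :=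
  h.loc.sm.contDiffAt (h.loc.op.mem_nhds hz)

private theorem inv_sm' (h : Chg w w' U U' φ) (hz : z ∈ U) : ContDiffAt ℝ ∞ w' (φ z) :=
  h.loc'.sm.contDiffAt (h.loc'.op.mem_nhds (h.maps z hz))

private theorem inv_inj (h : Chg w w' U U' φ) (hz : z ∈ U) :
    Function.Injective (fderiv ℂ φ z) := by
  intro a a' h0
  refine S_left_inj fun b => ?_
  have h1 := h.symp z hz a b
  have h2 := h.symp z hz a' b
  rw [← h1, ← h2, h0]

theorem chg_bij (h : Chg w w' U U' φ) (hz : z ∈ U) : Function.Bijective (fderiv ℂ φ z) := by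
  refine ⟨inv_inj h hz, ?_⟩
  have h1 : Function.Injective ((fderiv ℂ φ z : E n →L[ℂ] E n) : E n →ₗ[ℂ] E n) :=
    inv_inj h hz
  exact LinearMap.injective_iff_surjective.1 h1

theorem chg_XX (h : Chg w w' U U' φ) (hz : z ∈ U) (b : E n) :
    fderiv ℂ φ z (XX w z b) = XX w' (φ z) (fderiv ℂ φ z b) := by
  refine S_left_inj fun v => ?_
  obtain ⟨a', rfl⟩ := (chg_bij h hz).2 v
  have h1 := h.symp z hz (XX w z b) a'
  have h2 := S_XX (inv_sm h hz) 1 b a'
  have h3 := S_XX (inv_sm' h hz) 1 (fderiv ℂ φ z b) (fderiv ℂ φ z a')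
  rw [one_smul, one_mul] at h2 h3
  rw [h3, ← h.lev z hz, ← h2]
  exact h1

private theorem inv_diffT (h : Chg w w' U U' φ) (hz : z ∈ U) (a : E n) (p : Ix n) :
    DifferentiableAt ℂ (fun y => fderiv ℂ φ y a p) z := by
  have h2 : ContDiffAt ℂ ∞ (fderiv ℂ φ) z :=
    (h.hol.contDiffAt (h.loc.op.mem_nhds hz)).fderiv_right (m := ∞) (by simp)
  have h3 : DifferentiableAt ℂ (fun y => fderiv ℂ φ y a) z :=
    (h2.clm_apply contDiffAt_const).differentiableAt (by simp)
  exact differentiableAt_pi.1 h3 p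

private theorem inv_third_sum {w : E n → ℝ} {U : Set (E n)} (hU : IsOpen U)
    (hw : ContDiffOn ℝ ∞ w U) {z : E n} (hz : z ∈ U) (a c d : E n) :
    third w z a c d = ∑ p, ∑ q, a p * conj (c q) * d01 (fun y => LM w y p q) z d := by
  unfold third
  have h1 : (fun y => levi w y a c) =ᶠ[𝓝 z]
      fun y => ∑ p, ∑ q, a p * conj (c q) * LM w y p q := by
    filter_upwards [hU.mem_nhds hz] with y hy
    exact levi_eq_sum (hw.contDiffAt (hU.mem_nhds hy)) a c
  have hd : ∀ p q, DifferentiableAt ℝ (fun y => LM w y p q) z := fun p q =>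
    diffAt_of hU (contDiffOn_LM hU hw p q) hz
  rw [d01_congr h1]
  have h2 := d01_sum (z := z) (a := d) Finset.univ
    (fun p y => ∑ q, a p * conj (c q) * LM w y p q)
    (fun p _ => DifferentiableAt.fun_sum fun q _ => (hd p q).const_mul _)
  rw [h2]
  refine Finset.sum_congr rfl fun p _ => ?_
  have h3 := d01_sum (z := z) (a := d) Finset.univ
    (fun q y => a p * conj (c q) * LM w y p q)
    (fun q _ => (hd p q).const_mul _)
  rw [h3]
  refine Finset.sum_congr rfl fun q _ => ?_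
  exact d01_const_mul (hd p q) _

private theorem inv_third (h : Chg w w' U U' φ) (hz : z ∈ U) (a c d : E n) :
    third w z a c d
      = levi w' (φ z) (fderiv ℂ φ z a) (fun q => d10 (fun y => fderiv ℂ φ y c q) z d)
        + third w' (φ z) (fderiv ℂ φ z a) (fderiv ℂ φ z c) (fderiv ℂ φ z d) := by
  rw [inv_third_sum h.loc'.op h.loc'.sm (h.maps z hz), levi_eq_sum (inv_sm' h hz)]
  unfold third
  have h1 : (fun y => levi w y a c) =ᶠ[𝓝 z]
      fun y => ∑ p, ∑ q, fderiv ℂ φ y a p * conj (fderiv ℂ φ y c q) * LM w' (φ y) p q := by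
    filter_upwards [h.loc.op.mem_nhds hz] with y hy
    rw [h.lev y hy, levi_eq_sum (inv_sm' h hy)]
  have hφ : DifferentiableAt ℂ φ z := inv_dφ h hz
  have hL : ∀ p q, DifferentiableAt ℝ (fun y => LM w' y p q) (φ z) := fun p q =>
    diffAt_of h.loc'.op (contDiffOn_LM h.loc'.op h.loc'.sm p q) (h.maps z hz)
  have hLc : ∀ p q, DifferentiableAt ℝ (fun y => LM w' (φ y) p q) z := fun p q =>
    DifferentiableAt.comp (g := fun y => LM w' y p q) z (hL p q) (hφ.restrictScalars ℝ)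
  have hTa : ∀ (v : E n) p, DifferentiableAt ℝ (fun y => fderiv ℂ φ y v p) z :=
    fun v p => (inv_diffT h hz v p).restrictScalars ℝ
  have hpq : ∀ p q, DifferentiableAt ℝ (fun y => fderiv ℂ φ y a p
      * conj (fderiv ℂ φ y c q) * LM w' (φ y) p q) z := fun p q =>
    ((hTa a p).mul (conjd (hTa c q))).mul (hLc p q)
  rw [d01_congr h1]
  have h2 := d01_sum (z := z) (a := d) Finset.univ
    (fun p y => ∑ q, fderiv ℂ φ y a p * conj (fderiv ℂ φ y c q) * LM w' (φ y) p q)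
    (fun p _ => DifferentiableAt.fun_sum fun q _ => hpq p q)
  rw [h2, ← Finset.sum_add_distrib]
  refine Finset.sum_congr rfl fun p _ => ?_
  have h3 := d01_sum (z := z) (a := d) Finset.univ
    (fun q y => fderiv ℂ φ y a p * conj (fderiv ℂ φ y c q) * LM w' (φ y) p q)
    (fun q _ => hpq p q)
  rw [h3, ← Finset.sum_add_distrib]
  refine Finset.sum_congr rfl fun q _ => ?_
  have h4 := d01_mul (z := z) (a := d) ((hTa a p).mul (conjd (hTa c q))) (hLc p q)
  have h5 := d01_mul (z := z) (a := d) (hTa a p) (conjd (hTa c q))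
  have h6 := d01_conj (z := z) (a := d) (hTa c q)
  have h7 := d01_of_diff (inv_diffT h hz a p) d
  have h8 := d01_comp (G := fun y => LM w' y p q) hφ (hL p q) d
  have h4' : d01 (fun y => fderiv ℂ φ y a p * conj (fderiv ℂ φ y c q)
      * LM w' (φ y) p q) z d
      = d01 (fun y => fderiv ℂ φ y a p * conj (fderiv ℂ φ y c q)) z d
        * LM w' (φ z) p q
        + fderiv ℂ φ z a p * conj (fderiv ℂ φ z c q)
        * d01 (fun y => LM w' (φ y) p q) z d := h4
  rw [h4', h5, h6, h7, h8]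
  ring

theorem chg_Bf (h : Chg w w' U U' φ) (hz : z ∈ U) (b c d : E n) :
    Bf w b c d z = Bf w' (fderiv ℂ φ z b) (fderiv ℂ φ z c) (fderiv ℂ φ z d) (φ z) := by
  rw [Bf_eq h.loc hz, Bf_eq h.loc' (h.maps z hz), inv_third h hz, chg_XX h hz,
    levi_XX_left h.loc' (h.maps z hz), zero_add]

theorem chg_Af (h : Chg w w' U U' φ) (hz : z ∈ U) (b : E n) :
    Af w z b = Af w' (φ z) (fderiv ℂ φ z b) := by
  unfold Af
  rw [chg_Bf h hz, h.lev z hz]

private theorem inv_d10_pu (h : Chg w w' U U' φ) {Z Z' : E n → E m}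
    (hZ' : ContDiffOn ℂ ∞ Z' U') (hZ : ∀ y ∈ U, Z y = Z' (φ y)) (hz : z ∈ U) (u : E m)
    (a : E n) : d10 (pu u Z) z a = d10 (pu u Z') (φ z) (fderiv ℂ φ z a) := by
  have h1 : pu u Z =ᶠ[𝓝 z] fun y => pu u Z' (φ y) := by
    filter_upwards [h.loc.op.mem_nhds hz] with y hy
    unfold pu
    rw [hZ y hy]
  have h2 : DifferentiableAt ℂ (pu u Z') (φ z) :=
    ((pu_hol hZ' u).contDiffAt (h.loc'.op.mem_nhds (h.maps z hz))).differentiableAt (by simp)
  rw [d10_congr h1]
  exact d10_comp (inv_dφ h hz) (h2.restrictScalars ℝ) a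

theorem chg_hv (h : Chg w w' U U' φ) {Z Z' : E n → E m} (hZ' : ContDiffOn ℂ ∞ Z' U')
    (hZ : ∀ y ∈ U, Z y = Z' (φ y)) (hz : z ∈ U) (u : E m) :
    fderiv ℂ φ z (hv u Z z) = hv u Z' (φ z) := by
  refine S_left_inj fun v => ?_
  obtain ⟨a, rfl⟩ := (chg_bij h hz).2 v
  rw [S_hv, ← inv_d10_pu h hZ' hZ hz, ← S_hv]
  exact h.symp z hz _ _

theorem chg_gz (h : Chg w w' U U' φ) {Z Z' : E n → E m} (hZ' : ContDiffOn ℂ ∞ Z' U')
    (hZ : ∀ y ∈ U, Z y = Z' (φ y)) (hz : z ∈ U) {r : ℕ} (us : Fin r → E m) :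
    gz w Z us z = gz w' Z' us (φ z) := by
  have h1 : gm w z (fun i => hv (us i) Z z) = gm w' (φ z) (fun i => hv (us i) Z' (φ z)) := by
    ext i j
    show levi w z (hv (us i) Z z) (hv (us j) Z z)
      = levi w' (φ z) (hv (us i) Z' (φ z)) (hv (us j) Z' (φ z))
    rw [h.lev z hz, chg_hv h hZ' hZ hz, chg_hv h hZ' hZ hz]
  unfold gz gd
  rw [h1]

private theorem inv_det (h : Chg w w' U U' φ) (hz : z ∈ U) :
    Complex.normSq (Matrix.of (TT φ z)).det = 1 := by
  have h0 : Matrix.of (TT φ z) ∈ Matrix.symplecticGroup (Fin n) ℂ := by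
    refine symp_matrix fun a b => ?_
    have h1 := h.symp z hz a b
    have h2 : ∀ a : E n, fderiv ℂ φ z a = fun p => ∑ k, TT φ z p k * a k := fun a =>
      funext fun p => TT_apply φ z a p
    rw [h2 a, h2 b] at h1
    exact h1
  rw [SymplecticGroup.mem_iff] at h0
  have h1 := congrArg Matrix.det h0
  rw [Matrix.det_mul, Matrix.det_mul, Matrix.det_transpose] at h1
  have h2 : (Matrix.J (Fin n) ℂ).det ≠ 0 := (Matrix.isUnit_det_J (Fin n) ℂ).ne_zero
  have h3 : (Matrix.of (TT φ z)).det * (Matrix.of (TT φ z)).det = 1 := by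
    have h4 : ((Matrix.of (TT φ z)).det * (Matrix.of (TT φ z)).det) * (Matrix.J (Fin n) ℂ).det
        = 1 * (Matrix.J (Fin n) ℂ).det := by
      rw [one_mul]
      calc _ = (Matrix.of (TT φ z)).det * (Matrix.J (Fin n) ℂ).det
            * (Matrix.of (TT φ z)).det := by ring
        _ = _ := h1
    exact mul_right_cancel₀ h2 h4
  have h4 := congrArg Complex.normSq h3
  rw [Complex.normSq_mul, Complex.normSq_one] at h4
  have h5 := Complex.normSq_nonneg (Matrix.of (TT φ z)).det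
  nlinarith

theorem chg_fz (h : Chg w w' U U' φ) {Z Z' : E n → E m} (hZ' : ContDiffOn ℂ ∞ Z' U')
    (hZ : ∀ y ∈ U, Z y = Z' (φ y)) (hz : z ∈ U) (Us : Ix n → E m) :
    Complex.normSq (fz Z Us z) = Complex.normSq (fz Z' Us (φ z)) := by
  have h1 : (Matrix.of fun p q : Ix n => d10 (pu (Us p) Z) z (e q))
      = (Matrix.of fun p q : Ix n => d10 (pu (Us p) Z') (φ z) (e q))
        * Matrix.of (TT φ z) := by
    ext p q
    rw [Matrix.mul_apply]
    show d10 (pu (Us p) Z) z (e q)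
      = ∑ l, d10 (pu (Us p) Z') (φ z) (e l) * TT φ z l q
    rw [inv_d10_pu h hZ' hZ hz, d10_eq_sum]
    refine Finset.sum_congr rfl fun l _ => ?_
    show fderiv ℂ φ z (e q) l * d10 (pu (Us p) Z') (φ z) (e l) = _
    rw [mul_comm]
    rfl
  unfold fz minor
  rw [h1, Matrix.det_mul, Complex.normSq_mul, inv_det h hz, mul_one]

end Pool.Agent.NSK
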