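import Pool.Agent.NSK.InvG
import Pool.Agent.NSK.MinA
import Pool.Agent.NSK.BndN
import Pool.Agent.NSK.Unif

/-!
MxA (size 5): uniform bounds on a box and reduction to finitely many compact pieces of Darboux charts.
* `mxC`: a uniform bound for `Af` on a box: `bndN` with the constants `unif_P`, `unif_K` (`emb_of`, `box_D`;
  `Us = e (J p)` with `J` from the field `immersion`, `fz_eq`); if `(levi w z v v).re = 0` then `Af = 0` in Lean.
* `mxG0`: `wei ≤ 1 * bgd * fz_sq_le`, all three factors are nonnegative (`gps_nonneg` / `gd_nonneg`), `ϑ ≤ 1`.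
* `mxP`: let `G0 ≥ 1` be the bound of `bgd` on the box (constants `unif_P`, `unif_H`), so `ε ≤ wei ≤ G0 * normSq (fz ..)`.
  Let `P` be the set of the `x ∈ b.K` for which there are `i`, `z` in the target of `A.c i` with `(A.c i).symm z = x` and
  `Us`, `‖Us p‖ ≤ 1`, with `ε / G0 ≤ normSq (fz (A.Z b.k i) Us z)`. Its closure is contained in `b.K` (compact, so closed:
  `T2Space`) and in the regular part: if `x ∈ closure P` is in no `(A.c i).source`, take `ε' > 0` with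
  `((2m)^(2n) ε')² < ε / G0`; the field `minors` gives an open `O ∋ x` where all minors are `≤ ε'`, so by `fz_le`
  `normSq (fz ..) < ε / G0` on `O`, but `O` meets `P`. So `closure P` is compact; each of its points `x` lies in the
  interior of a compact set `N_x ⊆ (A.c i_x).source` (`exists_compact_subset`, `X` compact Hausdorff), finitely many
  interiors cover it; `Q_s = A.c i_s '' (N_s ∩ b.K)`.
-/

open scoped ContDiff ComplexConjugate Topology
open Complex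

namespace Pool.Agent.NSK

open Pool.Agent.DTW Pool.Agent.SKF

variable {n m : ℕ} {X : Type*} [TopologicalSpace X] {ι κ : Type*} {A : Space n m X ι κ}

private theorem MxA_gd (η : Form A) (b : Box A) (r : ℕ) : ∃ G : ℝ, 1 ≤ G ∧
    ∀ i z, z ∈ (A.c i).target → (A.c i).symm z ∈ b.K → ∀ us : Fin r → E m, (∀ j, ‖us j‖ ≤ 1) →
      0 ≤ gz (η.w i) (A.Z b.k i) us z ∧ gz (η.w i) (A.Z b.k i) us z ≤ G := by
  obtain ⟨P, hP, hPb⟩ := unif_P b
  obtain ⟨H, hH, hHb⟩ := unif_H η b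
  refine ⟨r.factorial * (H * (2 * m * P) ^ 2) ^ r + 1, ?_, ?_⟩
  · have h : (0 : ℝ) ≤ r.factorial * (H * (2 * m * P) ^ 2) ^ r := by positivity
    linarith
  · intro i z hz hK us hus
    have hD := box_D b hz hK
    refine ⟨gd_nonneg (emb_of η b.k i).loc _ hD, ?_⟩
    have h := bgd (emb_of η b.k i) hD hP hH (hPb i z hz hK) (hHb _ hK) us hus
    linarith

theorem mxC (η : Form A) (b : Box A) : ∃ C : ℝ, 0 ≤ C ∧ ∀ i z, z ∈ (A.c i).target →
    (A.c i).symm z ∈ b.K → ∀ v : E n, Af (η.w i) z v ≤ C := by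
  obtain ⟨P, hP, hPb⟩ := unif_P b
  obtain ⟨K, hK, hKb⟩ := unif_K η b
  have hC : 0 ≤ (√K * (2 * m * P)) ^ 2 * (2 * m : ℝ) ^ 3 := by positivity
  refine ⟨(√K * (2 * m * P)) ^ 2 * (2 * m) ^ 3, hC, ?_⟩
  intro i z hz hzK v
  have hD := box_D b hz hzK
  obtain ⟨J, hJ⟩ := A.immersion b.k i z hz (b.sub hzK)
  have hU : fz (A.Z b.k i) (fun p => e (J p)) z ≠ 0 := by
    rw [fz_eq]
    exact hJ
  have h1 := bndN (emb_of η b.k i) hD hP hK (hPb i z hz hzK) (hKb _ hzK) hU v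
  have h0 : 0 ≤ (levi (η.w i) z v v).re := (levi_self (emb_of η b.k i).loc hD v).2
  unfold Af
  rcases h0.eq_or_lt with h | h
  · rw [← h]
    have h2 : Complex.normSq (Bf (η.w i) v v v z) / (0 : ℝ) ^ 3 = 0 := by simp
    rw [h2]
    exact hC
  · rw [div_le_iff₀ (by positivity)]
    exact h1

theorem mxG0 (η : Form A) (b : Box A) (r : ℕ) : ∃ G : ℝ, 1 ≤ G ∧ ∀ i z, z ∈ (A.c i).target →
    (A.c i).symm z ∈ b.K → ∀ (us : Fin r → E m) (Us : Ix n → E m), (∀ j, ‖us j‖ ≤ 1) →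
      (∀ p, ‖Us p‖ ≤ 1) → 0 ≤ wei η b i z us Us ∧ wei η b i z us Us ≤ G := by
  obtain ⟨G, hG, hGb⟩ := MxA_gd η b r
  obtain ⟨P, hP, hPb⟩ := unif_P b
  have hF : (0 : ℝ) ≤ (2 * n).factorial * ((2 * m) ^ 2 * P) ^ (2 * n) := by positivity
  have hG0 : 0 ≤ G := by linarith
  refine ⟨G * ((2 * n).factorial * ((2 * m) ^ 2 * P) ^ (2 * n)) + 1, ?_, ?_⟩
  · have h := mul_nonneg hG0 hF
    linarith
  intro i z hz hzK us Us hus hUs
  obtain ⟨hg0, hg1⟩ := hGb i z hz hzK us hus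
  have hf0 := Complex.normSq_nonneg (fz (A.Z b.k i) Us z)
  have hf1 := fz_sq_le (D_open A b.k i) (emb_of η b.k i).hol (box_D b hz hzK) hP
    (hPb i z hz hzK) Us hUs
  have ht0 := b.nonneg (A.Z b.k i z)
  have ht1 := b.le_one (A.Z b.k i z)
  unfold wei
  refine ⟨mul_nonneg (mul_nonneg ht0 hg0) hf0, ?_⟩
  have h1 : b.ϑ (A.Z b.k i z) * gz (η.w i) (A.Z b.k i) us z ≤ 1 * G :=
    mul_le_mul ht1 hg1 hg0 zero_le_one
  have h2 : b.ϑ (A.Z b.k i z) * gz (η.w i) (A.Z b.k i) us z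
      * Complex.normSq (fz (A.Z b.k i) Us z)
      ≤ 1 * G * ((2 * n).factorial * ((2 * m) ^ 2 * P) ^ (2 * n)) :=
    mul_le_mul h1 hf1 hf0 (by linarith)
  linarith

private def MxA_P (b : Box A) (δ : ℝ) : Set X :=
  {x | x ∈ b.K ∧ ∃ (i : ι) (z : E n) (Us : Ix n → E m), z ∈ (A.c i).target ∧
    (A.c i).symm z = x ∧ (∀ p, ‖Us p‖ ≤ 1) ∧ δ ≤ Complex.normSq (fz (A.Z b.k i) Us z)}

private theorem MxA_eps {c δ : ℝ} (hc : 0 ≤ c) (hδ : 0 < δ) :
    ∃ ε' : ℝ, 0 < ε' ∧ (c * ε') ^ 2 < δ := by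
  have hs : 0 < √δ := Real.sqrt_pos.2 hδ
  refine ⟨√δ / (c + 1), by positivity, ?_⟩
  have h1 : c * (√δ / (c + 1)) < √δ := by
    rw [← mul_div_assoc, div_lt_iff₀ (by linarith)]
    nlinarith
  have h2 : 0 ≤ c * (√δ / (c + 1)) := by positivity
  calc (c * (√δ / (c + 1))) ^ 2 < (√δ) ^ 2 := pow_lt_pow_left₀ h1 h2 two_ne_zero
    _ = δ := Real.sq_sqrt hδ.le

private theorem MxA_reg [T2Space X] (η : Form A) (b : Box A) {δ : ℝ} (hδ : 0 < δ) {x : X}
    (hx : x ∈ closure (MxA_P b δ)) : ∃ i, x ∈ (A.c i).source := by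
  by_contra hcon
  push Not at hcon
  have hsub : closure (MxA_P b δ) ⊆ b.K :=
    closure_minimal (fun y hy => hy.1) b.comp.isClosed
  have hc : (0 : ℝ) ≤ (2 * m) ^ (2 * n) := by positivity
  obtain ⟨ε', hε', hlt⟩ := MxA_eps hc hδ
  obtain ⟨O, hO, hxO, hmin⟩ := A.minors b.k x (b.sub (hsub hx)) hcon ε' hε'
  obtain ⟨y, hyO, hyK, i, z, Us, hz, hzy, hUs, hle⟩ := mem_closure_iff.1 hx O hO hxO
  subst hzy
  have h1 : ‖fz (A.Z b.k i) Us z‖ ≤ (2 * m) ^ (2 * n) * ε' :=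
    fz_le (D_open A b.k i) (emb_of η b.k i).hol (box_D b hz hyK) hε'.le (hmin i z hz hyO) Us hUs
  have h2 : Complex.normSq (fz (A.Z b.k i) Us z) ≤ ((2 * m) ^ (2 * n) * ε') ^ 2 := by
    rw [Complex.normSq_eq_norm_sq]
    exact pow_le_pow_left₀ (norm_nonneg _) h1 2
  linarith

theorem mxP [CompactSpace X] [T2Space X] (η : Form A) (b : Box A) (r : ℕ) {ε : ℝ} (hε : 0 < ε) :
    ∃ (M : ℕ) (j : Fin M → ι) (Q : Fin M → Set (E n)), (∀ s, IsCompact (Q s)) ∧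
      (∀ s, ∀ z ∈ Q s, z ∈ (A.c (j s)).target ∧ (A.c (j s)).symm z ∈ b.K) ∧
      ∀ i z, z ∈ (A.c i).target → (A.c i).symm z ∈ b.K → ∀ (us : Fin r → E m)
        (Us : Ix n → E m), (∀ j, ‖us j‖ ≤ 1) → (∀ p, ‖Us p‖ ≤ 1) →
        ε ≤ wei η b i z us Us → ∃ s, (A.c i).symm z ∈ (A.c (j s)).source ∧
          A.c (j s) ((A.c i).symm z) ∈ Q s := by
  obtain ⟨G, hG, hGb⟩ := MxA_gd η b r
  have hG0 : 0 < G := by linarith
  have hδ : 0 < ε / G := by positivity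
  have hsub : closure (MxA_P b (ε / G)) ⊆ b.K :=
    closure_minimal (fun y hy => hy.1) b.comp.isClosed
  have hcomp : IsCompact (closure (MxA_P b (ε / G))) :=
    b.comp.of_isClosed_subset isClosed_closure hsub
  have hN : ∀ x : closure (MxA_P b (ε / G)), ∃ (i : ι) (N : Set X), IsCompact N ∧
      (x : X) ∈ interior N ∧ N ⊆ (A.c i).source := by
    intro x
    obtain ⟨i, hi⟩ := MxA_reg η b hδ x.2
    obtain ⟨N, h1, h2, h3⟩ := exists_compact_subset (A.c i).open_source hi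
    exact ⟨i, N, h1, h2, h3⟩
  choose I N hNc hNi hNs using hN
  obtain ⟨t, ht⟩ := hcomp.elim_finite_subcover (fun x => interior (N x))
    (fun x => isOpen_interior) (fun x hx => Set.mem_iUnion.2 ⟨⟨x, hx⟩, hNi ⟨x, hx⟩⟩)
  refine ⟨t.card, fun s => I (t.equivFin.symm s).1, fun s => A.c (I (t.equivFin.symm s).1) ''
    (N (t.equivFin.symm s).1 ∩ b.K), ?_, ?_, ?_⟩
  · intro s
    refine ((hNc _).inter b.comp).image_of_continuousOn ?_
    exact (A.c _).continuousOn.mono fun y hy => hNs _ hy.1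
  · rintro s z ⟨y, ⟨hyN, hyK⟩, rfl⟩
    have hy := hNs _ hyN
    refine ⟨(A.c _).map_source hy, ?_⟩
    rw [(A.c _).left_inv hy]
    exact hyK
  · intro i z hz hzK us Us hus hUs hle
    obtain ⟨hg0, hg1⟩ := hGb i z hz hzK us hus
    have hf0 := Complex.normSq_nonneg (fz (A.Z b.k i) Us z)
    have ht1 := b.le_one (A.Z b.k i z)
    have h1 : b.ϑ (A.Z b.k i z) * gz (η.w i) (A.Z b.k i) us z ≤ 1 * G :=
      mul_le_mul ht1 hg1 hg0 zero_le_one
    have h2 : wei η b i z us Us ≤ 1 * G * Complex.normSq (fz (A.Z b.k i) Us z) :=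
      mul_le_mul_of_nonneg_right h1 hf0
    have h3 : ε / G ≤ Complex.normSq (fz (A.Z b.k i) Us z) := by
      rw [div_le_iff₀ hG0]
      linarith
    have hP : (A.c i).symm z ∈ MxA_P b (ε / G) := ⟨hzK, i, z, Us, hz, rfl, hUs, h3⟩
    have h4 := ht (subset_closure hP)
    obtain ⟨x, hx⟩ := Set.mem_iUnion.1 h4
    obtain ⟨hxt, hxN⟩ := Set.mem_iUnion.1 hx
    have hmem := interior_subset hxN
    refine ⟨t.equivFin ⟨x, hxt⟩, ?_, ?_⟩
    · simp only [Equiv.symm_apply_apply]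
      exact hNs _ hmem
    · simp only [Equiv.symm_apply_apply]
      exact ⟨_, ⟨hmem, hzK⟩, rfl⟩

end Pool.Agent.NSK
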