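import Pool.Agent.NSK.EmbO
import Pool.Agent.NSK.MinA

/-!
MxB (size 5): the maximum over a compact piece `Q` of a Darboux chart. (Compare `SKF.mxe`, file
Pool/Agent/SKF/Mxe.lean, by helper77.)
Consider the set `S` of the `(z, us, Us, t)` with `z ∈ Q`, `‖us l‖ ≤ 1`, `‖Us p‖ ≤ 1`, `‖t‖ = 1`, `ε ≤ wei η b j z us Us`.
`wei` is continuous in `(z, us, Us)` for `z ∈ A.D b.k j` (an open set containing `Q`): `b.ϑ` and `A.Z` are continuous,
`hv u Z z` has components `sg p * ∑_I u_I * (DZ_z (e p'))_I` (`d10_pu`), `gz` is the determinant of the `levi w z (hv us_i) (hv us_j)`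
`= ∑_kl hv_k conj hv_l LM w z k l`, `fz` the determinant of the `∑_I Us_p I (DZ_z (e q))_I`. So `S` is compact. On `S` the
function `val` is continuous: `Af w z v = normSq (Bf w v v v z) / (levi w z v v).re ^ 3` with
`v = lc t (hv (us l) Z z)`, numerator and denominator continuous (`Bf w v v v z` is a sum of
`conj v_k conj v_l conj v_m Bf w (e k) (e l) (e m) z`), the denominator is positive by `gps_pd` since `0 < gz` (`wei ≥ ε > 0` and
`b.ϑ, normSq ≥ 0`), and `x ↦ x ^ κ` is continuous on positive reals. `S` is not empty: divide `t` of the given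
configuration by `‖t‖` (`lc (c • t) = c • lc t`, `Af_smul`: `val` does not change, nor `wei`). Take the maximum over `S`;
any other configuration with `z ∈ Q` has the same value as the one with `t / ‖t‖`.
-/

open scoped ContDiff ComplexConjugate Topology
open Complex

namespace Pool.Agent.NSK

open Pool.Agent.DTW Pool.Agent.SKF

variable {n m : ℕ} {X : Type*} [TopologicalSpace X] {ι κ : Type*} {A : Space n m X ι κ}

private theorem MxB_hf {U : Set (E n)} {w : E n → ℝ} {z : E n} (L : Loc w U) (hz : z ∈ U)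
    (a b : E n) : levi w z a b = hf (LM w z) a b :=
  levi_eq_sum (L.sm.contDiffAt (L.op.mem_nhds hz)) a b

private theorem MxB_smLM {U : Set (E n)} {w : E n → ℝ} (L : Loc w U) (k l : Ix n) :
    ContDiffOn ℝ ∞ (fun y => LM w y k l) U :=
  contDiffOn_pk L.op (contDiffOn_pb L.op (contDiffOn_cx L.sm) l) k

private theorem MxB_levi {U : Set (E n)} {w : E n → ℝ} (L : Loc w U) {Y : Type*}
    [TopologicalSpace Y] {K : Set Y} (ζ : Y → E n) (hζ : ContinuousOn ζ K) (hK : ∀ p ∈ K, ζ p ∈ U)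
    (A B : Y → E n) (hA : ContinuousOn A K) (hB : ContinuousOn B K) :
    ContinuousOn (fun p => levi w (ζ p) (A p) (B p)) K := by
  have h1 : ContinuousOn (fun p => ∑ k, ∑ l, A p k * conj (B p l) * LM w (ζ p) k l) K := by
    refine continuousOn_finsetSum _ (fun k _ => continuousOn_finsetSum _ (fun l _ => ?_))
    have hA' : ContinuousOn (fun p => A p k) K := (continuous_apply k).comp_continuousOn hA
    have hB' : ContinuousOn (fun p => conj (B p l)) K :=
      Complex.continuous_conj.comp_continuousOn ((continuous_apply l).comp_continuousOn hB)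
    have hL : ContinuousOn (fun p => LM w (ζ p) k l) K :=
      (MxB_smLM L k l).continuousOn.comp hζ hK
    exact (hA'.mul hB').mul hL
  exact h1.congr (fun p hp => MxB_hf L (hK p hp) _ _)

private theorem MxB_exp (f : E n → ℂ) (hadd : ∀ a b, f (a + b) = f a + f b)
    (hsmul : ∀ (t : ℂ) (a : E n), f (t • a) = conj t * f a) (a : E n) :
    f a = ∑ k, conj (a k) * f (e k) := by
  let T : E n →+ ℂ :=
    { toFun := f, map_zero' := by have := hsmul 0 0; simpa using this, map_add' := hadd }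
  have h : T a = ∑ k, T (a k • (e k : E n)) := by
    rw [← map_sum, ← vec_eq_sum a]
  have h' : f a = ∑ k, f (a k • (e k : E n)) := h
  rw [h']
  exact Finset.sum_congr rfl (fun k _ => hsmul _ _)

private theorem MxB_Bf {U : Set (E n)} {w : E n → ℝ} (L : Loc w U) {Y : Type*}
    [TopologicalSpace Y] {K : Set Y} (ζ : Y → E n) (hζ : ContinuousOn ζ K) (hK : ∀ p ∈ K, ζ p ∈ U)
    (A : Y → E n) (hA : ContinuousOn A K) :
    ContinuousOn (fun p => Bf w (A p) (A p) (A p) (ζ p)) K := by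
  have hA' : ∀ k, ContinuousOn (fun p => conj (A p k)) K := fun k =>
    Complex.continuous_conj.comp_continuousOn ((continuous_apply k).comp_continuousOn hA)
  have h1 : ContinuousOn (fun p => ∑ k, conj (A p k) * ∑ l, conj (A p l) * ∑ j, conj (A p j) *
      Bf w (e k) (e l) (e j) (ζ p)) K := by
    refine continuousOn_finsetSum _ (fun k _ => (hA' k).mul
      (continuousOn_finsetSum _ (fun l _ => (hA' l).mul
        (continuousOn_finsetSum _ (fun j _ => (hA' j).mul ?_)))))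
    exact (smooth_Bf L (e k) (e l) (e j)).continuousOn.comp hζ hK
  refine h1.congr (fun p hp => ?_)
  have hz := hK p hp
  show Bf w (A p) (A p) (A p) (ζ p) = _
  rw [MxB_exp (fun a => Bf w a (A p) (A p) (ζ p)) (fun a b => Bf_add1 L hz a b _ _)
    (fun t a => Bf_smul1 L hz t a _ _) (A p)]
  refine Finset.sum_congr rfl (fun k _ => ?_)
  congr 1
  rw [MxB_exp (fun a => Bf w (e k) a (A p) (ζ p)) (fun a b => Bf_add2 L hz _ a b _)
    (fun t a => Bf_smul2 L hz t _ a _) (A p)]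
  refine Finset.sum_congr rfl (fun l _ => ?_)
  congr 1
  exact MxB_exp (fun a => Bf w (e k) (e l) a (ζ p)) (fun a b => Bf_add3 L hz _ _ a b)
    (fun t a => Bf_smul3 L hz t _ _ a) (A p)

private theorem MxB_pos {U : Set (E n)} {w : E n → ℝ} {z : E n} (L : Loc w U) (hz : z ∈ U) {r : ℕ}
    (bs : Fin r → E n) (h : 0 < gd w z bs) (t : Fin r → ℂ) (ht : t ≠ 0) :
    0 < (levi w z (lc t bs) (lc t bs)).re := by
  rw [MxB_hf L hz]
  refine gps_pd (L.psd z hz) bs ?_ t ht
  have h1 : (Matrix.of fun i j => hf (LM w z) (bs i) (bs j)) = gm w z bs := by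
    ext i j
    exact (MxB_hf L hz _ _).symm
  rw [h1]
  exact h.ne'

private theorem MxB_gd {U : Set (E n)} {w : E n → ℝ} (L : Loc w U) {Y : Type*}
    [TopologicalSpace Y] {K : Set Y} (ζ : Y → E n) (hζ : ContinuousOn ζ K) (hK : ∀ p ∈ K, ζ p ∈ U)
    {r : ℕ} (A : Y → Fin r → E n) (hA : ∀ i, ContinuousOn (fun p => A p i) K) :
    ContinuousOn (fun p => gd w (ζ p) (A p)) K := by
  have h1 : ∀ i j, ContinuousOn (fun p => levi w (ζ p) (A p i) (A p j)) K := fun i j =>
    MxB_levi L ζ hζ hK _ _ (hA i) (hA j)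
  rw [continuousOn_iff_continuous_domRestrict]
  have h2 : Continuous (fun p : K => gm w (ζ p) (A p)) := by
    refine continuous_matrix (fun i j => ?_)
    have := h1 i j
    rw [continuousOn_iff_continuous_domRestrict] at this
    exact this
  exact Complex.continuous_re.comp h2.matrix_det

private theorem MxB_fderiv {U : Set (E n)} (hU : IsOpen U) {Z : E n → E m}
    (hZ : ContDiffOn ℂ ∞ Z U) {Y : Type*} [TopologicalSpace Y] {K : Set Y} (ζ : Y → E n)
    (hζ : ContinuousOn ζ K) (hK : ∀ p ∈ K, ζ p ∈ U) (a : E n) (I : Ix m) :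
    ContinuousOn (fun p => fderiv ℂ Z (ζ p) a I) K := by
  have h1 : ContinuousOn (fderiv ℂ Z) U := hZ.continuousOn_fderiv_of_isOpen hU (by simp)
  have h2 : ContinuousOn (fun p => fderiv ℂ Z (ζ p)) K := h1.comp hζ hK
  have h3 : ContinuousOn (fun p => fderiv ℂ Z (ζ p) a) K := h2.clm_apply continuousOn_const
  exact (continuous_apply I).comp_continuousOn h3

private theorem MxB_d10 {U : Set (E n)} (hU : IsOpen U) {Z : E n → E m}
    (hZ : ContDiffOn ℂ ∞ Z U) {Y : Type*} [TopologicalSpace Y] {K : Set Y} (ζ : Y → E n)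
    (hζ : ContinuousOn ζ K) (hK : ∀ p ∈ K, ζ p ∈ U) (a : E n) (u : Y → E m)
    (hu : ContinuousOn u K) : ContinuousOn (fun p => d10 (pu (u p) Z) (ζ p) a) K := by
  have h1 : ContinuousOn (fun p => ∑ I, u p I * fderiv ℂ Z (ζ p) a I) K :=
    continuousOn_finsetSum _ fun I _ =>
      ((continuous_apply I).comp_continuousOn hu).mul (MxB_fderiv hU hZ ζ hζ hK a I)
  exact h1.congr fun p hp => d10_pu hU hZ (hK p hp) (u p) a

private theorem MxB_hv {U : Set (E n)} (hU : IsOpen U) {Z : E n → E m}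
    (hZ : ContDiffOn ℂ ∞ Z U) {Y : Type*} [TopologicalSpace Y] {K : Set Y} (ζ : Y → E n)
    (hζ : ContinuousOn ζ K) (hK : ∀ p ∈ K, ζ p ∈ U) (u : Y → E m) (hu : ContinuousOn u K) :
    ContinuousOn (fun p => hv (u p) Z (ζ p)) K :=
  continuousOn_pi.2 fun k => continuousOn_const.mul (MxB_d10 hU hZ ζ hζ hK (e k.swap) u hu)

private theorem MxB_fz {U : Set (E n)} (hU : IsOpen U) {Z : E n → E m}
    (hZ : ContDiffOn ℂ ∞ Z U) {Y : Type*} [TopologicalSpace Y] {K : Set Y} (ζ : Y → E n)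
    (hζ : ContinuousOn ζ K) (hK : ∀ p ∈ K, ζ p ∈ U) (Us : Y → Ix n → E m)
    (hUs : ∀ p, ContinuousOn (fun q => Us q p) K) :
    ContinuousOn (fun q => fz Z (Us q) (ζ q)) K := by
  rw [continuousOn_iff_continuous_domRestrict]
  have h2 : Continuous (fun q : K =>
      Matrix.of fun p k : Ix n => d10 (pu (Us q p) Z) (ζ q) (e k)) := by
    refine continuous_matrix (fun p k => ?_)
    have := MxB_d10 hU hZ ζ hζ hK (e k) (fun q => Us q p) (hUs p)
    rw [continuousOn_iff_continuous_domRestrict] at this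
    exact this
  exact h2.matrix_det

theorem mxB (η : Form A) (b : Box A) (j : ι) (Q : Set (E n)) (hQ : IsCompact Q)
    (hQ2 : ∀ z ∈ Q, z ∈ (A.c j).target ∧ (A.c j).symm z ∈ b.K) (κ' : ℝ) (hκ : 0 < κ') {ε : ℝ}
    (hε : 0 < ε) {r : ℕ}
    (hne : ∃ z ∈ Q, ∃ (us : Fin r → E m) (Us : Ix n → E m) (t : Fin r → ℂ),
      Cfg η b j z us Us t ∧ ε ≤ wei η b j z us Us) :
    ∃ z0 ∈ Q, ∃ (us0 : Fin r → E m) (Us0 : Ix n → E m) (t0 : Fin r → ℂ),
      Cfg η b j z0 us0 Us0 t0 ∧ ε ≤ wei η b j z0 us0 Us0 ∧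
      ∀ z ∈ Q, ∀ (us : Fin r → E m) (Us : Ix n → E m) (t : Fin r → ℂ),
        Cfg η b j z us Us t → ε ≤ wei η b j z us Us →
          val η b κ' j z us Us t ≤ val η b κ' j z0 us0 Us0 t0 := by
  have hE := emb_of η b.k j
  obtain ⟨w, hw⟩ : ∃ w, w = η.w j := ⟨_, rfl⟩
  obtain ⟨Z, hZd⟩ : ∃ Z, Z = A.Z b.k j := ⟨_, rfl⟩
  have L : Loc w (A.D b.k j) := by rw [hw]; exact hE.loc
  have hU : IsOpen (A.D b.k j) := L.op
  have hZ : ContDiffOn ℂ ∞ Z (A.D b.k j) := by rw [hZd]; exact hE.hol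
  have hQU : ∀ z ∈ Q, z ∈ A.D b.k j := fun z hz => box_D b (hQ2 z hz).1 (hQ2 z hz).2
  -- normalisation of `t`
  have hnorm : ∀ z ∈ Q, ∀ (us : Fin r → E m) (Us : Ix n → E m) (t : Fin r → ℂ), t ≠ 0 →
      ∃ t' : Fin r → ℂ, ‖t'‖ = 1 ∧ val η b κ' j z us Us t' = val η b κ' j z us Us t := by
    intro z hz us Us t ht
    have hn : ‖t‖ ≠ 0 := norm_ne_zero_iff.2 ht
    have hn' : ((‖t‖⁻¹ : ℝ) : ℂ) ≠ 0 := by
      exact_mod_cast inv_ne_zero hn
    refine ⟨((‖t‖⁻¹ : ℝ) : ℂ) • t, ?_, ?_⟩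
    · rw [norm_smul, Complex.norm_real, norm_inv, norm_norm, inv_mul_cancel₀ hn]
    · unfold val
      have h1 : ∀ bs : Fin r → E n, lc (((‖t‖⁻¹ : ℝ) : ℂ) • t) bs
          = ((‖t‖⁻¹ : ℝ) : ℂ) • lc t bs := by
        intro bs
        unfold lc
        rw [Finset.smul_sum]
        refine Finset.sum_congr rfl (fun i _ => ?_)
        rw [Pi.smul_apply, smul_smul, smul_eq_mul]
      rw [h1, Af_smul hE.loc (hQU z hz) hn' _]
  obtain ⟨W, hWd⟩ : ∃ W : (E n × (Fin r → E m) × (Ix n → E m) × (Fin r → ℂ)) → ℝ,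
    W = fun p => wei η b j p.1 p.2.1 p.2.2.1 := ⟨_, rfl⟩
  obtain ⟨Ψ, hΨd⟩ : ∃ Ψ : (E n × (Fin r → E m) × (Ix n → E m) × (Fin r → ℂ)) → ℝ,
    Ψ = fun p => val η b κ' j p.1 p.2.1 p.2.2.1 p.2.2.2 := ⟨_, rfl⟩
  obtain ⟨K, hKd⟩ : ∃ K : Set (E n × (Fin r → E m) × (Ix n → E m) × (Fin r → ℂ)),
    K = Q ×ˢ (Metric.closedBall (0 : Fin r → E m) 1 ×ˢ
      (Metric.closedBall (0 : Ix n → E m) 1 ×ˢ Metric.sphere (0 : Fin r → ℂ) 1)) := ⟨_, rfl⟩
  have hKmem : ∀ p, p ∈ K ↔ p.1 ∈ Q ∧ (∀ i, ‖p.2.1 i‖ ≤ 1) ∧ (∀ i, ‖p.2.2.1 i‖ ≤ 1)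
      ∧ ‖p.2.2.2‖ = 1 := by
    intro p
    rw [hKd]
    simp only [Set.mem_prod, Metric.mem_closedBall, dist_zero_right, mem_sphere_zero_iff_norm]
    rw [pi_norm_le_iff_of_nonneg zero_le_one, pi_norm_le_iff_of_nonneg zero_le_one]
  have hKc : IsCompact K := by
    rw [hKd]
    exact hQ.prod ((isCompact_closedBall _ _).prod
      ((isCompact_closedBall _ _).prod (isCompact_sphere _ _)))
  have hζ : ContinuousOn (fun p : E n × (Fin r → E m) × (Ix n → E m) × (Fin r → ℂ) => p.1) K :=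
    continuous_fst.continuousOn
  have hKU : ∀ p ∈ K, p.1 ∈ A.D b.k j := fun p hp => hQU _ ((hKmem p).1 hp).1
  have hus : ∀ i, ContinuousOn
      (fun p : E n × (Fin r → E m) × (Ix n → E m) × (Fin r → ℂ) => p.2.1 i) K := fun i =>
    ((continuous_apply i).comp (continuous_fst.comp continuous_snd)).continuousOn
  have hUs : ∀ i, ContinuousOn
      (fun p : E n × (Fin r → E m) × (Ix n → E m) × (Fin r → ℂ) => p.2.2.1 i) K := fun i =>
    ((continuous_apply i).comp
      (continuous_fst.comp (continuous_snd.comp continuous_snd))).continuousOn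
  have hhv : ∀ i, ContinuousOn
      (fun p : E n × (Fin r → E m) × (Ix n → E m) × (Fin r → ℂ) => hv (p.2.1 i) Z p.1) K :=
    fun i => MxB_hv hU hZ _ hζ hKU _ (hus i)
  have hgz : ContinuousOn (fun p : E n × (Fin r → E m) × (Ix n → E m) × (Fin r → ℂ) =>
      gz w Z p.2.1 p.1) K := MxB_gd L _ hζ hKU (fun p i => hv (p.2.1 i) Z p.1) hhv
  have hWc : ContinuousOn W K := by
    rw [hWd]
    unfold wei
    rw [← hw, ← hZd]
    have h1 : ContinuousOn (fun p : E n × (Fin r → E m) × (Ix n → E m) × (Fin r → ℂ) =>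
        b.ϑ (Z p.1)) K :=
      b.smooth.continuous.comp_continuousOn (hZ.continuousOn.comp hζ hKU)
    exact (h1.mul hgz).mul (Complex.continuous_normSq.comp_continuousOn
      (MxB_fz hU hZ _ hζ hKU (fun p => p.2.2.1) hUs))
  obtain ⟨T, hTd⟩ : ∃ T : Set (E n × (Fin r → E m) × (Ix n → E m) × (Fin r → ℂ)),
    T = K ∩ W ⁻¹' Set.Ici ε := ⟨_, rfl⟩
  have hTmem : ∀ p, p ∈ T ↔ p ∈ K ∧ ε ≤ W p := by
    intro p
    rw [hTd]
    rfl
  have hTK : T ⊆ K := fun p hp => ((hTmem p).1 hp).1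
  have hTc : IsCompact T := by
    refine hKc.of_isClosed_subset ?_ hTK
    rw [hTd]
    exact hWc.preimage_isClosed_of_isClosed hKc.isClosed isClosed_Ici
  have hgpos : ∀ p, p ∈ T → 0 < gz w Z p.2.1 p.1 := by
    intro p hp
    have h1 := lt_of_lt_of_le hε ((hTmem p).1 hp).2
    rw [hWd] at h1
    unfold wei at h1
    rw [← hw, ← hZd] at h1
    have h2 : 0 < b.ϑ (Z p.1) * gz w Z p.2.1 p.1 :=
      pos_of_mul_pos_left h1 (Complex.normSq_nonneg _)
    exact pos_of_mul_pos_right h2 (b.nonneg _)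
  have hΨc : ContinuousOn Ψ T := by
    rw [hΨd]
    unfold val
    rw [← hw, ← hZd]
    have hζ' := hζ.mono hTK
    have hKU' : ∀ p ∈ T, p.1 ∈ A.D b.k j := fun p hp => hKU p (hTK hp)
    have ht : ∀ i, ContinuousOn
        (fun p : E n × (Fin r → E m) × (Ix n → E m) × (Fin r → ℂ) => p.2.2.2 i) T := fun i =>
      ((continuous_apply i).comp
        (continuous_snd.comp (continuous_snd.comp continuous_snd))).continuousOn
    have hlc : ContinuousOn (fun p : E n × (Fin r → E m) × (Ix n → E m) × (Fin r → ℂ) =>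
        lc p.2.2.2 fun i => hv (p.2.1 i) Z p.1) T := by
      unfold lc
      exact continuousOn_finsetSum _ fun i _ => (ht i).smul ((hhv i).mono hTK)
    have hB := MxB_Bf L _ hζ' hKU' _ hlc
    have hF := MxB_levi L _ hζ' hKU' _ _ hlc hlc
    have hW' := hWc.mono hTK
    rw [hWd] at hW'
    refine ContinuousOn.mul ?_ (hW'.rpow_const (fun p _ => Or.inr hκ.le))
    unfold Af
    refine ContinuousOn.div (Complex.continuous_normSq.comp_continuousOn hB)
      ((Complex.continuous_re.comp_continuousOn hF).pow 3) (fun p hp => ?_)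
    have ht0 : p.2.2.2 ≠ 0 := by
      intro h
      have := ((hKmem p).1 (hTK hp)).2.2.2
      rw [h, norm_zero] at this
      exact zero_ne_one this
    exact (pow_pos (MxB_pos L (hKU' p hp) _ (hgpos p hp) p.2.2.2 ht0) 3).ne'
  have hTne : T.Nonempty := by
    obtain ⟨z, hz, us, Us, t, hc, hw⟩ := hne
    obtain ⟨t', ht', _⟩ := hnorm z hz us Us t hc.t_ne
    refine ⟨(z, us, Us, t'), ?_⟩
    rw [hTmem, hKmem]
    refine ⟨⟨hz, hc.us_le, hc.Us_le, ht'⟩, ?_⟩
    rw [hWd]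
    exact hw
  obtain ⟨p0, hp0, hmax⟩ := hTc.exists_isMaxOn hTne hΨc
  have hK0 := (hKmem p0).1 (hTK hp0)
  have hW0 := ((hTmem p0).1 hp0).2
  rw [hWd] at hW0
  refine ⟨p0.1, hK0.1, p0.2.1, p0.2.2.1, p0.2.2.2, ⟨(hQ2 _ hK0.1).1, (hQ2 _ hK0.1).2, hK0.2.1,
    hK0.2.2.1, ?_, lt_of_lt_of_le hε hW0⟩, hW0, ?_⟩
  · intro h
    have := hK0.2.2.2
    rw [h, norm_zero] at this
    exact zero_ne_one this
  · intro z hz us Us t hc hwe
    obtain ⟨t', ht', hv'⟩ := hnorm z hz us Us t hc.t_ne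
    have hm : (z, us, Us, t') ∈ T := by
      rw [hTmem, hKmem]
      refine ⟨⟨hz, hc.us_le, hc.Us_le, ht'⟩, ?_⟩
      rw [hWd]
      exact hwe
    have h1 := isMaxOn_iff.1 hmax _ hm
    rw [hΨd] at h1
    rw [← hv']
    exact h1

end Pool.Agent.NSK
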