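import Pool.Agent.NSK.MxA
import Pool.Agent.NSK.MxB

/-!
MxG (size 4): a configuration of maximal value exists.
Let `C ≥ 0` be the maximum over `q : Fin N` of the constants of `mxC`, `v1 > 0` the value of the given
configuration, `ε > 0` with `C ε ^ κ' < v1` and `ε ≤` nothing else. A configuration with `wei < ε` has value
`≤ C wei ^ κ' ≤ C ε ^ κ' < v1`. Those with `wei ≥ ε`: for every `q` the pieces `(j s, Q s)` of `mxP`; every such
configuration `(q, i, z, ...)` has the same value and weight as `(q, j s, A.c (j s) ((A.c i).symm z), ...)` with the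
point in `Q s` (`inv_cfg`, `inv_wei`, `inv_val`, `box_D`). For each pair `(q, s)` for which there is one, `mxB` gives a maximal one;
take the maximum over the finitely many pairs (there is at least one pair, from the given
configuration, whose weight is `≥ ε`, otherwise its value would be `< v1`). Use e.g.
`Finite` / `Finset.exists_max_image` over `(q : Fin N) × Fin (M q)` or induction over `q`, `s`.
-/

open scoped ContDiff ComplexConjugate Topology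
open Complex

namespace Pool.Agent.NSK

open Pool.Agent.DTW Pool.Agent.SKF

variable {n m : ℕ} {X : Type*} [TopologicalSpace X] {ι κ : Type*} {A : Space n m X ι κ}

theorem mxG [CompactSpace X] [T2Space X] (η : Form A) {N : ℕ} (b : Fin N → Box A) (κ' : ℝ)
    (hκ : 0 < κ') {r : ℕ} {q1 : Fin N} {i1 : ι} {z1 : E n} {us1 : Fin r → E m}
    {Us1 : Ix n → E m} {t1 : Fin r → ℂ} (h1 : Cfg η (b q1) i1 z1 us1 Us1 t1)
    (hpos : 0 < val η (b q1) κ' i1 z1 us1 Us1 t1) :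
    ∃ (q0 : Fin N) (i0 : ι) (z0 : E n) (us0 : Fin r → E m) (Us0 : Ix n → E m)
      (t0 : Fin r → ℂ), Cfg η (b q0) i0 z0 us0 Us0 t0 ∧
      0 < val η (b q0) κ' i0 z0 us0 Us0 t0 ∧
      ∀ (q : Fin N) (i : ι) (z : E n) (us : Fin r → E m) (Us : Ix n → E m) (t : Fin r → ℂ),
        Cfg η (b q) i z us Us t →
          val η (b q) κ' i z us Us t ≤ val η (b q0) κ' i0 z0 us0 Us0 t0 := by
  classical
  choose C hC0 hC using fun q => mxC η (b q)
  obtain ⟨Ct, hCt⟩ : ∃ Ct : ℝ, Ct = ∑ q, C q := ⟨_, rfl⟩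
  have hCt0 : 0 ≤ Ct := by rw [hCt]; exact Finset.sum_nonneg (fun q _ => hC0 q)
  have hCq : ∀ q, C q ≤ Ct := fun q => by
    rw [hCt]; exact Finset.single_le_sum (fun q _ => hC0 q) (Finset.mem_univ q)
  obtain ⟨v1, hv1⟩ : ∃ v1 : ℝ, v1 = val η (b q1) κ' i1 z1 us1 Us1 t1 := ⟨_, rfl⟩
  have hv1p : 0 < v1 := by rw [hv1]; exact hpos
  obtain ⟨ε, hε, hεv⟩ : ∃ ε : ℝ, 0 < ε ∧ Ct * ε ^ κ' < v1 := by
    have hC1 : 0 < Ct + 1 := by linarith
    have hd : 0 < v1 / (Ct + 1) := div_pos hv1p hC1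
    refine ⟨(v1 / (Ct + 1)) ^ (1 / κ'), Real.rpow_pos_of_pos hd _, ?_⟩
    rw [← Real.rpow_mul hd.le, one_div_mul_cancel hκ.ne', Real.rpow_one]
    have h2 : (Ct + 1) * (v1 / (Ct + 1)) = v1 := mul_div_cancel₀ _ hC1.ne'
    nlinarith
  choose M j Q hQc hQ2 hQ3 using fun q => mxP η (b q) r hε
  have hsmall : ∀ (q : Fin N) (i : ι) (z : E n) (us : Fin r → E m) (Us : Ix n → E m)
      (t : Fin r → ℂ), Cfg η (b q) i z us Us t → wei η (b q) i z us Us < ε →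
      val η (b q) κ' i z us Us t ≤ Ct * ε ^ κ' := by
    intro q i z us Us t h hlt
    unfold val
    have ha : Af (η.w i) z (lc t fun l => hv (us l) (A.Z (b q).k i) z) ≤ Ct :=
      (hC q i z h.mem h.memK _).trans (hCq q)
    have hw0 : 0 ≤ wei η (b q) i z us Us ^ κ' := Real.rpow_nonneg h.pos.le _
    have hw1 : wei η (b q) i z us Us ^ κ' ≤ ε ^ κ' := Real.rpow_le_rpow h.pos.le hlt.le hκ.le
    exact (mul_le_mul_of_nonneg_right ha hw0).trans (mul_le_mul_of_nonneg_left hw1 hCt0)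
  have hred : ∀ (q : Fin N) (i : ι) (z : E n) (us : Fin r → E m) (Us : Ix n → E m)
      (t : Fin r → ℂ), Cfg η (b q) i z us Us t → ε ≤ wei η (b q) i z us Us →
      ∃ s : Fin (M q), ∃ z' ∈ Q q s, Cfg η (b q) (j q s) z' us Us t ∧
        ε ≤ wei η (b q) (j q s) z' us Us ∧
        val η (b q) κ' i z us Us t = val η (b q) κ' (j q s) z' us Us t := by
    intro q i z us Us t h hw
    obtain ⟨s, hs1, hs2⟩ := hQ3 q i z h.mem h.memK us Us h.us_le h.Us_le hw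
    have hD : z ∈ A.D (b q).k i := ⟨h.mem, (b q).sub h.memK⟩
    refine ⟨s, _, hs2, inv_cfg η (b q) h hs1, ?_, inv_val η (b q) hD hs1 κ' us Us t⟩
    rw [← inv_wei η (b q) hD hs1 us Us]
    exact hw
  let P : Type := {p : Σ q : Fin N, Fin (M q) // ∃ z ∈ Q p.1 p.2, ∃ (us : Fin r → E m)
    (Us : Ix n → E m) (t : Fin r → ℂ), Cfg η (b p.1) (j p.1 p.2) z us Us t ∧
      ε ≤ wei η (b p.1) (j p.1 p.2) z us Us}
  have hmx : ∀ p : P, ∃ z0 ∈ Q p.1.1 p.1.2, ∃ (us0 : Fin r → E m) (Us0 : Ix n → E m)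
      (t0 : Fin r → ℂ), Cfg η (b p.1.1) (j p.1.1 p.1.2) z0 us0 Us0 t0 ∧
        ε ≤ wei η (b p.1.1) (j p.1.1 p.1.2) z0 us0 Us0 ∧
        ∀ z ∈ Q p.1.1 p.1.2, ∀ (us : Fin r → E m) (Us : Ix n → E m) (t : Fin r → ℂ),
          Cfg η (b p.1.1) (j p.1.1 p.1.2) z us Us t →
          ε ≤ wei η (b p.1.1) (j p.1.1 p.1.2) z us Us →
          val η (b p.1.1) κ' (j p.1.1 p.1.2) z us Us t
            ≤ val η (b p.1.1) κ' (j p.1.1 p.1.2) z0 us0 Us0 t0 := fun p =>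
    mxB η (b p.1.1) (j p.1.1 p.1.2) (Q p.1.1 p.1.2) (hQc p.1.1 p.1.2) (hQ2 p.1.1 p.1.2) κ' hκ hε
      p.2
  choose z0 hz0 us0 Us0 t0 hcfg hwei hmax using hmx
  have hw1 : ε ≤ wei η (b q1) i1 z1 us1 Us1 := by
    by_contra hcon
    have h2 := hsmall q1 i1 z1 us1 Us1 t1 h1 (not_le.1 hcon)
    rw [← hv1] at h2
    linarith
  obtain ⟨s1, z1', hz1', hc1, hwe1, hva1⟩ := hred q1 i1 z1 us1 Us1 t1 h1 hw1
  let p1 : P := ⟨⟨q1, s1⟩, ⟨z1', hz1', us1, Us1, t1, hc1, hwe1⟩⟩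
  have : Nonempty P := ⟨p1⟩
  have : Finite P := by
    have : Finite (Σ q : Fin N, Fin (M q)) := inferInstance
    exact Subtype.finite
  obtain ⟨p0, hp0⟩ := Finite.exists_max (fun p : P =>
    val η (b p.1.1) κ' (j p.1.1 p.1.2) (z0 p) (us0 p) (Us0 p) (t0 p))
  have hge : v1 ≤ val η (b p0.1.1) κ' (j p0.1.1 p0.1.2) (z0 p0) (us0 p0) (Us0 p0) (t0 p0) := by
    have h2 := hmax p1 z1' hz1' us1 Us1 t1 hc1 hwe1
    have h3 := hp0 p1
    rw [hv1, hva1]
    exact h2.trans h3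
  refine ⟨p0.1.1, j p0.1.1 p0.1.2, z0 p0, us0 p0, Us0 p0, t0 p0, hcfg p0,
    hv1p.trans_le hge, ?_⟩
  intro q i z us Us t h
  by_cases hw : ε ≤ wei η (b q) i z us Us
  · obtain ⟨s, z', hz', hc, hwe, hva⟩ := hred q i z us Us t h hw
    let p : P := ⟨⟨q, s⟩, ⟨z', hz', us, Us, t, hc, hwe⟩⟩
    rw [hva]
    exact (hmax p z' hz' us Us t hc hwe).trans (hp0 p)
  · exact ((hsmall q i z us Us t h (not_le.1 hw)).trans hεv.le).trans hge

end Pool.Agent.NSK
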